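import Pool.Agent.Lib.MP_7f1c6c_co.Defs

/-!
# Orientation determinant and basic facts
-/

namespace Pool.Agent.Lib.MP_7f1c6c_co

/-- Orientation determinant of three points. -/
def dt (a b c : Plane) : ℝ := (b.1 - a.1) * (c.2 - a.2) - (b.2 - a.2) * (c.1 - a.1)

/-- General position in terms of the determinant. -/
def GP (P : Finset Plane) : Prop :=
  ∀ a ∈ P, ∀ b ∈ P, ∀ c ∈ P, a ≠ b → a ≠ c → b ≠ c → dt a b c ≠ 0

theorem dt_self_left (a c : Plane) : dt a a c = 0 := by simp [dt]
theorem dt_self_right (a c : Plane) : dt a c c = 0 := by simp [dt]; ring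
theorem dt_self_outer (a c : Plane) : dt a c a = 0 := by simp [dt]
theorem dt_rot (a b c : Plane) : dt a b c = dt b c a := by simp only [dt]; ring
theorem dt_swap (a b c : Plane) : dt a b c = - dt b a c := by simp only [dt]; ring
theorem dt_swap' (a b c : Plane) : dt a b c = - dt a c b := by simp only [dt]; ring
theorem dt_split (a b c z : Plane) : dt a b c = dt a b z + dt b c z + dt c a z := by
  simp only [dt]; ring

theorem collinear_iff_dt (a b c : Plane) :
    Collinear ℝ ({a, b, c} : Set Plane) ↔ dt a b c = 0 := by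
  constructor
  · intro h
    rw [collinear_iff_of_mem (p₀ := a) (by simp)] at h
    obtain ⟨v, hv⟩ := h
    obtain ⟨r, hr⟩ := hv b (by simp)
    obtain ⟨t, ht⟩ := hv c (by simp)
    rw [hr, ht]
    simp only [dt, vadd_eq_add, Prod.fst_add, Prod.snd_add, Prod.smul_fst, Prod.smul_snd,
      smul_eq_mul]
    ring
  · intro h
    by_cases hab : a = b
    · subst hab
      simpa using collinear_pair ℝ a c
    rw [collinear_iff_of_mem (p₀ := a) (by simp)]
    refine ⟨b - a, ?_⟩
    have hne : (b.1 - a.1) ^ 2 + (b.2 - a.2) ^ 2 ≠ 0 := by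
      intro h0
      apply hab
      have h1 : b.1 - a.1 = 0 := by nlinarith [sq_nonneg (b.1 - a.1), sq_nonneg (b.2 - a.2)]
      have h2 : b.2 - a.2 = 0 := by nlinarith [sq_nonneg (b.1 - a.1), sq_nonneg (b.2 - a.2)]
      ext <;> linarith
    intro p hp
    simp only [Set.mem_insert_iff, Set.mem_singleton_iff] at hp
    rcases hp with rfl | rfl | rfl
    · exact ⟨0, by simp⟩
    · exact ⟨1, by simp⟩
    · refine ⟨((p.1 - a.1) * (b.1 - a.1) + (p.2 - a.2) * (b.2 - a.2)) /
        ((b.1 - a.1) ^ 2 + (b.2 - a.2) ^ 2), ?_⟩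
      simp only [dt] at h
      ext
      · simp only [vadd_eq_add, Prod.fst_add, Prod.smul_fst, smul_eq_mul, Prod.fst_sub]
        field_simp
        linear_combination (-(b.2 - a.2)) * h
      · simp only [vadd_eq_add, Prod.snd_add, Prod.smul_snd, smul_eq_mul, Prod.snd_sub]
        field_simp
        linear_combination (b.1 - a.1) * h

theorem gp_iff (P : Finset Plane) : GeneralPosition P ↔ GP P := by
  simp only [GeneralPosition, GP, collinear_iff_dt]

theorem GP.mono {P Q : Finset Plane} (h : GP Q) (hPQ : P ⊆ Q) : GP P :=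
  fun a ha b hb c hc => h a (hPQ ha) b (hPQ hb) c (hPQ hc)

theorem gp_insert {P : Finset Plane} {x : Plane} (h : GP P)
    (hx : ∀ a ∈ P, ∀ b ∈ P, a ≠ b → dt a b x ≠ 0) : GP (insert x P) := by
  intro a ha b hb c hc hab hac hbc
  rw [Finset.mem_insert] at ha hb hc
  rcases ha with rfl | ha
  · rcases hb with rfl | hb
    · exact absurd rfl hab
    · rcases hc with rfl | hc
      · exact absurd rfl hac
      · rw [dt_rot]; exact hx b hb c hc hbc
  · rcases hb with rfl | hb
    · rcases hc with rfl | hc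
      · exact absurd rfl hbc
      · rw [← dt_rot]; exact hx c hc a ha (Ne.symm hac)
    · rcases hc with rfl | hc
      · exact hx a ha b hb hab
      · exact h a ha b hb c hc hab hac hbc

theorem finite_quadratic {A B C : ℝ} (h : A ≠ 0 ∨ B ≠ 0 ∨ C ≠ 0) :
    {t : ℝ | A * t ^ 2 + B * t + C = 0}.Finite := by
  set p : Polynomial ℝ := Polynomial.C A * Polynomial.X ^ 2 + Polynomial.C B * Polynomial.X
    + Polynomial.C C with hp
  have hp0 : p ≠ 0 := by
    intro h0
    have h2 : p.coeff 2 = 0 := by rw [h0]; simp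
    have h1 : p.coeff 1 = 0 := by rw [h0]; simp
    have h00 : p.coeff 0 = 0 := by rw [h0]; simp
    simp [hp, Polynomial.coeff_X, Polynomial.coeff_C] at h2 h1 h00
    rcases h with h | h | h
    · exact h h2
    · exact h h1
    · exact h h00
  refine (Polynomial.finite_setOfPred_isRoot hp0).subset ?_
  intro t ht
  simp only [Set.mem_ofPred_eq] at ht ⊢
  simp only [Polynomial.IsRoot, hp, Polynomial.eval_add, Polynomial.eval_mul,
    Polynomial.eval_C, Polynomial.eval_pow, Polynomial.eval_X]
  exact ht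

theorem finite_affine {B C : ℝ} (h : B ≠ 0 ∨ C ≠ 0) :
    {t : ℝ | B * t + C = 0}.Finite := by
  have := finite_quadratic (A := 0) (B := B) (C := C) (Or.inr h)
  simpa using this

theorem exists_pos_small_notMem {S : Set ℝ} (hS : S.Finite) {ε : ℝ} (hε : 0 < ε) :
    ∃ t, 0 < t ∧ t < ε ∧ t ∉ S := by
  have hinf : (Set.Ioo 0 ε \ S).Infinite := (Set.Ioo_infinite hε).sdiff hS
  obtain ⟨t, ht⟩ := hinf.nonempty
  exact ⟨t, ht.1.1, ht.1.2, ht.2⟩

theorem exists_Ioo_notMem {S : Set ℝ} (hS : S.Finite) {a b : ℝ} (hab : a < b) :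
    ∃ t, a < t ∧ t < b ∧ t ∉ S := by
  have hinf : (Set.Ioo a b \ S).Infinite := (Set.Ioo_infinite hab).sdiff hS
  obtain ⟨t, ht⟩ := hinf.nonempty
  exact ⟨t, ht.1.1, ht.1.2, ht.2⟩

theorem continuous_dt {f g h : ℝ → Plane} (hf : Continuous f) (hg : Continuous g)
    (hh : Continuous h) : Continuous (fun t => dt (f t) (g t) (h t)) := by
  unfold dt
  fun_prop

/-- In every nonempty open set there is a point that can be legally added. -/
theorem exists_generic (P : Finset Plane) (hP : GP P) (U : Set Plane) (hU : IsOpen U)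
    (hne : U.Nonempty) : ∃ x ∈ U, x ∉ P ∧ GP (insert x P) := by
  obtain ⟨u, hu⟩ := hne
  have hcont : Continuous (fun t : ℝ => ((u.1 + t, u.2 + t ^ 2) : Plane)) := by fun_prop
  have h0 : ((u.1 + 0, u.2 + 0 ^ 2) : Plane) ∈ U := by simpa using hu
  have hev : ∀ᶠ t in nhds (0 : ℝ), ((u.1 + t, u.2 + t ^ 2) : Plane) ∈ U :=
    hcont.continuousAt.eventually (hU.mem_nhds h0)
  obtain ⟨ε, hε, hball⟩ := Metric.eventually_nhds_iff.mp hev
  set S : Set ℝ := (⋃ p ∈ P, {t : ℝ | u.1 + t = p.1}) ∪
    ⋃ p ∈ P, ⋃ q ∈ P, {t : ℝ | p ≠ q ∧ dt p q (u.1 + t, u.2 + t ^ 2) = 0} with hS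
  have hSfin : S.Finite := by
    refine Set.Finite.union ?_ ?_
    · refine Set.Finite.biUnion P.finite_toSet ?_
      intro p _
      refine (Set.finite_singleton (p.1 - u.1)).subset ?_
      intro t ht
      simp only [Set.mem_ofPred_eq] at ht
      simp only [Set.mem_singleton_iff]
      linarith
    · refine Set.Finite.biUnion P.finite_toSet ?_
      intro p _
      refine Set.Finite.biUnion P.finite_toSet ?_
      intro q _
      by_cases hpq : p = q
      · refine Set.finite_empty.subset ?_
        intro t ht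
        exact absurd hpq ht.1
      · have h3 : (q.1 - p.1) ≠ 0 ∨ (-(q.2 - p.2)) ≠ 0 ∨
            ((q.1 - p.1) * (u.2 - p.2) - (q.2 - p.2) * (u.1 - p.1)) ≠ 0 := by
          by_contra hcon
          push Not at hcon
          apply hpq
          ext
          · linarith [hcon.1]
          · linarith [hcon.2.1]
        refine (finite_quadratic h3).subset ?_
        intro t ht
        have h4 := ht.2
        simp only [dt] at h4
        simp only [Set.mem_ofPred_eq]
        linear_combination h4
  obtain ⟨t, ht0, htε, htS⟩ := exists_pos_small_notMem hSfin hε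
  refine ⟨(u.1 + t, u.2 + t ^ 2), ?_, ?_, ?_⟩
  · apply hball
    rw [Real.dist_eq, sub_zero, abs_of_pos ht0]
    exact htε
  · intro hmem
    apply htS
    left
    exact Set.mem_biUnion hmem rfl
  · apply gp_insert hP
    intro a ha b hb hab h0
    apply htS
    right
    exact Set.mem_biUnion ha (Set.mem_biUnion hb ⟨hab, h0⟩)

/-- Points of the interior of a hull lie strictly on the side of a line on which
the generating points lie weakly. -/
theorem dt_pos_of_mem_interior {H : Set Plane} {u v : Plane} (huv : u ≠ v)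
    (hH : ∀ p ∈ H, 0 ≤ dt u v p) {z : Plane} (hz : z ∈ interior (convexHull ℝ H)) :
    0 < dt u v z := by
  have hconv : Convex ℝ {p : Plane | 0 ≤ dt u v p} := by
    intro p hp q hq a b ha hb hab
    simp only [Set.mem_ofPred_eq] at hp hq ⊢
    have : dt u v (a • p + b • q) = a * dt u v p + b * dt u v q := by
      simp only [dt, Prod.fst_add, Prod.snd_add, Prod.smul_fst, Prod.smul_snd, smul_eq_mul]
      have hb' : b = 1 - a := by linarith
      rw [hb']; ring
    rw [this]; positivity
  have hsub : convexHull ℝ H ⊆ {p : Plane | 0 ≤ dt u v p} := convexHull_min hH hconv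
  have hcont : Continuous (fun t : ℝ =>
      ((z.1 + t * (v.2 - u.2), z.2 - t * (v.1 - u.1)) : Plane)) := by fun_prop
  have h0 : ((z.1 + 0 * (v.2 - u.2), z.2 - 0 * (v.1 - u.1)) : Plane) ∈
      interior (convexHull ℝ H) := by simpa using hz
  have hev := hcont.continuousAt.eventually (isOpen_interior.mem_nhds h0)
  obtain ⟨ε, hε, hball⟩ := Metric.eventually_nhds_iff.mp hev
  have h1 := hball (y := ε / 2) (by rw [Real.dist_eq, sub_zero, abs_of_pos] <;> linarith)
  have h2 := hsub (interior_subset h1)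
  simp only [Set.mem_ofPred_eq, dt] at h2
  simp only [dt]
  have hsq : 0 < (v.1 - u.1) ^ 2 + (v.2 - u.2) ^ 2 := by
    by_contra hcon
    apply huv
    have h3 : v.1 - u.1 = 0 := by nlinarith [sq_nonneg (v.1 - u.1), sq_nonneg (v.2 - u.2)]
    have h4 : v.2 - u.2 = 0 := by nlinarith [sq_nonneg (v.1 - u.1), sq_nonneg (v.2 - u.2)]
    ext <;> linarith
  nlinarith [mul_pos hε hsq]

end Pool.Agent.Lib.MP_7f1c6c_co
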