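import Pool.Agent.Lib.MP_7f1c6c_co.Rings

/-!
# Breaker wins the 6-hole game with bias 1 : 16
-/

namespace Pool.Agent.Lib.MP_7f1c6c_co

theorem nr_add_le (x y : Plane) : nr (x + y) ≤ nr x + nr y := by
  have h1 := nr_nonneg x
  have h2 := nr_nonneg y
  have h3 := nr_nonneg (x + y)
  have e1 := nr_sq x
  have e2 := nr_sq y
  have e3 := nr_sq (x + y)
  have hcs : dp x y ≤ nr x * nr y := by
    have h4 : (dp x y) ^ 2 ≤ (nr x * nr y) ^ 2 := by
      rw [mul_pow, e1, e2]
      simp only [dp]
      nlinarith [sq_nonneg (x.1 * y.2 - x.2 * y.1)]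
    exact le_of_sq_le_sq' h4 (mul_nonneg h1 h2)
  apply le_of_sq_le_sq' _ (by positivity)
  rw [e3]
  have : dp (x + y) (x + y) = dp x x + 2 * dp x y + dp y y := by
    simp only [dp, Prod.fst_add, Prod.snd_add]; ring
  rw [this, ← e1, ← e2]
  nlinarith
where
  le_of_sq_le_sq' {a b : ℝ} (h : a ^ 2 ≤ b ^ 2) (hb : 0 ≤ b) : a ≤ b :=
    abs_le_of_sq_le_sq' h hb |>.2

theorem cr_le (x y : Plane) : |cr x y| ≤ nr x * nr y := by
  have h1 := nr_nonneg x
  have h2 := nr_nonneg y
  apply abs_le_of_sq_le_sq _ (mul_nonneg h1 h2)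
  rw [mul_pow, nr_sq, nr_sq]
  simp only [dp, cr]
  nlinarith [sq_nonneg (x.1 * y.1 + x.2 * y.2)]

/-- One ring point. -/
theorem exists_ring_point (P : Finset Plane) (hP : GP P) (v : Plane) {r2 : ℝ} (hr : 0 < r2)
    (k : Fin 4) {e : ℝ} (he : e = 1 ∨ e = -1) :
    ∃ z, z ∉ P ∧ GP (insert z P) ∧ dp (z - v) (z - v) < r2 ∧
      ∀ x : Plane, (1 / 4) * nr x < e * cr (dir k) x → 0 < cr (z - v) x := by
  -- scale
  obtain ⟨τ, hτ, hτr⟩ : ∃ τ : ℝ, 0 < τ ∧ 8 * τ ^ 2 < r2 := by
    refine ⟨min 1 (r2 / 16), lt_min one_pos (by positivity), ?_⟩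
    have h1 : min 1 (r2 / 16) ≤ 1 := min_le_left _ _
    have h2 : min 1 (r2 / 16) ≤ r2 / 16 := min_le_right _ _
    have h3 : 0 < min 1 (r2 / 16) := lt_min one_pos (by positivity)
    nlinarith
  set U : Set Plane := {z | dp (z - (v + (τ * e) • dir k)) (z - (v + (τ * e) • dir k)) <
    τ ^ 2 / 16} with hU
  have hopen : IsOpen U := by
    apply isOpen_lt _ continuous_const
    unfold dp
    fun_prop
  have hne : U.Nonempty := by
    refine ⟨v + (τ * e) • dir k, ?_⟩
    simp only [hU, Set.mem_ofPred_eq, sub_self]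
    have : dp (0 : Plane) 0 = 0 := by simp [dp]
    rw [this]; positivity
  obtain ⟨z, hzU, hzP, hzG⟩ := exists_generic P hP U hopen hne
  refine ⟨z, hzP, hzG, ?_, ?_⟩
  · -- size
    set y := z - (v + (τ * e) • dir k) with hy
    have hyU : dp y y < τ ^ 2 / 16 := hzU
    have hzv : z - v = y + (τ * e) • dir k := by rw [hy]; abel
    rw [hzv]
    have hd : dp (dir k) (dir k) ≤ 2 := by
      fin_cases k <;> simp [dir, dp] <;> norm_num
    have he2 : e ^ 2 = 1 := by rcases he with rfl | rfl <;> norm_num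
    have e1 : dp (y + (τ * e) • dir k) (y + (τ * e) • dir k) ≤
        2 * dp y y + 2 * (τ ^ 2 * dp (dir k) (dir k)) := by
      have : τ ^ 2 * dp (dir k) (dir k) =
          dp ((τ * e) • dir k) ((τ * e) • dir k) := by
        simp only [dp, Prod.smul_fst, Prod.smul_snd, smul_eq_mul]
        linear_combination (-(τ ^ 2) * ((dir k).1 ^ 2 + (dir k).2 ^ 2)) * he2
      rw [this]
      generalize (τ * e) • dir k = w
      simp only [dp, Prod.fst_add, Prod.snd_add]
      nlinarith [sq_nonneg (y.1 - w.1), sq_nonneg (y.2 - w.2)]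
    nlinarith [sq_nonneg τ]
  · intro x hx
    set y := z - (v + (τ * e) • dir k) with hy
    have hyU : dp y y < τ ^ 2 / 16 := hzU
    have hzv : z - v = y + (τ * e) • dir k := by rw [hy]; abel
    have hny : nr y < τ / 4 := by
      have h1 := nr_sq y
      have h2 := nr_nonneg y
      by_contra hcon
      push Not at hcon
      nlinarith
    have e1 : cr (z - v) x = cr y x + τ * (e * cr (dir k) x) := by
      rw [hzv]
      simp only [cr, Prod.fst_add, Prod.snd_add, Prod.smul_fst, Prod.smul_snd, smul_eq_mul]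
      ring
    rw [e1]
    have h3 := (abs_le.mp (cr_le y x)).1
    have h4 := nr_nonneg x
    have h5 : nr y * nr x ≤ τ / 4 * nr x := mul_le_mul_of_nonneg_right hny.le h4
    have h6 : τ * ((1 / 4) * nr x) < τ * (e * cr (dir k) x) := mul_lt_mul_of_pos_left hx hτ
    linarith

theorem exists_ring_aux (P : Finset Plane) (hP : GP P) (v : Plane) {r2 : ℝ} (hr : 0 < r2)
    (T : Finset (Fin 4 × Bool)) : ∃ B : Finset Plane, B.card ≤ T.card ∧ Disjoint B P ∧
      GP (P ∪ B) ∧ ∀ ks ∈ T, ∃ z ∈ B, dp (z - v) (z - v) < r2 ∧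
        ∀ x : Plane, (1 / 4) * nr x < (if ks.2 then (1 : ℝ) else -1) * cr (dir ks.1) x →
          0 < cr (z - v) x := by
  classical
  induction T using Finset.induction_on with
  | empty => exact ⟨∅, by simp, by simp, by simpa using hP, by simp⟩
  | @insert ks T hks ih =>
    obtain ⟨B, h1, h2, h3, h4⟩ := ih
    obtain ⟨z, hz1, hz2, hz3, hz4⟩ := exists_ring_point (P ∪ B) h3 v hr ks.1
      (e := if ks.2 then (1 : ℝ) else -1) (by
        cases ks.2
        · right; simp
        · left; simp)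
    refine ⟨insert z B, ?_, ?_, ?_, ?_⟩
    · rw [Finset.card_insert_of_notMem hks]
      exact (Finset.card_insert_le _ _).trans (Nat.succ_le_succ h1)
    · rw [Finset.disjoint_insert_left]
      refine ⟨?_, h2⟩
      intro h
      exact hz1 (Finset.mem_union_left _ h)
    · rw [Finset.union_insert]
      exact hz2
    · intro ks' hks'
      rw [Finset.mem_insert] at hks'
      rcases hks' with rfl | hks'
      · exact ⟨z, Finset.mem_insert_self _ _, hz3, hz4⟩
      · obtain ⟨w, hw, hw2⟩ := h4 ks' hks'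
        exact ⟨w, Finset.mem_insert_of_mem hw, hw2⟩

theorem exists_ring (P : Finset Plane) (hP : GP P) (v : Plane) {r2 : ℝ} (hr : 0 < r2) :
    ∃ B : Finset Plane, B.card ≤ 8 ∧ Disjoint B P ∧ GP (P ∪ B) ∧ RingOK v B r2 := by
  obtain ⟨B, h1, h2, h3, h4⟩ := exists_ring_aux P hP v hr Finset.univ
  refine ⟨B, h1.trans (by simp), h2, h3, ?_⟩
  intro k e he
  rcases he with rfl | rfl
  · obtain ⟨z, hz, g1, g2⟩ := h4 (k, true) (Finset.mem_univ _)
    exact ⟨z, hz, g1, by simpa using g2⟩
  · obtain ⟨z, hz, g1, g2⟩ := h4 (k, false) (Finset.mem_univ _)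
    exact ⟨z, hz, g1, by simpa using g2⟩

/-- Breaker's invariant. -/
def Inv (M P : Finset Plane) : Prop :=
  M ⊆ P ∧ GP P ∧ ∃ (age : Plane → ℕ) (c Rad : Plane → ℝ),
    Set.InjOn age (M : Set Plane) ∧ (∀ v ∈ M, age v < M.card) ∧
    (∀ v ∈ M, 0 ≤ c v ∧ c v < 1 ∧ ∀ a ∈ M, ∀ b ∈ M, age a < age v → age b < age v → a ≠ b →
      |dp (a - v) (b - v)| ≤ c v * (nr (a - v) * nr (b - v))) ∧
    (∀ v ∈ M, 0 < Rad v) ∧
    (∀ v ∈ M, ∀ w ∈ M, v ≠ w → Rad v + Rad w < nr (v - w)) ∧
    ∀ v ∈ M, RingOK v P ((1 - c v) * Rad v ^ 2 / 2)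

/-- A common bound for finitely many angles. -/
theorem exists_angle_bound (M : Finset Plane) {P : Finset Plane} {x : Plane}
    (hMP : M ⊆ P) (hg : GP (insert x P)) (hx : x ∉ P) :
    ∃ c : ℝ, 0 ≤ c ∧ c < 1 ∧ ∀ a ∈ M, ∀ b ∈ M, a ≠ b →
      |dp (a - x) (b - x)| ≤ c * (nr (a - x) * nr (b - x)) := by
  classical
  have key : ∀ a b : Plane, a ∈ M → b ∈ M → a ≠ b → ∃ c : ℝ, 0 ≤ c ∧ c < 1 ∧
      |dp (a - x) (b - x)| ≤ c * (nr (a - x) * nr (b - x)) := by
    intro a b ha hb hab
    have hax : a ≠ x := by rintro rfl; exact hx (hMP ha)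
    have hbx : b ≠ x := by rintro rfl; exact hx (hMP hb)
    have hna := nr_pos (sub_ne_zero.mpr hax)
    have hnb := nr_pos (sub_ne_zero.mpr hbx)
    have hprod := mul_pos hna hnb
    refine ⟨|dp (a - x) (b - x)| / (nr (a - x) * nr (b - x)), by positivity, ?_, ?_⟩
    · rw [div_lt_one hprod]
      have hcr : cr (a - x) (b - x) ≠ 0 := by
        rw [cr_dt]
        exact hg x (Finset.mem_insert_self _ _) a (Finset.mem_insert_of_mem (hMP ha)) b
          (Finset.mem_insert_of_mem (hMP hb)) hax.symm hbx.symm hab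
      have h1 : |dp (a - x) (b - x)| ^ 2 < (nr (a - x) * nr (b - x)) ^ 2 := by
        rw [sq_abs, mul_pow, nr_sq, nr_sq]
        have h2 : 0 < cr (a - x) (b - x) ^ 2 := by positivity
        have id1 : dp (a - x) (a - x) * dp (b - x) (b - x) =
            dp (a - x) (b - x) ^ 2 + cr (a - x) (b - x) ^ 2 := by
          simp only [dp, cr]; ring
        rw [id1]; linarith
      exact lt_of_pow_lt_pow_left₀ 2 hprod.le h1
    · rw [div_mul_cancel₀ _ hprod.ne']
  choose! c hc0 hc1 hc2 using key
  rcases (M ×ˢ M).eq_empty_or_nonempty with hem | hne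
  · refine ⟨0, le_rfl, one_pos, ?_⟩
    intro a ha b hb _
    have : (a, b) ∈ M ×ˢ M := Finset.mem_product.mpr ⟨ha, hb⟩
    rw [hem] at this
    simp at this
  · obtain ⟨ab, hab, hmax⟩ := Finset.exists_max_image (M ×ˢ M)
      (fun ab => if ab.1 = ab.2 then 0 else c ab.1 ab.2) hne
    rw [Finset.mem_product] at hab
    refine ⟨if ab.1 = ab.2 then 0 else c ab.1 ab.2, ?_, ?_, ?_⟩
    · split_ifs with h
      · exact le_rfl
      · exact hc0 _ _ hab.1 hab.2 h
    · split_ifs with h
      · exact one_pos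
      · exact hc1 _ _ hab.1 hab.2 h
    · intro a ha b hb hne'
      have h1 := hmax (a, b) (Finset.mem_product.mpr ⟨ha, hb⟩)
      simp only [hne', if_false] at h1
      refine (hc2 a b ha hb hne').trans ?_
      exact mul_le_mul_of_nonneg_right h1 (mul_nonneg (nr_nonneg _) (nr_nonneg _))

theorem inv_no_five {M P H : Finset Plane} (h : Inv M P) (hH : H ⊆ M) (hcard : H.card = 5)
    (hci : ConvexIndependent ℝ (fun p : (H : Set Plane) => (p : Plane))) :
    ∃ z ∈ P, z ∈ interior (convexHull ℝ (H : Set Plane)) := by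
  classical
  obtain ⟨hMP, hG, age, c, Rad, hinj, -, hc, hRad, hdis, hring⟩ := h
  obtain ⟨a, ha, hamin⟩ := Finset.exists_min_image H age (by
    rw [← Finset.card_pos]; omega)
  have hcard1 : (H.erase a).card = 4 := by rw [Finset.card_erase_of_mem ha, hcard]
  obtain ⟨b, hb, hbmin⟩ := Finset.exists_min_image (H.erase a) age (by
    rw [← Finset.card_pos]; omega)
  have hcard2 : ((H.erase a).erase b).card = 3 := by
    rw [Finset.card_erase_of_mem hb, hcard1]
  have hbH : b ∈ H := Finset.mem_of_mem_erase hb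
  have hba : b ≠ a := Finset.ne_of_mem_erase hb
  obtain ⟨p1, p2, p3, n12, n13, n23, hT⟩ := Finset.card_eq_three.mp hcard2
  have hTmem : ∀ p ∈ ({p1, p2, p3} : Finset Plane), p ∈ H ∧ p ≠ a ∧ p ≠ b := by
    intro p hp
    rw [← hT, Finset.mem_erase, Finset.mem_erase] at hp
    exact ⟨hp.2.2, hp.2.1, hp.1⟩
  have hHP : ∀ p ∈ H, p ∈ P := fun p hp => hMP (hH hp)
  have hdt : dt p1 p2 p3 ≠ 0 := by
    refine hG p1 (hHP _ (hTmem p1 (by simp)).1) p2 (hHP _ (hTmem p2 (by simp)).1) p3
      (hHP _ (hTmem p3 (by simp)).1) n12 n13 n23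
  obtain ⟨m, hm, u, hu, v, hv, hopen⟩ := triangle_opens hdt
  obtain ⟨hmH, hma, hmb⟩ := hTmem m hm
  obtain ⟨huH, -, -⟩ := hTmem u hu
  obtain ⟨hvH, -, -⟩ := hTmem v hv
  obtain ⟨hcone, k, e, he, h1, h2⟩ := hopen
  have hmM := hH hmH
  obtain ⟨z, hz, hz1, hz2⟩ := hring m hmM k e he
  have g2 : 0 < cr (z - m) (v - m) := hz2 _ h1
  have g1 : 0 < cr (u - m) (z - m) := by
    have h3 := hz2 (-(u - m)) (by
      rw [nr_neg]
      have : cr (dir k) (-(u - m)) = - cr (dir k) (u - m) := by
        simp only [cr, Prod.fst_neg, Prod.snd_neg]; ring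
      rw [this]; linarith)
    have : cr (z - m) (-(u - m)) = cr (u - m) (z - m) := by
      simp only [cr, Prod.fst_neg, Prod.snd_neg]; ring
    rwa [this] at h3
  obtain ⟨hc0, hc1, hc2⟩ := hc m hmM
  have hR := hRad m hmM
  have hagea : age a < age m := by
    rcases lt_or_eq_of_le (hamin m hmH) with h | h
    · exact h
    · exact absurd (hinj (hH ha) hmM h) (Ne.symm hma)
  have hageb : age b < age m := by
    rcases lt_or_eq_of_le (hbmin m (Finset.mem_erase.mpr ⟨hma, hmH⟩)) with h | h
    · exact h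
    · exact absurd (hinj (hH hbH) hmM h) (Ne.symm hmb)
  have hfar : ∀ x ∈ H, x ≠ m → Rad m ^ 2 < dp (x - m) (x - m) := by
    intro x hx hxm
    have h3 := hdis m hmM x (hH hx) (Ne.symm hxm)
    have h4 := hRad x (hH hx)
    rw [nr_sub_swap] at h3
    rw [← nr_sq]
    have h5 : Rad m < nr (x - m) := by linarith
    nlinarith
  refine ⟨z, hz, hull_lemma (v := m) (u := u) (t := v) (a := a) (b := b) hci hmH huH hvH ha hbH
    (Ne.symm hma) (Ne.symm hmb) hcone g1 g2 hR (fun x hx hxm => (hfar x hx hxm).le) hc1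
    (hc2 a (hH ha) b (hH hbH) hagea hageb (Ne.symm hba)) hz1 ?_⟩
  intro x hx hxm
  rw [cr_dt, dt_swap, neg_ne_zero]
  have hzm : z ≠ m := by
    rintro rfl
    simp [cr] at g2
  have hzx : z ≠ x := by
    rintro rfl
    have h3 := hfar z hx hxm
    nlinarith [mul_pos hR hR, mul_nonneg hc0 (mul_pos hR hR).le]
  exact hG x (hHP x hx) m (hHP m hmH) z hz hxm (Ne.symm hzx) (Ne.symm hzm)

theorem exists_small (M : Finset Plane) (f : Plane → ℝ) (hf : ∀ v ∈ M, 0 < f v) :
    ∃ ρ : ℝ, 0 < ρ ∧ ∀ v ∈ M, ρ < f v := by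
  classical
  induction M using Finset.induction_on with
  | empty => exact ⟨1, one_pos, by simp⟩
  | @insert v M hv ih =>
    obtain ⟨ρ, h1, h2⟩ := ih (fun w hw => hf w (Finset.mem_insert_of_mem hw))
    have h3 := hf v (Finset.mem_insert_self _ _)
    refine ⟨min ρ (f v / 2), lt_min h1 (by linarith), ?_⟩
    intro w hw
    rw [Finset.mem_insert] at hw
    rcases hw with rfl | hw
    · exact (min_le_right _ _).trans_lt (by linarith)
    · exact (min_le_left _ _).trans_lt (h2 w hw)

theorem exists_new_radii (M : Finset Plane) (x : Plane) (hx : x ∉ M) (Rad : Plane → ℝ)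
    (hRad : ∀ v ∈ M, 0 < Rad v)
    (hdis : ∀ v ∈ M, ∀ w ∈ M, v ≠ w → Rad v + Rad w < nr (v - w)) :
    ∃ (Rad1 : Plane → ℝ) (v0 : Plane), (∀ v ∈ M, 0 < Rad1 v ∧ Rad1 v ≤ Rad v ∧
      Rad1 v < nr (x - v)) ∧ ∀ v ∈ M, v ≠ v0 → Rad1 v = Rad v := by
  classical
  by_cases h : ∀ v ∈ M, Rad v < nr (x - v)
  · exact ⟨Rad, x, fun v hv => ⟨hRad v hv, le_rfl, h v hv⟩, fun _ _ _ => rfl⟩
  · push Not at h
    obtain ⟨v0, hv0, hle⟩ := h
    refine ⟨Function.update Rad v0 (nr (x - v0) / 2), v0, ?_, ?_⟩
    · intro v hv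
      by_cases hvv : v = v0
      · subst hvv
        rw [Function.update_self]
        have hne : x - v ≠ 0 := by
          intro h0
          apply hx
          rw [sub_eq_zero.mp h0]; exact hv
        have := nr_pos hne
        refine ⟨by linarith, by linarith, by linarith⟩
      · rw [Function.update_of_ne hvv]
        refine ⟨hRad v hv, le_rfl, ?_⟩
        have h1 := hdis v0 hv0 v hv (Ne.symm hvv)
        have h2 : nr (v0 - v) ≤ nr (v0 - x) + nr (x - v) := by
          have := nr_add_le (v0 - x) (x - v)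
          rwa [sub_add_sub_cancel] at this
        rw [nr_sub_swap v0 x] at h2
        linarith
    · intro v _ hvv
      rw [Function.update_of_ne hvv]

theorem inv_step {M P : Finset Plane} {x : Plane} (h : Inv M P) (hx : x ∉ P)
    (hg : GP (insert x P)) : ∃ B : Finset Plane, B.card ≤ 16 ∧ Disjoint B (insert x P) ∧
      GP (insert x P ∪ B) ∧ Inv (insert x M) (insert x P ∪ B) := by
  classical
  obtain ⟨hMP, hG, age, c, Rad, hinj, hage, hc, hRad, hdis, hring⟩ := h
  have hxM : x ∉ M := fun h => hx (hMP h)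
  obtain ⟨cx, hcx0, hcx1, hcx2⟩ := exists_angle_bound M hMP hg hx
  obtain ⟨Rad1, v0, hR1, hR2⟩ := exists_new_radii M x hxM Rad hRad hdis
  obtain ⟨ρ, hρ, hρ2⟩ := exists_small M (fun v => nr (x - v) - Rad1 v)
    (fun v hv => by have := (hR1 v hv).2.2; linarith)
  -- ring of x
  obtain ⟨B1, b1, b2, b3, b4⟩ := exists_ring (insert x P) hg x
    (r2 := (1 - cx) * ρ ^ 2 / 2) (by
      have : 0 < 1 - cx := by linarith
      positivity)
  -- ring of v0
  obtain ⟨B2, d1, d2, d3, d4⟩ : ∃ B2 : Finset Plane, B2.card ≤ 8 ∧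
      Disjoint B2 (insert x P ∪ B1) ∧ GP (insert x P ∪ B1 ∪ B2) ∧
      (v0 ∈ M → RingOK v0 B2 ((1 - c v0) * Rad1 v0 ^ 2 / 2)) := by
    by_cases hv0 : v0 ∈ M
    · obtain ⟨B2, d1, d2, d3, d4⟩ := exists_ring (insert x P ∪ B1) b3 v0
        (r2 := (1 - c v0) * Rad1 v0 ^ 2 / 2) (by
          have h1 : 0 < 1 - c v0 := by linarith [(hc v0 hv0).2.1]
          have h2 := (hR1 v0 hv0).1
          positivity)
      exact ⟨B2, d1, d2, d3, fun _ => d4⟩
    · exact ⟨∅, by simp, by simp, by simpa using b3, fun h => absurd h hv0⟩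
  have hPsub : P ⊆ insert x P ∪ (B1 ∪ B2) :=
    (Finset.subset_insert _ _).trans Finset.subset_union_left
  have hneM : ∀ v ∈ M, v ≠ x := by rintro v hv rfl; exact hxM hv
  refine ⟨B1 ∪ B2, ?_, ?_, ?_, ?_, ?_, Function.update age x M.card, Function.update c x cx,
    Function.update Rad1 x ρ, ?_, ?_, ?_, ?_, ?_, ?_⟩
  · exact (Finset.card_union_le _ _).trans (by omega)
  · rw [Finset.disjoint_union_left]
    refine ⟨b2, ?_⟩
    exact Finset.disjoint_of_subset_right Finset.subset_union_left d2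
  · rw [← Finset.union_assoc]; exact d3
  · intro y hy
    rw [Finset.mem_insert] at hy
    rw [Finset.mem_union, Finset.mem_insert]
    rcases hy with rfl | hy
    · exact Or.inl (Or.inl rfl)
    · exact Or.inl (Or.inr (hMP hy))
  · rw [← Finset.union_assoc]; exact d3
  · -- injectivity
    intro v hv w hw heq
    rw [Finset.mem_coe, Finset.mem_insert] at hv hw
    rcases hv with rfl | hv <;> rcases hw with rfl | hw
    · rfl
    · rw [Function.update_self, Function.update_of_ne (hneM w hw)] at heq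
      have := hage w hw
      omega
    · rw [Function.update_self, Function.update_of_ne (hneM v hv)] at heq
      have := hage v hv
      omega
    · rw [Function.update_of_ne (hneM v hv), Function.update_of_ne (hneM w hw)] at heq
      exact hinj hv hw heq
  · intro v hv
    rw [Finset.card_insert_of_notMem hxM]
    rw [Finset.mem_insert] at hv
    rcases hv with rfl | hv
    · rw [Function.update_self]; omega
    · rw [Function.update_of_ne (hneM v hv)]
      have := hage v hv
      omega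
  · intro v hv
    rw [Finset.mem_insert] at hv
    rcases hv with rfl | hv
    · rw [Function.update_self]
      refine ⟨hcx0, hcx1, ?_⟩
      intro a ha b hb haa hbb hab
      rw [Function.update_self] at haa hbb
      rw [Finset.mem_insert] at ha hb
      rcases ha with rfl | ha
      · rw [Function.update_self] at haa; exact absurd haa (lt_irrefl _)
      · rcases hb with rfl | hb
        · rw [Function.update_self] at hbb; exact absurd hbb (lt_irrefl _)
        · exact hcx2 a ha b hb hab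
    · rw [Function.update_of_ne (hneM v hv)]
      obtain ⟨g1, g2, g3⟩ := hc v hv
      refine ⟨g1, g2, ?_⟩
      intro a ha b hb haa hbb hab
      rw [Function.update_of_ne (hneM v hv)] at haa hbb
      have hav := hage v hv
      rw [Finset.mem_insert] at ha hb
      rcases ha with rfl | ha
      · rw [Function.update_self] at haa; omega
      · rcases hb with rfl | hb
        · rw [Function.update_self] at hbb; omega
        · rw [Function.update_of_ne (hneM a ha)] at haa
          rw [Function.update_of_ne (hneM b hb)] at hbb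
          exact g3 a ha b hb haa hbb hab
  · intro v hv
    rw [Finset.mem_insert] at hv
    rcases hv with rfl | hv
    · rw [Function.update_self]; exact hρ
    · rw [Function.update_of_ne (hneM v hv)]
      exact (hR1 v hv).1
  · intro v hv w hw hvw
    rw [Finset.mem_insert] at hv hw
    rcases hv with rfl | hv <;> rcases hw with rfl | hw
    · exact absurd rfl hvw
    · rw [Function.update_self, Function.update_of_ne (hneM w hw)]
      have := hρ2 w hw
      linarith
    · rw [Function.update_self, Function.update_of_ne (hneM v hv), nr_sub_swap]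
      have := hρ2 v hv
      linarith
    · rw [Function.update_of_ne (hneM v hv), Function.update_of_ne (hneM w hw)]
      have h1 := hdis v hv w hw hvw
      have h2 := (hR1 v hv).2.1
      have h3 := (hR1 w hw).2.1
      linarith
  · intro v hv
    rw [Finset.mem_insert] at hv
    rcases hv with rfl | hv
    · rw [Function.update_self, Function.update_self]
      refine b4.mono ?_
      intro y hy
      rw [Finset.mem_union, Finset.mem_union]
      exact Or.inr (Or.inl hy)
    · rw [Function.update_of_ne (hneM v hv), Function.update_of_ne (hneM v hv)]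
      by_cases hvv : v = v0
      · subst hvv
        refine (d4 hv).mono ?_
        intro y hy
        rw [Finset.mem_union, Finset.mem_union]
        exact Or.inr (Or.inr hy)
      · rw [hR2 v hv hvv]
        exact (hring v hv).mono hPsub

end Pool.Agent.Lib.MP_7f1c6c_co
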