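import Pool.Agent.Lib.MP_7f1c6c_co.Basic

/-!
# The cone lemma
-/

namespace Pool.Agent.Lib.MP_7f1c6c_co

/-- Cross product of vectors. -/
def cr (x y : Plane) : ℝ := x.1 * y.2 - x.2 * y.1

/-- Dot product of vectors. -/
def dp (x y : Plane) : ℝ := x.1 * y.1 + x.2 * y.2

/-- Euclidean length. -/
noncomputable def nr (x : Plane) : ℝ := Real.sqrt (dp x x)

theorem dp_self_nonneg (x : Plane) : 0 ≤ dp x x := by
  simp only [dp]; nlinarith [sq_nonneg x.1, sq_nonneg x.2]

theorem nr_nonneg (x : Plane) : 0 ≤ nr x := Real.sqrt_nonneg _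

theorem nr_sq (x : Plane) : nr x ^ 2 = dp x x := Real.sq_sqrt (dp_self_nonneg x)

theorem exists_polar {p q : ℝ} (hp : 0 < p) : ∃ r φ : ℝ, 0 < r ∧ -(Real.pi / 2) < φ ∧
    φ < Real.pi / 2 ∧ p = r * Real.cos φ ∧ q = r * Real.sin φ := by
  refine ⟨p * Real.sqrt (1 + (q / p) ^ 2), Real.arctan (q / p), by positivity,
    Real.neg_pi_div_two_lt_arctan _, Real.arctan_lt_pi_div_two _, ?_, ?_⟩
  · rw [Real.cos_arctan]
    have : Real.sqrt (1 + (q / p) ^ 2) ≠ 0 := by positivity
    field_simp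
  · rw [Real.sin_arctan]
    have : Real.sqrt (1 + (q / p) ^ 2) ≠ 0 := by positivity
    field_simp

theorem cone_lemma {S : Finset Plane} {a b w : Plane} (ha : a ∈ S) (hb : b ∈ S)
    {f1 f2 : ℝ} (hf : ∀ x ∈ S, 0 < f1 * x.1 + f2 * x.2) (hfw : 0 < f1 * w.1 + f2 * w.2)
    {R c : ℝ} (hR : 0 < R) (hRS : ∀ x ∈ S, R ^ 2 ≤ dp x x) (hc : c < 1)
    (hab : |dp a b| ≤ c * (nr a * nr b)) (hw : dp w w < (1 - c) * R ^ 2 / 2)
    (hL : ∃ x ∈ S, 0 < cr x w) (hRr : ∃ y ∈ S, 0 < cr w y) (hpar : ∀ x ∈ S, cr x w ≠ 0) :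
    ∃ x ∈ S, ∃ y ∈ S, 0 < cr x y ∧ 0 < cr x w ∧ 0 < cr w y ∧ cr x w + cr w y < cr x y := by
  classical
  have hF : 0 < f1 ^ 2 + f2 ^ 2 := by
    by_contra hcon
    have h1 : f1 = 0 := by nlinarith [sq_nonneg f1, sq_nonneg f2]
    have h2 : f2 = 0 := by nlinarith [sq_nonneg f1, sq_nonneg f2]
    rw [h1, h2] at hfw
    simp at hfw
  set F := f1 ^ 2 + f2 ^ 2 with hFdef
  have hpol : ∀ x : Plane, 0 < f1 * x.1 + f2 * x.2 → ∃ r φ : ℝ, 0 < r ∧ -(Real.pi / 2) < φ ∧
      φ < Real.pi / 2 ∧ f1 * x.1 + f2 * x.2 = r * Real.cos φ ∧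
      f1 * x.2 - f2 * x.1 = r * Real.sin φ := fun x hx => exists_polar hx
  choose! r φ hr hφ1 hφ2 hcos hsin using hpol
  have hcr : ∀ x y : Plane, 0 < f1 * x.1 + f2 * x.2 → 0 < f1 * y.1 + f2 * y.2 →
      cr x y * F = r x * r y * Real.sin (φ y - φ x) := by
    intro x y hx hy
    rw [Real.sin_sub]
    have e : cr x y * F = (f1 * x.1 + f2 * x.2) * (f1 * y.2 - f2 * y.1) -
        (f1 * x.2 - f2 * x.1) * (f1 * y.1 + f2 * y.2) := by
      simp only [cr, hFdef]; ring
    rw [e, hcos x hx, hcos y hy, hsin x hx, hsin y hy]; ring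
  have hdp : ∀ x y : Plane, 0 < f1 * x.1 + f2 * x.2 → 0 < f1 * y.1 + f2 * y.2 →
      dp x y * F = r x * r y * Real.cos (φ y - φ x) := by
    intro x y hx hy
    rw [Real.cos_sub]
    have e : dp x y * F = (f1 * x.1 + f2 * x.2) * (f1 * y.1 + f2 * y.2) +
        (f1 * x.2 - f2 * x.1) * (f1 * y.2 - f2 * y.1) := by
      simp only [dp, hFdef]; ring
    rw [e, hcos x hx, hcos y hy, hsin x hx, hsin y hy]; ring
  have hnr : ∀ x y : Plane, 0 < f1 * x.1 + f2 * x.2 → 0 < f1 * y.1 + f2 * y.2 →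
      nr x * nr y * F = r x * r y := by
    intro x y hx hy
    have e1 := hdp x x hx hx
    have e2 := hdp y y hy hy
    rw [sub_self, Real.cos_zero, mul_one] at e1 e2
    have hsF : Real.sqrt F ^ 2 = F := Real.sq_sqrt hF.le
    have e3 : nr x * Real.sqrt F = r x := by
      have h1 : (nr x * Real.sqrt F) ^ 2 = r x ^ 2 := by
        rw [mul_pow, nr_sq, hsF, e1]; ring
      have h2 : 0 ≤ nr x * Real.sqrt F := mul_nonneg (nr_nonneg _) (Real.sqrt_nonneg _)
      exact (pow_left_inj₀ h2 (hr x hx).le (by norm_num)).mp h1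
    have e4 : nr y * Real.sqrt F = r y := by
      have h1 : (nr y * Real.sqrt F) ^ 2 = r y ^ 2 := by
        rw [mul_pow, nr_sq, hsF, e2]; ring
      have h2 : 0 ≤ nr y * Real.sqrt F := mul_nonneg (nr_nonneg _) (Real.sqrt_nonneg _)
      exact (pow_left_inj₀ h2 (hr y hy).le (by norm_num)).mp h1
    calc nr x * nr y * F = nr x * nr y * (Real.sqrt F ^ 2) := by rw [hsF]
      _ = (nr x * Real.sqrt F) * (nr y * Real.sqrt F) := by ring
      _ = r x * r y := by rw [e3, e4]
  -- order by angle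
  have hcr_pos : ∀ x y : Plane, 0 < f1 * x.1 + f2 * x.2 → 0 < f1 * y.1 + f2 * y.2 →
      (0 < cr x y ↔ φ x < φ y) := by
    intro x y hx hy
    have e := hcr x y hx hy
    have h1 := hφ1 x hx
    have h2 := hφ2 x hx
    have h3 := hφ1 y hy
    have h4 := hφ2 y hy
    have hrr := mul_pos (hr x hx) (hr y hy)
    constructor
    · intro h
      by_contra hcon
      push Not at hcon
      have : Real.sin (φ y - φ x) ≤ 0 :=
        Real.sin_nonpos_of_nonpos_of_neg_pi_le (by linarith) (by linarith)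
      have h5 : 0 < cr x y * F := mul_pos h hF
      rw [e] at h5
      nlinarith
    · intro h
      have : 0 < Real.sin (φ y - φ x) :=
        Real.sin_pos_of_pos_of_lt_pi (by linarith) (by linarith)
      have h5 : 0 < cr x y * F := by rw [e]; exact mul_pos hrr this
      by_contra hcon
      push Not at hcon
      nlinarith
  -- neighbours of w
  obtain ⟨x0, hx0, hx0w⟩ := hL
  obtain ⟨y0, hy0, hy0w⟩ := hRr
  obtain ⟨x, hxS, hxmax⟩ := Finset.exists_max_image (S.filter (fun x => 0 < cr x w)) φ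
    ⟨x0, Finset.mem_filter.mpr ⟨hx0, hx0w⟩⟩
  obtain ⟨y, hyS, hymin⟩ := Finset.exists_min_image (S.filter (fun y => 0 < cr w y)) φ
    ⟨y0, Finset.mem_filter.mpr ⟨hy0, hy0w⟩⟩
  rw [Finset.mem_filter] at hxS hyS
  have hx := hf x hxS.1
  have hy := hf y hyS.1
  have hxw : φ x < φ w := (hcr_pos x w hx hfw).mp hxS.2
  have hwy : φ w < φ y := (hcr_pos w y hfw hy).mp hyS.2
  have hxy : 0 < cr x y := (hcr_pos x y hx hy).mpr (hxw.trans hwy)
  have hpos : ∀ u ∈ S, φ u ≤ φ x ∨ φ y ≤ φ u := by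
    intro u hu
    rcases lt_or_gt_of_ne (hpar u hu) with h | h
    · right
      apply hymin
      rw [Finset.mem_filter]
      refine ⟨hu, ?_⟩
      have : cr w u = - cr u w := by simp only [cr]; ring
      rw [this]; linarith
    · left
      apply hxmax
      rw [Finset.mem_filter]
      exact ⟨hu, h⟩
  -- lower bound for the angle
  have hcosab : |Real.cos (φ b - φ a)| ≤ c := by
    have hfa := hf a ha
    have hfb := hf b hb
    have e1 := hdp a b hfa hfb
    have e2 := hnr a b hfa hfb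
    have hrr := mul_pos (hr a hfa) (hr b hfb)
    have h1 : |dp a b| * F ≤ c * (r a * r b) := by
      rw [← e2]
      calc |dp a b| * F ≤ c * (nr a * nr b) * F := mul_le_mul_of_nonneg_right hab hF.le
        _ = c * (nr a * nr b * F) := by ring
    have h2 : |dp a b| * F = (r a * r b) * |Real.cos (φ b - φ a)| := by
      calc |dp a b| * F = |dp a b| * |F| := by rw [abs_of_pos hF]
        _ = |dp a b * F| := (abs_mul _ _).symm
        _ = |r a * r b * Real.cos (φ b - φ a)| := by rw [e1]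
        _ = (r a * r b) * |Real.cos (φ b - φ a)| := by rw [abs_mul, abs_of_pos hrr]
    rw [h2] at h1
    by_contra hcon
    push Not at hcon
    nlinarith
  have hcosxy : -c ≤ Real.cos (φ y - φ x) := by
    have hfa := hf a ha
    have hfb := hf b hb
    have a1 := hφ1 a hfa
    have a2 := hφ2 a hfa
    have b1 := hφ1 b hfb
    have b2 := hφ2 b hfb
    have x1 := hφ1 x hx
    have x2 := hφ2 x hx
    have y1 := hφ1 y hy
    have y2 := hφ2 y hy
    have hle : φ x ≤ φ y := (hxw.trans hwy).le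
    have habs := abs_le.mp hcosab
    -- same side
    have same : ∀ D : ℝ, 0 ≤ D → (Real.cos D = Real.cos (φ b - φ a)) →
        φ y - φ x ≤ Real.pi - D → -c ≤ Real.cos (φ y - φ x) := by
      intro D hD hcosD hle'
      have h1 : Real.cos (Real.pi - D) ≤ Real.cos (φ y - φ x) :=
        Real.cos_le_cos_of_nonneg_of_le_pi (by linarith) (by linarith) hle'
      rw [Real.cos_pi_sub, hcosD] at h1
      linarith [habs.2]
    have opp : ∀ D : ℝ, D ≤ Real.pi → (Real.cos D = Real.cos (φ b - φ a)) →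
        φ y - φ x ≤ D → -c ≤ Real.cos (φ y - φ x) := by
      intro D hD hcosD hle'
      have h1 : Real.cos D ≤ Real.cos (φ y - φ x) :=
        Real.cos_le_cos_of_nonneg_of_le_pi (by linarith) hD hle'
      rw [hcosD] at h1
      linarith [habs.1]
    have hsymm : Real.cos (φ a - φ b) = Real.cos (φ b - φ a) := by
      rw [← Real.cos_neg]; congr 1; ring
    rcases hpos a ha with ha' | ha' <;> rcases hpos b hb with hb' | hb'
    · rcases le_total (φ a) (φ b) with h | h
      · exact same (φ b - φ a) (by linarith) rfl (by linarith)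
      · exact same (φ a - φ b) (by linarith) hsymm (by linarith)
    · exact opp (φ b - φ a) (by linarith) rfl (by linarith)
    · exact opp (φ a - φ b) (by linarith) hsymm (by linarith)
    · rcases le_total (φ a) (φ b) with h | h
      · exact same (φ b - φ a) (by linarith) rfl (by linarith)
      · exact same (φ a - φ b) (by linarith) hsymm (by linarith)
  -- hence a lower bound for the dot product
  have hdpxy : - c * (nr x * nr y) ≤ dp x y := by
    have e1 := hdp x y hx hy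
    have e2 := hnr x y hx hy
    have hrr := mul_pos (hr x hx) (hr y hy)
    have h1 : (- c * (nr x * nr y)) * F ≤ dp x y * F := by
      rw [e1]
      calc (- c * (nr x * nr y)) * F = (r x * r y) * (-c) := by rw [← e2]; ring
        _ ≤ (r x * r y) * Real.cos (φ y - φ x) := mul_le_mul_of_nonneg_left hcosxy hrr.le
    exact le_of_mul_le_mul_right h1 hF
  refine ⟨x, hxS.1, y, hyS.1, hxy, hxS.2, hyS.2, ?_⟩
  -- final estimate
  have hc0 : 0 ≤ c := (abs_nonneg _).trans hcosab
  have hRx := hRS x hxS.1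
  have hRy := hRS y hyS.1
  set α := cr w y with hα
  set β := cr x w with hβ
  set D := cr x y with hD
  have hα0 : 0 < α := hyS.2
  have hβ0 : 0 < β := hxS.2
  have id1 : dp w w * D ^ 2 = α ^ 2 * dp x x + β ^ 2 * dp y y + 2 * α * β * dp x y := by
    simp only [hα, hβ, hD, dp, cr]; ring
  have hxx := nr_sq x
  have hyy := nr_sq y
  have h1 : (1 - c) * (α ^ 2 * dp x x + β ^ 2 * dp y y) ≤ dp w w * D ^ 2 := by
    rw [id1]
    have h2 : 2 * α * β * (- c * (nr x * nr y)) ≤ 2 * α * β * dp x y :=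
      mul_le_mul_of_nonneg_left hdpxy (by positivity)
    have h3 : 2 * (α * nr x) * (β * nr y) ≤ (α * nr x) ^ 2 + (β * nr y) ^ 2 := by
      nlinarith [sq_nonneg (α * nr x - β * nr y)]
    have h4 : c * (2 * (α * nr x) * (β * nr y)) ≤ c * ((α * nr x) ^ 2 + (β * nr y) ^ 2) :=
      mul_le_mul_of_nonneg_left h3 hc0
    rw [mul_pow, mul_pow, hxx, hyy] at h4
    nlinarith
  have h5 : (1 - c) * (R ^ 2 * (α ^ 2 + β ^ 2)) ≤ dp w w * D ^ 2 := by
    refine le_trans (mul_le_mul_of_nonneg_left ?_ (by linarith)) h1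
    nlinarith [mul_le_mul_of_nonneg_left hRx (sq_nonneg α),
      mul_le_mul_of_nonneg_left hRy (sq_nonneg β)]
  have h6 : dp w w * D ^ 2 < (1 - c) * R ^ 2 / 2 * D ^ 2 :=
    mul_lt_mul_of_pos_right hw (by positivity)
  have h7 : (α + β) ^ 2 ≤ 2 * (α ^ 2 + β ^ 2) := by nlinarith [sq_nonneg (α - β)]
  have hk : 0 < (1 - c) * R ^ 2 := mul_pos (by linarith) (by positivity)
  have h8 : (1 - c) * R ^ 2 * (α + β) ^ 2 < (1 - c) * R ^ 2 * D ^ 2 := by
    have := mul_le_mul_of_nonneg_left h7 hk.le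
    nlinarith
  have h9 : (α + β) ^ 2 < D ^ 2 := lt_of_mul_lt_mul_left h8 hk.le
  have h10 : α + β < D := lt_of_pow_lt_pow_left₀ 2 hxy.le h9
  linarith

end Pool.Agent.Lib.MP_7f1c6c_co
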