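import Pool.Agent.Lib.MP_7f1c6c_co.Gadget

/-!
# The conic: existence of configurations
-/

namespace Pool.Agent.Lib.MP_7f1c6c_co

/-- Determinant of three rows. -/
def det3 (x1 y1 w1 x2 y2 w2 x3 y3 w3 : ℝ) : ℝ :=
  x1 * (y2 * w3 - y3 * w2) - y1 * (x2 * w3 - x3 * w2) + w1 * (x2 * y3 - x3 * y2)

/-- Three lines through `v1 a1`, `v2 a2`, `v3 a3`. -/
def D3 (v1 a1 v2 a2 v3 a3 : Plane) : ℝ :=
  det3 (v1.2 - a1.2) (a1.1 - v1.1) (v1.1 * a1.2 - v1.2 * a1.1)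
    (v2.2 - a2.2) (a2.1 - v2.1) (v2.1 * a2.2 - v2.2 * a2.1)
    (v3.2 - a3.2) (a3.1 - v3.1) (v3.1 * a3.2 - v3.2 * a3.1)

theorem D3_eq_zero {v1 a1 v2 a2 v3 a3 z : Plane} (h1 : dt v1 a1 z = 0) (h2 : dt v2 a2 z = 0)
    (h3 : dt v3 a3 z = 0) : D3 v1 a1 v2 a2 v3 a3 = 0 := by
  simp only [dt] at h1 h2 h3
  simp only [D3, det3]
  linear_combination
    ((v2.2 - a2.2) * (a3.1 - v3.1) - (v3.2 - a3.2) * (a2.1 - v2.1)) * h1 +
    ((v3.2 - a3.2) * (a1.1 - v1.1) - (v1.2 - a1.2) * (a3.1 - v3.1)) * h2 +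
    ((v1.2 - a1.2) * (a2.1 - v2.1) - (v2.2 - a2.2) * (a1.1 - v1.1)) * h3

theorem exists_interp {i1 i2 i3 : ℝ} (h12 : i1 ≠ i2) (h13 : i1 ≠ i3) (h23 : i2 ≠ i3)
    (z1 z2 z3 : ℝ) : ∃ C D E : ℝ, z1 = C + D * i1 + E * i1 ^ 2 ∧ z2 = C + D * i2 + E * i2 ^ 2 ∧
      z3 = C + D * i3 + E * i3 ^ 2 := by
  have g12 : i2 - i1 ≠ 0 := sub_ne_zero.mpr h12.symm
  have g13 : i3 - i1 ≠ 0 := sub_ne_zero.mpr h13.symm
  have g23 : i3 - i2 ≠ 0 := sub_ne_zero.mpr h23.symm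
  set E : ℝ := ((z3 - z1) / (i3 - i1) - (z2 - z1) / (i2 - i1)) / (i3 - i2) with hE
  set D : ℝ := (z2 - z1) / (i2 - i1) - E * (i1 + i2) with hD
  refine ⟨z1 - D * i1 - E * i1 ^ 2, D, E, by ring, ?_, ?_⟩
  · have : z2 - z1 = (D + E * (i1 + i2)) * (i2 - i1) := by
      rw [hD]; field_simp; ring
    linear_combination this
  · have e1 : (z3 - z1) / (i3 - i1) = E * (i3 - i2) + (z2 - z1) / (i2 - i1) := by
      rw [hE]; field_simp; ring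
    have e2 : z3 - z1 = (E * (i3 - i2) + (D + E * (i1 + i2))) * (i3 - i1) := by
      have : (z2 - z1) / (i2 - i1) = D + E * (i1 + i2) := by rw [hD]; ring
      rw [← this, ← e1]; field_simp
    linear_combination e2

/-- The coefficients of the concurrency polynomial. -/
def cc2 (i1 i2 i3 u r1 r2 r3 : ℝ) : ℝ :=
  det3 (u + i1) r1 1 (u + i2) r2 1 (u + i3) r3 1

def cc1 (i1 i2 i3 u r1 r2 r3 z1 z2 z3 : ℝ) : ℝ :=
  det3 (u + i1) (r1 * (u + i1) ^ 2 - z1 * (u + i1)) 1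
    (u + i2) (r2 * (u + i2) ^ 2 - z2 * (u + i2)) 1
    (u + i3) (r3 * (u + i3) ^ 2 - z3 * (u + i3)) 1 +
  det3 (u + i1) r1 ((u + i1) ^ 2) (u + i2) r2 ((u + i2) ^ 2) (u + i3) r3 ((u + i3) ^ 2)

def cc0 (i1 i2 i3 u r1 r2 r3 z1 z2 z3 : ℝ) : ℝ :=
  det3 (u + i1) (r1 * (u + i1) ^ 2 - z1 * (u + i1)) ((u + i1) ^ 2)
    (u + i2) (r2 * (u + i2) ^ 2 - z2 * (u + i2)) ((u + i2) ^ 2)
    (u + i3) (r3 * (u + i3) ^ 2 - z3 * (u + i3)) ((u + i3) ^ 2)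

theorem coeffs_zero {i1 i2 i3 u u' r1 r2 r3 z1 z2 z3 : ℝ} (h12 : i1 ≠ i2) (h13 : i1 ≠ i3)
    (h23 : i2 ≠ i3) (huu : u ≠ u') (hU1 : u + i1 ≠ 0) (hU2 : u + i2 ≠ 0) (hU3 : u + i3 ≠ 0)
    (h2 : cc2 i1 i2 i3 u r1 r2 r3 = 0) (h1 : cc1 i1 i2 i3 u r1 r2 r3 z1 z2 z3 = 0)
    (h0 : cc0 i1 i2 i3 u r1 r2 r3 z1 z2 z3 = 0)
    (h1' : cc1 i1 i2 i3 u' r1 r2 r3 z1 z2 z3 = 0) :
    r1 = r2 ∧ r1 = r3 ∧ z1 = z2 ∧ z1 = z3 := by
  have g12 : i2 - i1 ≠ 0 := sub_ne_zero.mpr h12.symm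
  have g13 : i3 - i1 ≠ 0 := sub_ne_zero.mpr h13.symm
  have g23 : i3 - i2 ≠ 0 := sub_ne_zero.mpr h23.symm
  have hV : (i2 - i1) * (i3 - i1) * (i3 - i2) ≠ 0 := mul_ne_zero (mul_ne_zero g12 g13) g23
  obtain ⟨A, B, F, e1, e2, e3⟩ := exists_interp h12 h13 h23 r1 r2 r3
  obtain ⟨C, D, E, f1, f2, f3⟩ := exists_interp h12 h13 h23 z1 z2 z3
  subst e1 e2 e3 f1 f2 f3
  have hF : F = 0 := by
    have e : cc2 i1 i2 i3 u (A + B * i1 + F * i1 ^ 2) (A + B * i2 + F * i2 ^ 2)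
        (A + B * i3 + F * i3 ^ 2) = F * ((i2 - i1) * (i3 - i1) * (i3 - i2)) := by
      simp only [cc2, det3]; ring
    rw [e] at h2
    exact (mul_eq_zero.mp h2).resolve_right hV
  subst hF
  have hE : E = B := by
    have e : cc0 i1 i2 i3 u (A + B * i1 + 0 * i1 ^ 2) (A + B * i2 + 0 * i2 ^ 2)
        (A + B * i3 + 0 * i3 ^ 2) (C + D * i1 + E * i1 ^ 2) (C + D * i2 + E * i2 ^ 2)
        (C + D * i3 + E * i3 ^ 2) =
        (E - B) * (((u + i1) * (u + i2) * (u + i3)) * ((i2 - i1) * (i3 - i1) * (i3 - i2))) := by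
      simp only [cc0, det3]; ring
    rw [e] at h0
    have hne : ((u + i1) * (u + i2) * (u + i3)) * ((i2 - i1) * (i3 - i1) * (i3 - i2)) ≠ 0 :=
      mul_ne_zero (mul_ne_zero (mul_ne_zero hU1 hU2) hU3) hV
    have := (mul_eq_zero.mp h0).resolve_right hne
    linarith
  subst hE
  have hD : ∀ w, cc1 i1 i2 i3 w (A + E * i1 + 0 * i1 ^ 2) (A + E * i2 + 0 * i2 ^ 2)
        (A + E * i3 + 0 * i3 ^ 2) (C + D * i1 + E * i1 ^ 2) (C + D * i2 + E * i2 ^ 2)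
        (C + D * i3 + E * i3 ^ 2) =
        (2 * E * w - D) * ((i2 - i1) * (i3 - i1) * (i3 - i2)) := by
    intro w
    simp only [cc1, det3]; ring
  rw [hD] at h1 h1'
  have k1 := (mul_eq_zero.mp h1).resolve_right hV
  have k2 := (mul_eq_zero.mp h1').resolve_right hV
  have k3 : E * (u - u') = 0 := by linarith
  have k4 : E = 0 := (mul_eq_zero.mp k3).resolve_right (sub_ne_zero.mpr huu)
  subst k4
  have k5 : D = 0 := by linarith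
  subst k5
  refine ⟨by ring, by ring, by ring, by ring⟩

theorem det3_scale (e1 e2 e3 x1 y1 w1 x2 y2 w2 x3 y3 w3 : ℝ) :
    det3 (e1 * x1) (e1 * y1) (e1 * w1) (e2 * x2) (e2 * y2) (e2 * w2) (e3 * x3) (e3 * y3)
      (e3 * w3) = e1 * e2 * e3 * det3 x1 y1 w1 x2 y2 w2 x3 y3 w3 := by
  simp only [det3]; ring

theorem D3_flat {i1 i2 i3 u κ : ℝ} {v1 v2 v3 : Plane} (hU1 : u + i1 ≠ 0) (hU2 : u + i2 ≠ 0)
    (hU3 : u + i3 ≠ 0) (hv1 : v1.2 ≠ 0) (hv2 : v2.2 ≠ 0) (hv3 : v3.2 ≠ 0) :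
    D3 v1 ((u + i1) + κ / (u + i1), 0) v2 ((u + i2) + κ / (u + i2), 0)
      v3 ((u + i3) + κ / (u + i3), 0) * ((u + i1) * (u + i2) * (u + i3)) =
    - (v1.2 * v2.2 * v3.2) *
      (cc2 i1 i2 i3 u v1.2⁻¹ v2.2⁻¹ v3.2⁻¹ * κ ^ 2 +
        cc1 i1 i2 i3 u v1.2⁻¹ v2.2⁻¹ v3.2⁻¹ (v1.1 * v1.2⁻¹) (v2.1 * v2.2⁻¹) (v3.1 * v3.2⁻¹) * κ +
        cc0 i1 i2 i3 u v1.2⁻¹ v2.2⁻¹ v3.2⁻¹ (v1.1 * v1.2⁻¹) (v2.1 * v2.2⁻¹) (v3.1 * v3.2⁻¹)) := by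
  have row : ∀ (i : ℝ) (v : Plane), u + i ≠ 0 → v.2 ≠ 0 →
      (u + i) * (v.2 - 0) = v.2 * (u + i) ∧
      (u + i) * (((u + i) + κ / (u + i)) - v.1) =
        v.2 * (v.2⁻¹ * (u + i) ^ 2 - (v.1 * v.2⁻¹) * (u + i) + v.2⁻¹ * κ) ∧
      (u + i) * (v.1 * 0 - v.2 * ((u + i) + κ / (u + i))) =
        v.2 * (-((u + i) ^ 2 + κ)) := by
    intro i v h1 h2
    refine ⟨by ring, ?_, ?_⟩
    · field_simp; ring
    · field_simp; ring
  obtain ⟨a1, b1, c1⟩ := row i1 v1 hU1 hv1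
  obtain ⟨a2, b2, c2⟩ := row i2 v2 hU2 hv2
  obtain ⟨a3, b3, c3⟩ := row i3 v3 hU3 hv3
  have e := det3_scale (u + i1) (u + i2) (u + i3) (v1.2 - 0)
    (((u + i1) + κ / (u + i1)) - v1.1) (v1.1 * 0 - v1.2 * ((u + i1) + κ / (u + i1)))
    (v2.2 - 0) (((u + i2) + κ / (u + i2)) - v2.1)
    (v2.1 * 0 - v2.2 * ((u + i2) + κ / (u + i2))) (v3.2 - 0)
    (((u + i3) + κ / (u + i3)) - v3.1) (v3.1 * 0 - v3.2 * ((u + i3) + κ / (u + i3)))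
  rw [a1, b1, c1, a2, b2, c2, a3, b3, c3, det3_scale] at e
  simp only [D3]
  rw [mul_comm, ← e]
  simp only [cc2, cc1, cc0, det3]
  ring

theorem eventually_ne {f : ℝ → ℝ} (hf : Continuous f) (h0 : f 0 ≠ 0) :
    ∀ᶠ t in nhdsWithin (0 : ℝ) (Set.Ioi 0), f t ≠ 0 :=
  (hf.continuousAt.eventually (isOpen_ne.mem_nhds h0)).filter_mono nhdsWithin_le_nhds

/-- All three coefficients vanish. -/
def BadT (u : ℝ) (i1 i2 i3 : ℕ) (v1 v2 v3 : Plane) : Prop :=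
  cc2 i1 i2 i3 u v1.2⁻¹ v2.2⁻¹ v3.2⁻¹ = 0 ∧
  cc1 i1 i2 i3 u v1.2⁻¹ v2.2⁻¹ v3.2⁻¹ (v1.1 * v1.2⁻¹) (v2.1 * v2.2⁻¹) (v3.1 * v3.2⁻¹) = 0 ∧
  cc0 i1 i2 i3 u v1.2⁻¹ v2.2⁻¹ v3.2⁻¹ (v1.1 * v1.2⁻¹) (v2.1 * v2.2⁻¹) (v3.1 * v3.2⁻¹) = 0

theorem badT_unique {K : ℕ} {i1 i2 i3 : ℕ} {v1 v2 v3 : Plane} (h12 : i1 ≠ i2) (h13 : i1 ≠ i3)
    (h23 : i2 ≠ i3) (hv1 : v1.2 ≠ 0)
    (hne : ¬ (v1 = v2 ∧ v1 = v3)) (hK : 1 ≤ K) {θ θ' : ℝ}
    (h2 : θ < 1) (h3 : BadT ((K : ℝ) - θ) i1 i2 i3 v1 v2 v3)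
    (h3' : BadT ((K : ℝ) - θ') i1 i2 i3 v1 v2 v3) : θ = θ' := by
  by_contra hcon
  have hK' : (1 : ℝ) ≤ K := by exact_mod_cast hK
  have hpos : ∀ i : ℕ, ((K : ℝ) - θ) + i ≠ 0 := by
    intro i
    have : (0 : ℝ) ≤ i := Nat.cast_nonneg i
    have : 0 < ((K : ℝ) - θ) + i := by linarith
    exact this.ne'
  obtain ⟨k1, k2, k3, k4⟩ := coeffs_zero (i1 := (i1 : ℝ)) (i2 := i2) (i3 := i3)
    (u := (K : ℝ) - θ) (u' := (K : ℝ) - θ') (by exact_mod_cast h12) (by exact_mod_cast h13)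
    (by exact_mod_cast h23) (by intro h; apply hcon; linarith) (hpos i1) (hpos i2) (hpos i3)
    h3.1 h3.2.1 h3.2.2 h3'.2.1
  have e12 : v1.2 = v2.2 := inv_injective k1
  have e13 : v1.2 = v3.2 := inv_injective k2
  rw [← e12] at k3
  rw [← e13] at k4
  have hi : v1.2⁻¹ ≠ 0 := inv_ne_zero hv1
  exact hne ⟨Prod.ext (mul_right_cancel₀ hi k3) e12, Prod.ext (mul_right_cancel₀ hi k4) e13⟩

theorem exists_theta (K R : ℕ) (hK : 1 ≤ K) (V : Finset Plane) :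
    ∃ θ : ℝ, 0 < θ ∧ θ < 1 ∧ ∀ i1 < R, ∀ i2 < R, ∀ i3 < R, i1 ≠ i2 → i1 ≠ i3 → i2 ≠ i3 →
      ∀ v1 ∈ V, ∀ v2 ∈ V, ∀ v3 ∈ V, v1.2 ≠ 0 → v2.2 ≠ 0 → v3.2 ≠ 0 → ¬ (v1 = v2 ∧ v1 = v3) →
      ¬ BadT ((K : ℝ) - θ) i1 i2 i3 v1 v2 v3 := by
  set S : Set ℝ := ⋃ i1 ∈ Finset.range R, ⋃ i2 ∈ Finset.range R, ⋃ i3 ∈ Finset.range R,
    ⋃ v1 ∈ V, ⋃ v2 ∈ V, ⋃ v3 ∈ V, {θ : ℝ | (i1 ≠ i2 ∧ i1 ≠ i3 ∧ i2 ≠ i3 ∧ v1.2 ≠ 0 ∧
      v2.2 ≠ 0 ∧ v3.2 ≠ 0 ∧ ¬ (v1 = v2 ∧ v1 = v3)) ∧ 0 < θ ∧ θ < 1 ∧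
      BadT ((K : ℝ) - θ) i1 i2 i3 v1 v2 v3} with hS
  have hSfin : S.Finite := by
    refine Set.Finite.biUnion (Finset.finite_toSet _) fun i1 _ => ?_
    refine Set.Finite.biUnion (Finset.finite_toSet _) fun i2 _ => ?_
    refine Set.Finite.biUnion (Finset.finite_toSet _) fun i3 _ => ?_
    refine Set.Finite.biUnion (Finset.finite_toSet _) fun v1 _ => ?_
    refine Set.Finite.biUnion (Finset.finite_toSet _) fun v2 _ => ?_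
    refine Set.Finite.biUnion (Finset.finite_toSet _) fun v3 _ => ?_
    apply Set.Subsingleton.finite
    rintro θ ⟨⟨a1, a2, a3, a4, a5, a6, a7⟩, b1, b2, b3⟩ θ' ⟨-, -, -, b3'⟩
    exact badT_unique a1 a2 a3 a4 a7 hK b2 b3 b3'
  obtain ⟨θ, h1, h2, h3⟩ := exists_Ioo_notMem hSfin (zero_lt_one (α := ℝ))
  refine ⟨θ, h1, h2, ?_⟩
  intro i1 hi1 i2 hi2 i3 hi3 h12 h13 h23 v1 hv1 v2 hv2 v3 hv3 n1 n2 n3 hne hbad
  apply h3
  refine Set.mem_biUnion (Finset.mem_coe.mpr (Finset.mem_range.mpr hi1)) ?_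
  refine Set.mem_biUnion (Finset.mem_coe.mpr (Finset.mem_range.mpr hi2)) ?_
  refine Set.mem_biUnion (Finset.mem_coe.mpr (Finset.mem_range.mpr hi3)) ?_
  refine Set.mem_biUnion (Finset.mem_coe.mpr hv1) ?_
  refine Set.mem_biUnion (Finset.mem_coe.mpr hv2) ?_
  refine Set.mem_biUnion (Finset.mem_coe.mpr hv3) ?_
  exact ⟨⟨h12, h13, h23, n1, n2, n3, hne⟩, h1, h2, hbad⟩

theorem u_pos {K : ℕ} (hK : 1 ≤ K) {θ : ℝ} (h2 : θ < 1) (i : ℕ) : 0 < ((K : ℝ) - θ) + i := by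
  have hK' : (1 : ℝ) ≤ K := by exact_mod_cast hK
  have : (0 : ℝ) ≤ i := Nat.cast_nonneg i
  linarith

theorem exists_kappa (K R N : ℕ) (hK : 1 ≤ K) (V : Finset Plane) {θ : ℝ}
    (h2 : θ < 1)
    (hθ : ∀ i1 < R, ∀ i2 < R, ∀ i3 < R, i1 ≠ i2 → i1 ≠ i3 → i2 ≠ i3 →
      ∀ v1 ∈ V, ∀ v2 ∈ V, ∀ v3 ∈ V, v1.2 ≠ 0 → v2.2 ≠ 0 → v3.2 ≠ 0 → ¬ (v1 = v2 ∧ v1 = v3) →
      ¬ BadT ((K : ℝ) - θ) i1 i2 i3 v1 v2 v3) :
    ∃ κ : ℝ, (∀ i1 < R, ∀ i2 < R, ∀ i3 < R, i1 ≠ i2 → i1 ≠ i3 → i2 ≠ i3 →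
      ∀ v1 ∈ V, ∀ v2 ∈ V, ∀ v3 ∈ V, v1.2 ≠ 0 → v2.2 ≠ 0 → v3.2 ≠ 0 → ¬ (v1 = v2 ∧ v1 = v3) →
      cc2 i1 i2 i3 ((K : ℝ) - θ) v1.2⁻¹ v2.2⁻¹ v3.2⁻¹ * κ ^ 2 +
        cc1 i1 i2 i3 ((K : ℝ) - θ) v1.2⁻¹ v2.2⁻¹ v3.2⁻¹ (v1.1 * v1.2⁻¹) (v2.1 * v2.2⁻¹)
          (v3.1 * v3.2⁻¹) * κ +
        cc0 i1 i2 i3 ((K : ℝ) - θ) v1.2⁻¹ v2.2⁻¹ v3.2⁻¹ (v1.1 * v1.2⁻¹) (v2.1 * v2.2⁻¹)
          (v3.1 * v3.2⁻¹) ≠ 0) ∧
      (∀ i < R, ∀ j < N, κ ≠ (((K : ℝ) - θ) + i) * (θ + j)) ∧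
      ∀ i < R, ∀ v ∈ V, ∀ v' ∈ V, v ≠ v' → (v.2 ≠ 0 ∨ v'.2 ≠ 0) →
        dt v v' ((((K : ℝ) - θ) + i) + κ / (((K : ℝ) - θ) + i), 0) ≠ 0 := by
  set S1 : Set ℝ := ⋃ i1 ∈ Finset.range R, ⋃ i2 ∈ Finset.range R, ⋃ i3 ∈ Finset.range R,
    ⋃ v1 ∈ V, ⋃ v2 ∈ V, ⋃ v3 ∈ V, {κ : ℝ | (i1 ≠ i2 ∧ i1 ≠ i3 ∧ i2 ≠ i3 ∧ v1.2 ≠ 0 ∧
      v2.2 ≠ 0 ∧ v3.2 ≠ 0 ∧ ¬ (v1 = v2 ∧ v1 = v3)) ∧
      cc2 i1 i2 i3 ((K : ℝ) - θ) v1.2⁻¹ v2.2⁻¹ v3.2⁻¹ * κ ^ 2 +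
        cc1 i1 i2 i3 ((K : ℝ) - θ) v1.2⁻¹ v2.2⁻¹ v3.2⁻¹ (v1.1 * v1.2⁻¹) (v2.1 * v2.2⁻¹)
          (v3.1 * v3.2⁻¹) * κ +
        cc0 i1 i2 i3 ((K : ℝ) - θ) v1.2⁻¹ v2.2⁻¹ v3.2⁻¹ (v1.1 * v1.2⁻¹) (v2.1 * v2.2⁻¹)
          (v3.1 * v3.2⁻¹) = 0} with hS1
  have hS1fin : S1.Finite := by
    refine Set.Finite.biUnion (Finset.finite_toSet _) fun i1 hi1 => ?_
    refine Set.Finite.biUnion (Finset.finite_toSet _) fun i2 hi2 => ?_
    refine Set.Finite.biUnion (Finset.finite_toSet _) fun i3 hi3 => ?_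
    refine Set.Finite.biUnion (Finset.finite_toSet _) fun v1 hv1 => ?_
    refine Set.Finite.biUnion (Finset.finite_toSet _) fun v2 hv2 => ?_
    refine Set.Finite.biUnion (Finset.finite_toSet _) fun v3 hv3 => ?_
    by_cases hcond : (i1 ≠ i2 ∧ i1 ≠ i3 ∧ i2 ≠ i3 ∧ v1.2 ≠ 0 ∧
      v2.2 ≠ 0 ∧ v3.2 ≠ 0 ∧ ¬ (v1 = v2 ∧ v1 = v3))
    · obtain ⟨a1, a2, a3, a4, a5, a6, a7⟩ := hcond
      have hb := hθ i1 (Finset.mem_range.mp hi1) i2 (Finset.mem_range.mp hi2) i3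
        (Finset.mem_range.mp hi3) a1 a2 a3 v1 hv1 v2 hv2 v3 hv3 a4 a5 a6 a7
      have hor : cc2 i1 i2 i3 ((K : ℝ) - θ) v1.2⁻¹ v2.2⁻¹ v3.2⁻¹ ≠ 0 ∨
          cc1 i1 i2 i3 ((K : ℝ) - θ) v1.2⁻¹ v2.2⁻¹ v3.2⁻¹ (v1.1 * v1.2⁻¹) (v2.1 * v2.2⁻¹)
          (v3.1 * v3.2⁻¹) ≠ 0 ∨
          cc0 i1 i2 i3 ((K : ℝ) - θ) v1.2⁻¹ v2.2⁻¹ v3.2⁻¹ (v1.1 * v1.2⁻¹) (v2.1 * v2.2⁻¹)
          (v3.1 * v3.2⁻¹) ≠ 0 := by
        by_contra hcon
        push Not at hcon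
        exact hb hcon
      exact (finite_quadratic hor).subset (fun t ht => ht.2)
    · refine Set.finite_empty.subset ?_
      intro t ht
      exact absurd ht.1 hcond
  set S2 : Set ℝ := ⋃ i ∈ Finset.range R, ⋃ j ∈ Finset.range N,
    {κ : ℝ | κ = (((K : ℝ) - θ) + i) * (θ + j)} with hS2
  have hS2fin : S2.Finite := by
    refine Set.Finite.biUnion (Finset.finite_toSet _) fun i _ => ?_
    refine Set.Finite.biUnion (Finset.finite_toSet _) fun j _ => ?_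
    exact Set.finite_singleton _
  set S3 : Set ℝ := ⋃ i ∈ Finset.range R, ⋃ v ∈ V, ⋃ v' ∈ V,
    {κ : ℝ | (v ≠ v' ∧ (v.2 ≠ 0 ∨ v'.2 ≠ 0)) ∧
      dt v v' ((((K : ℝ) - θ) + i) + κ / (((K : ℝ) - θ) + i), 0) = 0} with hS3
  have hS3fin : S3.Finite := by
    refine Set.Finite.biUnion (Finset.finite_toSet _) fun i _ => ?_
    refine Set.Finite.biUnion (Finset.finite_toSet _) fun v _ => ?_
    refine Set.Finite.biUnion (Finset.finite_toSet _) fun v' _ => ?_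
    by_cases hcond : (v ≠ v' ∧ (v.2 ≠ 0 ∨ v'.2 ≠ 0))
    · have hU := u_pos hK h2 i
      set U := ((K : ℝ) - θ) + i with hUdef
      have hor : (-(v'.2 - v.2)) ≠ 0 ∨
          ((v'.1 - v.1) * (- v.2) * U - (v'.2 - v.2) * (U - v.1) * U) ≠ 0 := by
        by_contra hcon
        push Not at hcon
        obtain ⟨g1, g2⟩ := hcon
        have g3 : v'.2 = v.2 := by linarith
        rw [g3] at g2
        have g4 : v.2 ≠ 0 := by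
          rcases hcond.2 with h | h
          · exact h
          · rwa [g3] at h
        have g5 : (v'.1 - v.1) * (v.2 * U) = 0 := by linarith
        have g6 : v'.1 - v.1 = 0 :=
          (mul_eq_zero.mp g5).resolve_right (mul_ne_zero g4 hU.ne')
        exact hcond.1 (Prod.ext (by linarith) g3.symm)
      refine (finite_affine hor).subset ?_
      rintro κ ⟨-, h0⟩
      simp only [Set.mem_ofPred_eq]
      simp only [dt] at h0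
      have e : (v'.1 - v.1) * (0 - v.2) - (v'.2 - v.2) * (U + κ / U - v.1) = 0 := h0
      have e2 : ((v'.1 - v.1) * (0 - v.2) - (v'.2 - v.2) * (U + κ / U - v.1)) * U = 0 := by
        rw [e]; ring
      have e3 : κ / U * U = κ := by field_simp
      linear_combination e2 + (v'.2 - v.2) * e3
    · refine Set.finite_empty.subset ?_
      intro t ht
      exact absurd ht.1 hcond
  obtain ⟨κ, -, -, hκ⟩ := exists_Ioo_notMem ((hS1fin.union hS2fin).union hS3fin)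
    (zero_lt_one (α := ℝ))
  refine ⟨κ, ?_, ?_, ?_⟩
  · intro i1 hi1 i2 hi2 i3 hi3 h12 h13 h23 v1 hv1 v2 hv2 v3 hv3 n1 n2 n3 hne h0
    apply hκ
    left; left
    refine Set.mem_biUnion (Finset.mem_coe.mpr (Finset.mem_range.mpr hi1)) ?_
    refine Set.mem_biUnion (Finset.mem_coe.mpr (Finset.mem_range.mpr hi2)) ?_
    refine Set.mem_biUnion (Finset.mem_coe.mpr (Finset.mem_range.mpr hi3)) ?_
    refine Set.mem_biUnion (Finset.mem_coe.mpr hv1) ?_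
    refine Set.mem_biUnion (Finset.mem_coe.mpr hv2) ?_
    refine Set.mem_biUnion (Finset.mem_coe.mpr hv3) ?_
    exact ⟨⟨h12, h13, h23, n1, n2, n3, hne⟩, h0⟩
  · intro i hi j hj h0
    apply hκ
    left; right
    refine Set.mem_biUnion (Finset.mem_coe.mpr (Finset.mem_range.mpr hi)) ?_
    refine Set.mem_biUnion (Finset.mem_coe.mpr (Finset.mem_range.mpr hj)) ?_
    exact h0
  · intro i hi v hv v' hv' hne hor h0
    apply hκ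
    right
    refine Set.mem_biUnion (Finset.mem_coe.mpr (Finset.mem_range.mpr hi)) ?_
    refine Set.mem_biUnion (Finset.mem_coe.mpr hv) ?_
    refine Set.mem_biUnion (Finset.mem_coe.mpr hv') ?_
    exact ⟨⟨hne, hor⟩, h0⟩

/-- The point of the conic with parameter `u`. -/
noncomputable def hp (κ μ u : ℝ) : Plane := (u + κ / u, μ / u)

theorem hp_dt {κ μ u v w : ℝ} (hu : u ≠ 0) (hv : v ≠ 0) (hw : w ≠ 0) :
    dt (hp κ μ u) (hp κ μ v) (hp κ μ w) * (u * v * w) = μ * ((v - u) * (w - u) * (w - v)) := by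
  simp only [dt, hp]
  field_simp
  ring

theorem hp_dt_ne {κ μ u v w : ℝ} (hμ : 0 < μ) (hu : 0 < u) (hv : 0 < v) (hw : 0 < w)
    (huv : u ≠ v) (huw : u ≠ w) (hvw : v ≠ w) :
    dt (hp κ μ u) (hp κ μ v) (hp κ μ w) ≠ 0 := by
  intro h
  have e := hp_dt (κ := κ) (μ := μ) hu.ne' hv.ne' hw.ne'
  rw [h, zero_mul] at e
  have : μ * ((v - u) * (w - u) * (w - v)) ≠ 0 :=
    mul_ne_zero hμ.ne' (mul_ne_zero (mul_ne_zero (sub_ne_zero.mpr huv.symm)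
      (sub_ne_zero.mpr huw.symm)) (sub_ne_zero.mpr hvw.symm))
  exact this e.symm

theorem exists_config (N R K : ℕ) (hK : N + 2 ≤ K) {V : Finset Plane} (hV : GP V)
    {c d : Plane} (hc : c ∈ V) (hd : d ∈ V) (hcd : c ≠ d) (hc2 : c.2 = 0) (hd2 : d.2 = 0)
    (hc1 : c.1 ≤ 0) (hd1 : d.1 ≤ 0) {h : ℝ} (hh : 0 < h) :
    ∃ a q : ℕ → Plane, Config N R K V a q ∧ ∀ j < N, (q j).2 < h := by
  have hK1 : 1 ≤ K := by omega
  have hKr : (N : ℝ) + 2 ≤ K := by exact_mod_cast hK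
  obtain ⟨θ, hθ1, hθ2, hθ3⟩ := exists_theta K R hK1 V
  obtain ⟨κ, hκ1, hκ2, hκ3⟩ := exists_kappa K R N hK1 V hθ2 hθ3
  have hU : ∀ i : ℕ, 0 < ((K : ℝ) - θ) + i := u_pos hK1 hθ2
  have hβ : ∀ j : ℕ, 0 < θ + j := by
    intro j
    have : (0 : ℝ) ≤ j := Nat.cast_nonneg j
    linarith
  have hlt : ∀ i : ℕ, ∀ j < N, θ + j < ((K : ℝ) - θ) + i := by
    intro i j hj
    have h1 : (0 : ℝ) ≤ i := Nat.cast_nonneg i
    have h2 : (j : ℝ) < N := by exact_mod_cast hj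
    linarith
  have hcont : ∀ u : ℝ, Continuous (fun μ : ℝ => hp κ μ u) := by
    intro u; unfold hp; fun_prop
  have hcc : ∀ p : Plane, Continuous (fun _ : ℝ => p) := fun p => continuous_const
  have hflat : ∀ u : ℝ, hp κ 0 u = (u + κ / u, 0) := by intro u; simp [hp]
  have haxis : ∀ v ∈ V, v.2 = 0 → v = c ∨ v = d := by
    intro v hv hv2
    by_contra hcon
    push Not at hcon
    exact axis_of_gp hV hc hd hcd hc2 hd2 hv hcon.1 hcon.2 hv2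
  have haxis1 : ∀ v ∈ V, v.2 = 0 → v.1 ≤ 0 := by
    intro v hv hv2
    rcases haxis v hv hv2 with rfl | rfl
    · exact hc1
    · exact hd1
  have E1 : ∀ᶠ μ in nhdsWithin (0 : ℝ) (Set.Ioi 0), ∀ i ∈ Finset.range R, True →
      ∀ v ∈ V, True → ∀ v' ∈ V, (v ≠ v' ∧ (v.2 ≠ 0 ∨ v'.2 ≠ 0)) →
      dt v v' (hp κ μ (((K : ℝ) - θ) + i)) ≠ 0 := by
    apply eventually_all_finset_imp; intro i hi _
    apply eventually_all_finset_imp; intro v hv _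
    apply eventually_all_finset_imp; rintro v' hv' ⟨h1, h2⟩
    refine eventually_ne (continuous_dt (hcc _) (hcc _) (hcont _)) ?_
    rw [hflat]
    exact hκ3 i (Finset.mem_range.mp hi) v hv v' hv' h1 h2
  have E2 : ∀ᶠ μ in nhdsWithin (0 : ℝ) (Set.Ioi 0), ∀ i ∈ Finset.range R, True →
      ∀ j ∈ Finset.range N, True → ∀ v ∈ V, v.2 ≠ 0 →
      dt (pp (K + i + j)) (hp κ μ (θ + j)) v ≠ 0 := by
    apply eventually_all_finset_imp; intro i hi _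
    apply eventually_all_finset_imp; intro j hj _
    apply eventually_all_finset_imp; intro v hv hv2
    refine eventually_ne (continuous_dt (hcc _) (hcont _) (hcc _)) ?_
    rw [hflat]
    have hb := (hβ j).ne'
    have e : dt (pp (K + i + j)) ((θ + j) + κ / (θ + j), 0) v * (θ + j) =
        (κ - (((K : ℝ) - θ) + i) * (θ + j)) * v.2 := by
      simp only [dt, pp]
      push_cast
      field_simp
      ring
    intro h0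
    rw [h0, zero_mul] at e
    have h3 := (mul_eq_zero.mp e.symm).resolve_right hv2
    exact hκ2 i (Finset.mem_range.mp hi) j (Finset.mem_range.mp hj) (by linarith)
  have E3 : ∀ᶠ μ in nhdsWithin (0 : ℝ) (Set.Ioi 0), ∀ i1 ∈ Finset.range R, True →
      ∀ i2 ∈ Finset.range R, True → ∀ i3 ∈ Finset.range R, (i1 ≠ i2 ∧ i1 ≠ i3 ∧ i2 ≠ i3) →
      ∀ v1 ∈ V, v1.2 ≠ 0 → ∀ v2 ∈ V, v2.2 ≠ 0 → ∀ v3 ∈ V, (v3.2 ≠ 0 ∧ ¬ (v1 = v2 ∧ v1 = v3)) →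
      D3 v1 (hp κ μ (((K : ℝ) - θ) + i1)) v2 (hp κ μ (((K : ℝ) - θ) + i2))
        v3 (hp κ μ (((K : ℝ) - θ) + i3)) ≠ 0 := by
    apply eventually_all_finset_imp; intro i1 hi1 _
    apply eventually_all_finset_imp; intro i2 hi2 _
    apply eventually_all_finset_imp; rintro i3 hi3 ⟨h12, h13, h23⟩
    apply eventually_all_finset_imp; intro v1 hv1 n1
    apply eventually_all_finset_imp; intro v2 hv2 n2
    apply eventually_all_finset_imp; rintro v3 hv3 ⟨n3, hne⟩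
    refine eventually_ne ?_ ?_
    · unfold D3 det3
      have h1 := hcont (((K : ℝ) - θ) + i1)
      have h2 := hcont (((K : ℝ) - θ) + i2)
      have h3 := hcont (((K : ℝ) - θ) + i3)
      fun_prop
    · rw [hflat, hflat, hflat]
      intro h0
      have e := D3_flat (κ := κ) (hU i1).ne' (hU i2).ne' (hU i3).ne' n1 n2 n3
      rw [h0, zero_mul] at e
      have hk := hκ1 i1 (Finset.mem_range.mp hi1) i2 (Finset.mem_range.mp hi2) i3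
        (Finset.mem_range.mp hi3) h12 h13 h23 v1 hv1 v2 hv2 v3 hv3 n1 n2 n3 hne
      have hn : -(v1.2 * v2.2 * v3.2) ≠ 0 :=
        neg_ne_zero.mpr (mul_ne_zero (mul_ne_zero n1 n2) n3)
      exact mul_ne_zero hn hk e.symm
  have E5 : ∀ᶠ μ in nhdsWithin (0 : ℝ) (Set.Ioi 0), ∀ j ∈ Finset.range N, True →
      0 < h - μ / (θ + j) := by
    apply eventually_all_finset_imp; intro j hj _
    exact eventually_pos (by fun_prop) (by simpa using hh)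
  obtain ⟨μ, e1, e2, e3, e5, e4⟩ :=
    (E1.and (E2.and (E3.and (E5.and eventually_mem_nhdsWithin)))).exists
  have hμ : (0 : ℝ) < μ := e4
  have hUne : ∀ i i' : ℕ, i ≠ i' → ((K : ℝ) - θ) + i ≠ ((K : ℝ) - θ) + i' := by
    intro i i' h h'
    apply h
    have : (i : ℝ) = i' := by linarith
    exact_mod_cast this
  have hβne : ∀ j j' : ℕ, j ≠ j' → θ + j ≠ θ + (j' : ℝ) := by
    intro i i' h h'
    apply h
    have : (i : ℝ) = i' := by linarith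
    exact_mod_cast this
  have hA3 : ∀ i < R, ∀ i' < R, ∀ i'' < R, i ≠ i' → i ≠ i'' → i' ≠ i'' →
      dt (hp κ μ (((K : ℝ) - θ) + i)) (hp κ μ (((K : ℝ) - θ) + i'))
        (hp κ μ (((K : ℝ) - θ) + i'')) ≠ 0 := by
    intro i _ i' _ i'' _ h1 h2 h3
    exact hp_dt_ne hμ (hU _) (hU _) (hU _) (hUne _ _ h1) (hUne _ _ h2) (hUne _ _ h3)
  refine ⟨fun i => hp κ μ (((K : ℝ) - θ) + i), fun j => hp κ μ (θ + j), ?_, ?_⟩
  swap
  · intro j hj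
    have := e5 j (Finset.mem_range.mpr hj) trivial
    show μ / (θ + j) < h
    linarith
  refine ⟨?_, ?_, hA3, ?_, ?_, ?_, ?_, ?_⟩
  · intro j _
    exact div_pos hμ (hβ j)
  · intro i _ j hj
    have h1 := hU i
    have h2 := hβ j
    refine ⟨(θ + j) / (((K : ℝ) - θ) + i), div_pos h2 h1, ?_, ?_⟩
    · rw [div_lt_one h1]; exact hlt i j hj
    · ext
      · simp only [hp, pp]
        push_cast
        field_simp
        ring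
      · simp only [hp, pp]
        field_simp
        ring
  · intro j hj i _ i' _ h1
    exact hp_dt_ne hμ (hβ _) (hU _) (hU _) (hlt i j hj).ne (hlt i' j hj).ne (hUne _ _ h1)
  · intro i _ j hj j' hj' h1
    exact hp_dt_ne hμ (hU _) (hβ _) (hβ _) (hlt i j hj).ne' (hlt i j' hj').ne' (hβne _ _ h1)
  · intro i hi v hv v' hv' hne
    by_cases hor : v.2 ≠ 0 ∨ v'.2 ≠ 0
    · exact e1 i (Finset.mem_range.mpr hi) trivial v hv trivial v' hv' ⟨hne, hor⟩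
    · push Not at hor
      obtain ⟨h1, h2⟩ := hor
      have e : dt v v' (hp κ μ (((K : ℝ) - θ) + i)) =
          (v'.1 - v.1) * (μ / (((K : ℝ) - θ) + i)) := by
        simp only [dt, hp]; rw [h1, h2]; ring
      rw [e]
      refine mul_ne_zero ?_ (div_pos hμ (hU i)).ne'
      intro h0
      exact hne (Prod.ext (by linarith) (by rw [h1, h2]))
  · intro i hi j hj v hv
    by_cases h : v.2 = 0
    · have h1 := haxis1 v hv h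
      have e : dt (pp (K + i + j)) (hp κ μ (θ + j)) v =
          (μ / (θ + j)) * ((K : ℝ) + i + j - v.1) := by
        simp only [dt, hp, pp]; rw [h]; push_cast; ring
      show dt (pp (K + i + j)) (hp κ μ (θ + j)) v ≠ 0
      rw [e]
      refine mul_ne_zero (div_pos hμ (hβ j)).ne' ?_
      have h2 : (0 : ℝ) ≤ i := Nat.cast_nonneg i
      have h3 : (0 : ℝ) ≤ j := Nat.cast_nonneg j
      have h4 : (0 : ℝ) ≤ N := Nat.cast_nonneg N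
      have : 0 < (K : ℝ) + i + j - v.1 := by linarith
      exact this.ne'
    · exact e2 i (Finset.mem_range.mpr hi) trivial j (Finset.mem_range.mpr hj) trivial v hv h
  · classical
    intro z hzV hz2 I hI
    have hsub : I ⊆ (I.filter (fun i : ℕ => dt c z (hp κ μ (((K : ℝ) - θ) + i)) = 0)) ∪
        ((I.filter (fun i : ℕ => dt d z (hp κ μ (((K : ℝ) - θ) + i)) = 0)) ∪
        (I.filter (fun i : ℕ => ∃ v ∈ V, v.2 ≠ 0 ∧ dt v z (hp κ μ (((K : ℝ) - θ) + i)) = 0))) := by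
      intro i hi
      obtain ⟨-, v, hv, h0⟩ := hI i hi
      simp only [Finset.mem_union, Finset.mem_filter]
      by_cases h : v.2 = 0
      · rcases haxis v hv h with rfl | rfl
        · exact Or.inl ⟨hi, h0⟩
        · exact Or.inr (Or.inl ⟨hi, h0⟩)
      · exact Or.inr (Or.inr ⟨hi, v, hv, h, h0⟩)
    have b : ∀ v ∈ V, (I.filter (fun i : ℕ => dt v z (hp κ μ (((K : ℝ) - θ) + i)) = 0)).card ≤ 2 := by
      intro v hv
      have hvz : v ≠ z := by rintro rfl; exact hzV hv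
      apply card_le_two_of
      intro i hi i' hi' i'' hi'' h1 h2 h3
      rw [Finset.mem_filter] at hi hi' hi''
      exact hA3 i (hI i hi.1).1 i' (hI i' hi'.1).1 i'' (hI i'' hi''.1).1 h1 h2 h3
        (dt_three hvz hi.2 hi'.2 hi''.2)
    have b3 : (I.filter (fun i : ℕ => ∃ v ∈ V, v.2 ≠ 0 ∧
        dt v z (hp κ μ (((K : ℝ) - θ) + i)) = 0)).card ≤ 2 := by
      apply card_le_two_of
      intro i hi i' hi' i'' hi'' h1 h2 h3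
      rw [Finset.mem_filter] at hi hi' hi''
      obtain ⟨hiI, v1, hv1, n1, g1⟩ := hi
      obtain ⟨hiI', v2, hv2, n2, g2⟩ := hi'
      obtain ⟨hiI'', v3, hv3, n3, g3⟩ := hi''
      by_cases hall : v1 = v2 ∧ v1 = v3
      · obtain ⟨rfl, rfl⟩ := hall
        have hvz : v1 ≠ z := by rintro rfl; exact hzV hv1
        exact hA3 i (hI i hiI).1 i' (hI i' hiI').1 i'' (hI i'' hiI'').1 h1 h2 h3
          (dt_three hvz g1 g2 g3)
      · refine e3 i (Finset.mem_range.mpr (hI i hiI).1) trivial i'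
          (Finset.mem_range.mpr (hI i' hiI').1) trivial i''
          (Finset.mem_range.mpr (hI i'' hiI'').1) ⟨h1, h2, h3⟩ v1 hv1 n1 v2 hv2 n2 v3 hv3
          ⟨n3, hall⟩ ?_
        apply D3_eq_zero (z := z)
        · rw [dt_swap', g1, neg_zero]
        · rw [dt_swap', g2, neg_zero]
        · rw [dt_swap', g3, neg_zero]
    have t0 := Finset.card_le_card hsub
    have t1 := Finset.card_union_le
      (I.filter (fun i : ℕ => dt c z (hp κ μ (((K : ℝ) - θ) + i)) = 0))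
      ((I.filter (fun i : ℕ => dt d z (hp κ μ (((K : ℝ) - θ) + i)) = 0)) ∪
        (I.filter (fun i : ℕ => ∃ v ∈ V, v.2 ≠ 0 ∧ dt v z (hp κ μ (((K : ℝ) - θ) + i)) = 0)))
    have t2 := Finset.card_union_le
      (I.filter (fun i : ℕ => dt d z (hp κ μ (((K : ℝ) - θ) + i)) = 0))
        (I.filter (fun i : ℕ => ∃ v ∈ V, v.2 ≠ 0 ∧ dt v z (hp κ μ (((K : ℝ) - θ) + i)) = 0))
    have b1 := b c hc
    have b2 := b d hd
    omega

end Pool.Agent.Lib.MP_7f1c6c_co
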