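import Mathlib

/-!
# The bichromatic Maker-Breaker k-hole game: definitions
-/

namespace Pool.Agent.Lib.MP_7f1c6c_co

/-- The plane `ℝ²`. -/
abbrev Plane : Type := ℝ × ℝ

/-- A finite set of points of the plane is in general position if no three distinct points
of it are collinear. -/
def GeneralPosition (P : Finset Plane) : Prop :=
  ∀ a ∈ P, ∀ b ∈ P, ∀ c ∈ P, a ≠ b → a ≠ c → b ≠ c →
    ¬ Collinear ℝ ({a, b, c} : Set Plane)

/-- `H` is a `k`-hole of `P`: a `k`-element subset of `P` in convex position such that the
interior of its convex hull contains no point of `P`. -/
def IsHole (k : ℕ) (P H : Finset Plane) : Prop :=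
  H ⊆ P ∧ H.card = k ∧
    ConvexIndependent ℝ (fun p : (H : Set Plane) => (p : Plane)) ∧
    ∀ p ∈ P, p ∉ interior (convexHull ℝ (H : Set Plane))

/-- A Breaker strategy: a function that tells, from the list of all the points that Maker has
played so far (the latest one first), which finite set of points Breaker places now.
(Breaker's own earlier points are determined by the same function.) -/
abbrev Strategy : Type := List Plane → Finset Plane

/-- The set of all points placed, by both players, after the rounds in which Maker has played
the points of the list (latest first) and Breaker has answered each of them by `σ`. -/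
noncomputable def placed (σ : Strategy) : List Plane → Finset Plane
  | [] => ∅
  | x :: l => insert x (placed σ l) ∪ σ (x :: l)

/-- All the moves of Maker in the list (latest first) are legal when Breaker answers by `σ`:
each of them is a new point and keeps the set of all placed points in general position. -/
def LegalMoves (σ : Strategy) : List Plane → Prop
  | [] => True
  | x :: l => LegalMoves σ l ∧ x ∉ placed σ l ∧ GeneralPosition (insert x (placed σ l))

/-- The strategy `σ` obeys the rules of the game with bias `1 : s`: in answer to legal moves
of Maker it places at most `s` points, all of them new, and keeps the set of all placed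
points in general position. -/
def ObeysRules (s : ℕ) (σ : Strategy) : Prop :=
  ∀ (x : Plane) (l : List Plane), LegalMoves σ (x :: l) →
    (σ (x :: l)).card ≤ s ∧ Disjoint (σ (x :: l)) (insert x (placed σ l)) ∧
      GeneralPosition (placed σ (x :: l))

/-- In the round in which Maker plays `x` after having played the points of `l`, there is a
moment (after Maker has placed `x`, while Breaker is placing the points of the answer, or
after the answer) at which the set `P` of all placed points has a `k`-hole all of whose
vertices are points of Maker. -/
def MakerHasHole (k : ℕ) (σ : Strategy) (x : Plane) (l : List Plane) : Prop :=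
  ∃ P H : Finset Plane, insert x (placed σ l) ⊆ P ∧ P ⊆ placed σ (x :: l) ∧
    IsHole k P H ∧ ∀ p ∈ H, p ∈ x :: l

/-- Breaker has a winning strategy in the bichromatic Maker-Breaker `k`-hole game with bias
`1 : s`: a strategy that obeys the rules and such that, whatever legal moves Maker makes,
there is never a `k`-hole of the set of all placed points all of whose vertices are points
of Maker. -/
def BreakerWins (k s : ℕ) : Prop :=
  ∃ σ : Strategy, ObeysRules s σ ∧
    ∀ (x : Plane) (l : List Plane), LegalMoves σ (x :: l) → ¬ MakerHasHole k σ x l

end Pool.Agent.Lib.MP_7f1c6c_co
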