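import Pool.Agent.Lib.MP_7f1c6c_co.LastMove

/-!
# The endgame: many stars win
-/

namespace Pool.Agent.Lib.MP_7f1c6c_co

/-- The centres on the horizontal axis. -/
def pp (n : ℕ) : Plane := ((n : ℝ), 0)

/-- Points of a star: `a`, `b` lie in this order between `p` and `q`. -/
def Btw (p a b q : Plane) : Prop :=
  ∃ ta tb : ℝ, 0 < ta ∧ ta < tb ∧ tb < 1 ∧ a = (p.1 + ta * (q.1 - p.1), p.2 + ta * (q.2 - p.2)) ∧
    b = (p.1 + tb * (q.1 - p.1), p.2 + tb * (q.2 - p.2))

/-- A generic point on a small parabolic arc. -/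
theorem exists_generic_curve (P : Finset Plane) (hP : GP P) (u : Plane) (Pr : ℝ → Prop)
    (h : ∀ᶠ t in nhdsWithin (0 : ℝ) (Set.Ioi 0), Pr t) :
    ∃ t, 0 < t ∧ Pr t ∧ ((u.1 + t, u.2 + t ^ 2) : Plane) ∉ P ∧
      GP (insert ((u.1 + t, u.2 + t ^ 2) : Plane) P) := by
  obtain ⟨ε, hε, hball⟩ := mem_nhdsGT_iff_exists_Ioo_subset.mp h
  have hε' : (0 : ℝ) < ε := hε
  set S : Set ℝ := (⋃ p ∈ P, {t : ℝ | u.1 + t = p.1}) ∪
    ⋃ p ∈ P, ⋃ q ∈ P, {t : ℝ | p ≠ q ∧ dt p q (u.1 + t, u.2 + t ^ 2) = 0} with hS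
  have hSfin : S.Finite := by
    refine Set.Finite.union ?_ ?_
    · refine Set.Finite.biUnion P.finite_toSet ?_
      intro p _
      refine (Set.finite_singleton (p.1 - u.1)).subset ?_
      intro t ht
      simp only [Set.mem_ofPred_eq] at ht
      simp only [Set.mem_singleton_iff]
      linarith
    · refine Set.Finite.biUnion P.finite_toSet ?_
      intro p _
      refine Set.Finite.biUnion P.finite_toSet ?_
      intro q _
      by_cases hpq : p = q
      · refine Set.finite_empty.subset ?_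
        intro t ht
        exact absurd hpq ht.1
      · have h3 : (q.1 - p.1) ≠ 0 ∨ (-(q.2 - p.2)) ≠ 0 ∨
            ((q.1 - p.1) * (u.2 - p.2) - (q.2 - p.2) * (u.1 - p.1)) ≠ 0 := by
          by_contra hcon
          push Not at hcon
          apply hpq
          ext
          · linarith [hcon.1]
          · linarith [hcon.2.1]
        refine (finite_quadratic h3).subset ?_
        intro t ht
        have h4 := ht.2
        simp only [dt] at h4
        simp only [Set.mem_ofPred_eq]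
        linear_combination h4
  obtain ⟨t, ht0, htε, htS⟩ := exists_pos_small_notMem hSfin hε'
  refine ⟨t, ht0, hball ⟨ht0, htε⟩, ?_, ?_⟩
  · intro hmem
    apply htS
    left
    exact Set.mem_biUnion hmem rfl
  · apply gp_insert hP
    intro a ha b hb hab h0
    apply htS
    right
    exact Set.mem_biUnion ha (Set.mem_biUnion hb ⟨hab, h0⟩)

/-- Data of the stars. -/
structure Stars (s r : ℕ) (M P : Finset Plane) (Qs : Finset Plane) (X : Plane → Finset ℕ)
    (A B : Plane → ℕ → Plane) : Prop where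
  card : ∀ Q ∈ Qs, (X Q).card = s + 1
  sub : ∀ Q ∈ Qs, X Q ⊆ Finset.range r
  pos : ∀ Q ∈ Qs, 0 < Q.2
  memA : ∀ Q ∈ Qs, ∀ n ∈ X Q, A Q n ∈ M
  memB : ∀ Q ∈ Qs, ∀ n ∈ X Q, B Q n ∈ M
  btw : ∀ Q ∈ Qs, ∀ n ∈ X Q, Btw (pp n) (A Q n) (B Q n) Q
  indep : ∀ Q ∈ Qs, ∀ Q' ∈ Qs, Q ≠ Q' → ∀ n ∈ X Q, n ∈ X Q' → dt (pp n) Q Q' ≠ 0

theorem Stars.mono {s r : ℕ} {M P M' P' : Finset Plane} {Qs : Finset Plane}
    {X : Plane → Finset ℕ} {A B : Plane → ℕ → Plane} (h : Stars s r M P Qs X A B)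
    (hM : M ⊆ M') : Stars s r M' P' Qs X A B where
  card := h.card
  sub := h.sub
  pos := h.pos
  memA := fun Q hQ n hn => hM (h.memA Q hQ n hn)
  memB := fun Q hQ n hn => hM (h.memB Q hQ n hn)
  btw := h.btw
  indep := h.indep

/-- Half-open triangle. -/
def HT (a x q z : Plane) : Prop := 0 < dt a x z ∧ 0 ≤ dt x q z ∧ 0 < dt q a z

/-- The state of the phase in which Maker places the points near the centres. -/
def Ph (s : ℕ) (P0 Qs : Finset Plane) (X : Plane → Finset ℕ) (A B : Plane → ℕ → Plane)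
    (k : ℕ) (M P : Finset Plane) : Prop :=
  (P \ P0).card ≤ (s + 1) * k ∧
  ∃ x : ℕ → Plane, ∀ n < k, x n ∈ M ∧ ∀ Q ∈ Qs, n ∈ X Q →
    0 < dt (B Q n) (A Q n) (x n) ∧ (∀ n' ∈ X Q, n < n' → 0 < dt Q (x n) (pp n')) ∧
    (x n).2 < Q.2 ∧ (∀ z ∈ P0, ¬ HT (A Q n) (x n) Q z) ∧
    (∀ Q' ∈ Qs, Q' ≠ Q → n ∈ X Q' → ∀ z, ¬ (HT (A Q n) (x n) Q z ∧ HT (A Q' n) (x n) Q' z))

theorem eventually_all_finset_imp {α : Type*} {l : Filter ℝ} (S : Finset α) (C : α → Prop)
    (F : α → ℝ → Prop) (h : ∀ a ∈ S, C a → ∀ᶠ t in l, F a t) :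
    ∀ᶠ t in l, ∀ a ∈ S, C a → F a t := by
  classical
  rw [Filter.eventually_all_finset]
  intro a ha
  by_cases hC : C a
  · filter_upwards [h a ha hC] with t ht _
    exact ht
  · exact Filter.Eventually.of_forall (fun t h => absurd h hC)

/-- Disjointness of two half-open triangles with the same apex `x`. -/
theorem ht_disjoint {x a q a' q' z : Plane} (h2 : 0 < dt x a q') (h4 : 0 < dt x q q')
    (hz : HT a x q z) (hz' : HT a' x q' z) (hpos : 0 < dt a x q) : False := by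
  obtain ⟨k1, k2, k3⟩ := hz
  obtain ⟨l1, l2, l3⟩ := hz'
  -- [q,a][z,q'] = [q,z][a,q'] + [q,q'][z,a]
  have id1 : dt a x q * dt x z q' = dt x q z * dt x a q' + dt x q q' * dt a x z := by
    simp only [dt]; ring
  have h5 : 0 < dt x z q' := by
    have : 0 < dt a x q * dt x z q' := by
      rw [id1]
      have := mul_nonneg k2 h2.le
      have := mul_pos h4 k1
      linarith
    exact pos_of_mul_pos_of_pos_left' this hpos
  have h6 : dt x z q' = - dt x q' z := dt_swap' _ _ _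
  linarith
where
  pos_of_mul_pos_of_pos_left' {a b : ℝ} (h : 0 < a * b) (ha : 0 < a) : 0 < b := by
    by_contra hcon
    push Not at hcon
    nlinarith

theorem btw_dt {p a b q : Plane} (h : Btw p a b q) (x : Plane) :
    ∃ ta tb : ℝ, 0 < ta ∧ ta < tb ∧ tb < 1 ∧ dt b a x = (tb - ta) * dt q p x ∧
      dt q a x = (1 - ta) * dt q p x ∧ dt q b x = (1 - tb) * dt q p x ∧
      a.2 = p.2 + ta * (q.2 - p.2) ∧ b.2 = p.2 + tb * (q.2 - p.2) := by
  obtain ⟨ta, tb, h1, h2, h3, h4, h5⟩ := h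
  refine ⟨ta, tb, h1, h2, h3, ?_, ?_, ?_, ?_, ?_⟩
  · rw [h4, h5]; simp only [dt]; ring
  · rw [h4]; simp only [dt]; ring
  · rw [h5]; simp only [dt]; ring
  · rw [h4]
  · rw [h5]

theorem eventually_side {p q : Plane} (h : p.2 < q.2) :
    ∀ᶠ t in nhdsWithin (0 : ℝ) (Set.Ioi 0), 0 < dt q p (p.1 + t, p.2 + t ^ 2) := by
  have h1 : ∀ᶠ t in nhdsWithin (0 : ℝ) (Set.Ioi 0), 0 < (q.2 - p.2) + t * (p.1 - q.1) :=
    eventually_pos (by fun_prop) (by simpa using h)
  filter_upwards [h1, eventually_mem_nhdsWithin] with t ht ht0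
  have ht0' : (0 : ℝ) < t := ht0
  have e : dt q p (p.1 + t, p.2 + t ^ 2) = t * ((q.2 - p.2) + t * (p.1 - q.1)) := by
    simp only [dt]; ring
  rw [e]; positivity

theorem eventually_side' {p q : Plane} (h : p.2 < q.2) :
    ∀ᶠ t in nhdsWithin (0 : ℝ) (Set.Ioi 0), 0 < dt q p (q.1 + t, q.2 + t ^ 2) := by
  have h1 : ∀ᶠ t in nhdsWithin (0 : ℝ) (Set.Ioi 0), 0 < (q.2 - p.2) + t * (p.1 - q.1) :=
    eventually_pos (by fun_prop) (by simpa using h)
  filter_upwards [h1, eventually_mem_nhdsWithin] with t ht ht0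
  have ht0' : (0 : ℝ) < t := ht0
  have e : dt q p (q.1 + t, q.2 + t ^ 2) = t * ((q.2 - p.2) + t * (p.1 - q.1)) := by
    simp only [dt]; ring
  rw [e]; positivity

theorem eventually_dt_pos {f g h : ℝ → Plane} (hf : Continuous f) (hg : Continuous g)
    (hh : Continuous h) (h0 : 0 < dt (f 0) (g 0) (h 0)) :
    ∀ᶠ t in nhdsWithin (0 : ℝ) (Set.Ioi 0), 0 < dt (f t) (g t) (h t) :=
  eventually_pos (continuous_dt hf hg hh) h0

theorem ph_step {s r : ℕ} {M0 P0 Qs : Finset Plane} {X : Plane → Finset ℕ}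
    {A B : Plane → ℕ → Plane} (hS : Stars s r M0 P0 Qs X A B) {k : ℕ} {M P : Finset Plane}
    (hv : Valid M P) (hP0 : P0 ⊆ P)
    (h : Ph s P0 Qs X A B k M P) : Force s (Ph s P0 Qs X A B (k + 1)) M P := by
  classical
  obtain ⟨hcard, x, hx⟩ := h
  set y : ℝ → Plane := fun t => ((pp k).1 + t, (pp k).2 + t ^ 2) with hy
  have hyc : Continuous y := by rw [hy]; fun_prop
  have hy0 : y 0 = pp k := by simp [hy]
  have hcc : ∀ p : Plane, Continuous (fun _ : ℝ => p) := fun p => continuous_const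
  have hp2 : (pp k).2 = 0 := rfl
  -- first condition
  have E1 : ∀ᶠ t in nhdsWithin (0 : ℝ) (Set.Ioi 0), ∀ Q ∈ Qs, k ∈ X Q →
      0 < dt (B Q k) (A Q k) (y t) := by
    apply eventually_all_finset_imp
    intro Q hQ hk
    have hQ2 := hS.pos Q hQ
    filter_upwards [eventually_side (p := pp k) (q := Q) (by rw [hp2]; exact hQ2)] with t ht
    obtain ⟨ta, tb, h1, h2, h3, h4, -⟩ := btw_dt (hS.btw Q hQ k hk) (y t)
    rw [h4]
    exact mul_pos (by linarith) ht
  have E2 : ∀ᶠ t in nhdsWithin (0 : ℝ) (Set.Ioi 0), ∀ Q ∈ Qs, True →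
      ∀ n' ∈ X Q, k < n' → 0 < dt Q (y t) (pp n') := by
    apply eventually_all_finset_imp
    intro Q hQ _
    apply eventually_all_finset_imp
    intro n' _ hn'
    refine eventually_dt_pos (hcc Q) hyc (hcc _) ?_
    rw [hy0]
    have hQ2 := hS.pos Q hQ
    have : (k : ℝ) < n' := by exact_mod_cast hn'
    have e : dt Q (pp k) (pp n') = Q.2 * (n' - k) := by simp only [dt, pp]; ring
    rw [e]; exact mul_pos hQ2 (by linarith)
  have E3 : ∀ᶠ t in nhdsWithin (0 : ℝ) (Set.Ioi 0), ∀ Q ∈ Qs, True → (y t).2 < Q.2 := by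
    apply eventually_all_finset_imp
    intro Q hQ _
    have hQ2 := hS.pos Q hQ
    have := eventually_pos (f := fun t => Q.2 - (y t).2) (by fun_prop) (by
      simp only [hy0, hp2]; linarith)
    filter_upwards [this] with t ht
    linarith
  have E4 : ∀ᶠ t in nhdsWithin (0 : ℝ) (Set.Ioi 0), ∀ Q ∈ Qs, k ∈ X Q →
      ∀ z ∈ P, 0 < dt Q (A Q k) z → dt Q (A Q k) (y t) < dt Q (A Q k) z := by
    apply eventually_all_finset_imp
    intro Q hQ hk
    apply eventually_all_finset_imp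
    intro z _ hz
    have hc : Continuous (fun t => dt Q (A Q k) z - dt Q (A Q k) (y t)) :=
      continuous_const.sub (continuous_dt (hcc _) (hcc _) hyc)
    have := eventually_pos hc (by
      simp only [hy0]
      obtain ⟨ta, tb, h1, h2, h3, -, h4, -⟩ := btw_dt (hS.btw Q hQ k hk) (pp k)
      rw [h4, dt_self_right]
      linarith)
    filter_upwards [this] with t ht
    linarith
  have E5 : ∀ᶠ t in nhdsWithin (0 : ℝ) (Set.Ioi 0), ∀ Q ∈ Qs, k ∈ X Q →
      ∀ Q' ∈ Qs, (k ∈ X Q' ∧ 0 < dt (pp k) Q Q') →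
      (0 < dt (y t) (A Q k) Q' ∧ 0 < dt (y t) Q Q') := by
    apply eventually_all_finset_imp
    intro Q hQ hk
    apply eventually_all_finset_imp
    rintro Q' hQ' ⟨hk', hpos⟩
    refine Filter.Eventually.and (eventually_dt_pos hyc (hcc _) (hcc _) ?_)
      (eventually_dt_pos hyc (hcc _) (hcc _) ?_)
    · rw [hy0]
      obtain ⟨ta, tb, h1, h2, h3, h4, h5⟩ := hS.btw Q hQ k hk
      have e : dt (pp k) (A Q k) Q' = ta * dt (pp k) Q Q' := by
        rw [h4]; simp only [dt]; ring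
      rw [e]; exact mul_pos h1 hpos
    · rw [hy0]; exact hpos
  obtain ⟨t, ht0, ⟨e1, e2, e3, e4, e5⟩, htP, htG⟩ :=
    exists_generic_curve P hv.2 (pp k) _ (E1.and (E2.and (E3.and (E4.and E5))))
  change y t ∉ P at htP
  change GP (insert (y t) P) at htG
  refine Force.move (y t) htP htG ?_
  intro B' hB1 hB2 hB3
  refine Force.done ⟨?_, ?_⟩
  · have := card_next (x := y t) hB1 hcard
    calc _ ≤ (s + 1) * k + (s + 1) := this
      _ = (s + 1) * (k + 1) := by ring
  · refine ⟨fun n => if n = k then y t else x n, ?_⟩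
    intro n hn
    rcases Nat.lt_succ_iff_lt_or_eq.mp hn with hlt | rfl
    · have hne : n ≠ k := by omega
      simp only [hne, if_false]
      obtain ⟨g1, g2⟩ := hx n hlt
      exact ⟨Finset.mem_insert_of_mem g1, g2⟩
    · simp only [if_true]
      refine ⟨Finset.mem_insert_self _ _, ?_⟩
      intro Q hQ hk
      have f1 := e1 Q hQ hk
      have hpos : ∀ Q ∈ Qs, n ∈ X Q → 0 < dt (A Q n) (y t) Q := by
        intro Q hQ hk
        obtain ⟨ta, tb, h1, h2, h3, h4, h5, -⟩ := btw_dt (hS.btw Q hQ n hk) (y t)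
        have f1 := e1 Q hQ hk
        rw [h4] at f1
        have : 0 < dt Q (pp n) (y t) := by
          by_contra hcon
          push Not at hcon
          nlinarith
        rw [dt_rot, dt_rot, h5]
        exact mul_pos (by linarith) this
      refine ⟨f1, e2 Q hQ trivial, e3 Q hQ trivial, ?_, ?_⟩
      · rintro z hz ⟨k1, k2, k3⟩
        have h6 := e4 Q hQ hk z (hP0 hz) k3
        have h7 := dt_split (A Q n) (y t) Q z
        have h8 : dt (A Q n) (y t) Q = dt Q (A Q n) (y t) := by rw [dt_rot, dt_rot]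
        linarith
      · rintro Q' hQ' hne hk' z ⟨hz, hz'⟩
        rcases lt_or_gt_of_ne (hS.indep Q hQ Q' hQ' (Ne.symm hne) n hk hk') with hneg | hp
        · have hp : 0 < dt (pp n) Q' Q := by rw [dt_swap', neg_pos]; exact hneg
          obtain ⟨g1, g2⟩ := e5 Q' hQ' hk' Q hQ ⟨hk, hp⟩
          exact ht_disjoint g1 g2 hz' hz (hpos Q' hQ' hk')
        · obtain ⟨g1, g2⟩ := e5 Q hQ hk Q' hQ' ⟨hk', hp⟩
          exact ht_disjoint g1 g2 hz hz' (hpos Q hQ hk)

theorem ph_iter {s r : ℕ} {M0 P0 Qs : Finset Plane} {X : Plane → Finset ℕ}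
    {A B : Plane → ℕ → Plane} (hS : Stars s r M0 P0 Qs X A B) (hv : Valid M0 P0) (k : ℕ) :
    Force s (Ph s P0 Qs X A B k) M0 P0 := by
  induction k with
  | zero =>
    refine Force.done ⟨by simp, fun _ => (0, 0), ?_⟩
    intro n hn
    exact absurd hn (Nat.not_lt_zero n)
  | succ k ih =>
    refine ih.bind hv ?_
    intro M' P' hv' _ hP hG
    exact ph_step hS hv' hP hG

/-- Some star is untouched. -/
theorem exists_untouched {s r : ℕ} {M0 P0 Qs : Finset Plane} {X : Plane → Finset ℕ}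
    {A B : Plane → ℕ → Plane} (hS : Stars s r M0 P0 Qs X A B) {P : Finset Plane}
    {x : ℕ → Plane} (hcard : (P \ P0).card ≤ (s + 1) * r)
    (hx : ∀ n < r, ∀ Q ∈ Qs, n ∈ X Q → (∀ z ∈ P0, ¬ HT (A Q n) (x n) Q z) ∧
      (∀ Q' ∈ Qs, Q' ≠ Q → n ∈ X Q' → ∀ z,
        ¬ (HT (A Q n) (x n) Q z ∧ HT (A Q' n) (x n) Q' z)))
    (hbig : (s + 1) * r * r < Qs.card) :
    ∃ Q ∈ Qs, ∀ n ∈ X Q, ∀ z ∈ P, ¬ HT (A Q n) (x n) Q z := by
  classical
  by_contra hcon
  push Not at hcon
  choose! n hn z hz hHT using hcon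
  have hmaps : ∀ Q ∈ Qs, (z Q, n Q) ∈ (P \ P0) ×ˢ Finset.range r := by
    intro Q hQ
    rw [Finset.mem_product, Finset.mem_sdiff]
    have hnr : n Q ∈ Finset.range r := hS.sub Q hQ (hn Q hQ)
    refine ⟨⟨hz Q hQ, ?_⟩, hnr⟩
    intro h0
    exact (hx (n Q) (Finset.mem_range.mp hnr) Q hQ (hn Q hQ)).1 (z Q) h0 (hHT Q hQ)
  have hinj : Set.InjOn (fun Q => (z Q, n Q)) (Qs : Set Plane) := by
    intro Q hQ Q' hQ' heq
    by_contra hne
    simp only [Prod.mk.injEq] at heq
    obtain ⟨h1, h2⟩ := heq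
    have hQm : Q ∈ Qs := hQ
    have hQm' : Q' ∈ Qs := hQ'
    have hnr : n Q ∈ Finset.range r := hS.sub Q hQm (hn Q hQm)
    refine (hx (n Q) (Finset.mem_range.mp hnr) Q hQm (hn Q hQm)).2 Q' hQm' (Ne.symm hne)
      (h2 ▸ hn Q' hQm') (z Q) ⟨hHT Q hQm, ?_⟩
    have := hHT Q' hQm'
    rw [← h1, ← h2] at this
    exact this
  have h1 := Finset.card_le_card_of_injOn _ hmaps hinj
  rw [Finset.card_product, Finset.card_range] at h1
  have h2 : (P \ P0).card * r ≤ (s + 1) * r * r := Nat.mul_le_mul_right _ hcard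
  omega

theorem bracket_identity (y p q z : Plane) :
    dt y p q * (y.2 - z.2) + dt y q z * (y.2 - p.2) + dt y z p * (y.2 - q.2) = 0 := by
  simp only [dt]; ring

/-- Two quadrilaterals of the final fan are disjoint. -/
theorem fan_disjoint {y x b b' z : Plane} (hb : b.2 < y.2) (hx : x.2 < y.2)
    (hb' : b'.2 < y.2) (h0 : 0 < dt x y b) (h1 : 0 < dt x y z) (h2 : 0 < dt y b z)
    (h3 : 0 < dt y b' z) (h4 : 0 < dt y x b') : False := by
  have i1 := bracket_identity y b x z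
  have i2 := bracket_identity y z x b'
  have r1 : dt y b x = dt x y b := by rw [dt_rot, dt_rot]
  have r2 : dt y x z = - dt x y z := dt_swap _ _ _
  have r3 : dt y z b = - dt y b z := dt_swap' _ _ _
  have r4 : dt y z x = dt x y z := by rw [dt_rot, dt_rot]
  have hz : z.2 < y.2 := by
    rw [r1, r2, r3] at i1
    have e1 : 0 < dt x y z * (y.2 - b.2) := mul_pos h1 (by linarith)
    have e2 : 0 < dt y b z * (y.2 - x.2) := mul_pos h2 (by linarith)
    have e3 : 0 < dt x y b * (y.2 - z.2) := by linarith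
    by_contra hcon
    push Not at hcon
    nlinarith
  rw [r4] at i2
  have e1 : 0 < dt x y z * (y.2 - b'.2) := mul_pos h1 (by linarith)
  have e2 : 0 < dt y x b' * (y.2 - z.2) := mul_pos h4 (by linarith)
  have e3 : 0 < dt y b' z * (y.2 - x.2) := mul_pos h3 (by linarith)
  linarith

theorem force_final {s r : ℕ} {M0 P0 Qs : Finset Plane} {X : Plane → Finset ℕ}
    {A B : Plane → ℕ → Plane} (hS : Stars s r M0 P0 Qs X A B) {M P : Finset Plane}
    (hv : Valid M P) (hM0 : M0 ⊆ M) (hbig : (s + 1) * r * r < Qs.card)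
    (h : Ph s P0 Qs X A B r M P) : Force s WinCond M P := by
  classical
  obtain ⟨hcard, x, hx⟩ := h
  obtain ⟨Q, hQ, hun⟩ := exists_untouched hS hcard (x := x)
    (fun n hn Q hQ hk => ⟨((hx n hn).2 Q hQ hk).2.2.2.1, ((hx n hn).2 Q hQ hk).2.2.2.2⟩) hbig
  set y : ℝ → Plane := fun t => (Q.1 + t, Q.2 + t ^ 2) with hy
  have hyc : Continuous y := by rw [hy]; fun_prop
  have hy0 : y 0 = Q := by simp [hy]
  have hcc : ∀ p : Plane, Continuous (fun _ : ℝ => p) := fun p => continuous_const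
  have hQ2 := hS.pos Q hQ
  have hr : ∀ n ∈ X Q, n < r := fun n hn => Finset.mem_range.mp (hS.sub Q hQ hn)
  have hfact : ∀ n ∈ X Q, ∃ ta tb : ℝ, 0 < ta ∧ ta < tb ∧ tb < 1 ∧
      (∀ w, dt (B Q n) (A Q n) w = (tb - ta) * dt Q (pp n) w) ∧
      (∀ w, dt Q (A Q n) w = (1 - ta) * dt Q (pp n) w) ∧
      (∀ w, dt Q (B Q n) w = (1 - tb) * dt Q (pp n) w) ∧
      (A Q n).2 < Q.2 ∧ (B Q n).2 < Q.2 ∧ 0 < dt Q (pp n) (x n) := by
    intro n hn
    obtain ⟨ta, tb, h1, h2, h3, h4, h5⟩ := hS.btw Q hQ n hn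
    have hp2 : (pp n).2 = 0 := rfl
    have e1 : ∀ w, dt (B Q n) (A Q n) w = (tb - ta) * dt Q (pp n) w := by
      intro w; rw [h4, h5]; simp only [dt]; ring
    refine ⟨ta, tb, h1, h2, h3, e1, ?_, ?_, ?_, ?_, ?_⟩
    · intro w; rw [h4]; simp only [dt]; ring
    · intro w; rw [h5]; simp only [dt]; ring
    · rw [h4]; simp only [hp2]; nlinarith
    · rw [h5]; simp only [hp2]; nlinarith
    · have f1 := ((hx n (hr n hn)).2 Q hQ hn).1
      rw [e1] at f1
      by_contra hcon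
      push Not at hcon
      nlinarith
  have E1 : ∀ᶠ t in nhdsWithin (0 : ℝ) (Set.Ioi 0), ∀ n ∈ X Q, True →
      0 < dt (B Q n) (A Q n) (y t) := by
    apply eventually_all_finset_imp
    intro n hn _
    filter_upwards [eventually_side' (p := pp n) (q := Q) hQ2] with t ht
    obtain ⟨ta, tb, h1, h2, h3, h4, -⟩ := hfact n hn
    rw [h4]
    exact mul_pos (by linarith) ht
  have E2 : ∀ᶠ t in nhdsWithin (0 : ℝ) (Set.Ioi 0), ∀ n ∈ X Q, True →
      0 < dt (x n) (y t) (B Q n) := by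
    apply eventually_all_finset_imp
    intro n hn _
    refine eventually_dt_pos (hcc _) hyc (hcc _) ?_
    rw [hy0]
    obtain ⟨ta, tb, h1, h2, h3, h4, h5, h6, h7, h8, h9⟩ := hfact n hn
    rw [dt_rot, h6]
    exact mul_pos (by linarith) h9
  have E3 : ∀ᶠ t in nhdsWithin (0 : ℝ) (Set.Ioi 0), ∀ n ∈ X Q, True →
      0 < dt (A Q n) (x n) (y t) := by
    apply eventually_all_finset_imp
    intro n hn _
    refine eventually_dt_pos (hcc _) (hcc _) hyc ?_
    rw [hy0]
    obtain ⟨ta, tb, h1, h2, h3, h4, h5, h6, h7, h8, h9⟩ := hfact n hn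
    rw [dt_rot, dt_rot, h5]
    exact mul_pos (by linarith) h9
  have E4 : ∀ᶠ t in nhdsWithin (0 : ℝ) (Set.Ioi 0), ∀ n ∈ X Q, True →
      ∀ z ∈ P, dt (x n) Q z < 0 → dt (x n) (y t) z < 0 := by
    apply eventually_all_finset_imp
    intro n hn _
    apply eventually_all_finset_imp
    intro z _ hz
    have hc : Continuous (fun t => - dt (x n) (y t) z) :=
      (continuous_dt (hcc _) hyc (hcc _)).neg
    have := eventually_pos hc (by
      simp only [hy0]
      linarith)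
    filter_upwards [this] with t ht
    linarith
  have E5 : ∀ᶠ t in nhdsWithin (0 : ℝ) (Set.Ioi 0), ∀ n ∈ X Q, True →
      (A Q n).2 < (y t).2 ∧ (B Q n).2 < (y t).2 ∧ (x n).2 < (y t).2 := by
    apply eventually_all_finset_imp
    intro n hn _
    obtain ⟨ta, tb, h1, h2, h3, h4, h5, h6, h7, h8, h9⟩ := hfact n hn
    have h10 := ((hx n (hr n hn)).2 Q hQ hn).2.2.1
    have key : ∀ c : ℝ, c < Q.2 → ∀ᶠ t in nhdsWithin (0 : ℝ) (Set.Ioi 0), c < (y t).2 := by
      intro c hc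
      have := eventually_pos (f := fun t => (y t).2 - c) (by fun_prop) (by
        simp only [hy0]; linarith)
      filter_upwards [this] with t ht
      linarith
    exact (key _ h7).and ((key _ h8).and (key _ h10))
  have E6 : ∀ᶠ t in nhdsWithin (0 : ℝ) (Set.Ioi 0), ∀ n ∈ X Q, True →
      ∀ n' ∈ X Q, n < n' → 0 < dt (y t) (x n) (B Q n') := by
    apply eventually_all_finset_imp
    intro n hn _
    apply eventually_all_finset_imp
    intro n' hn' hlt
    refine eventually_dt_pos hyc (hcc _) (hcc _) ?_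
    rw [hy0]
    obtain ⟨ta, tb, h1, h2, h3, h4, h5, h6, h7, h8, h9⟩ := hfact n' hn'
    have h10 := ((hx n (hr n hn)).2 Q hQ hn).2.1 n' hn' hlt
    have e : dt Q (x n) (B Q n') = - dt Q (B Q n') (x n) := dt_swap' _ _ _
    have e' : dt Q (x n) (pp n') = - dt Q (pp n') (x n) := dt_swap' _ _ _
    rw [e, h6]
    rw [e'] at h10
    nlinarith
  obtain ⟨t, ht0, ⟨e1, e2, e3, e4, e5, e6⟩, htP, htG⟩ :=
    exists_generic_curve P hv.2 Q _ (E1.and (E2.and (E3.and (E4.and (E5.and E6)))))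
  change y t ∉ P at htP
  change GP (insert (y t) P) at htG
  refine Force.move (y t) htP htG ?_
  intro B' hB1 hB2 hB3
  refine Force.done ?_
  -- the quadrilaterals
  by_contra hcon
  have hex : ∀ n ∈ X Q, ∃ z ∈ B', 0 < dt (x n) (y t) z ∧ 0 < dt (y t) (B Q n) z := by
    intro n hn
    by_contra hno
    push Not at hno
    apply hcon
    refine ⟨x n, Finset.mem_insert_of_mem (hx n (hr n hn)).1, y t,
      Finset.mem_insert_self _ _, B Q n, Finset.mem_insert_of_mem (hM0 (hS.memB Q hQ n hn)),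
      A Q n, Finset.mem_insert_of_mem (hM0 (hS.memA Q hQ n hn)),
      e2 n hn trivial, ?_, ((hx n (hr n hn)).2 Q hQ hn).1, e3 n hn trivial, ?_⟩
    · rw [dt_rot]; exact e1 n hn trivial
    · rintro z hz ⟨k1, k2, k3, k4⟩
      rw [Finset.mem_union, Finset.mem_insert] at hz
      rcases hz with (rfl | hz) | hz
      · rw [dt_self_right] at k1; exact lt_irrefl _ k1
      · obtain ⟨ta, tb, h1, h2, h3, h4, h5, h6, h7, h8, h9⟩ := hfact n hn
        have g : 0 < dt Q (A Q n) z := by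
          rw [h5]
          rw [h4] at k3
          have : 0 < dt Q (pp n) z := by
            by_contra hc
            push Not at hc
            nlinarith
          exact mul_pos (by linarith) this
        have h11 : dt (x n) Q z < 0 := by
          by_contra hc
          push Not at hc
          exact hun n hn z hz ⟨k4, hc, g⟩
        have := e4 n hn trivial z hz h11
        linarith
      · exact absurd k2 (not_lt.mpr (hno z hz k1))
  choose! z hz hz1 hz2 using hex
  have hinj : Set.InjOn z (X Q : Set ℕ) := by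
    have key : ∀ n ∈ X Q, ∀ n' ∈ X Q, n < n' → z n ≠ z n' := by
      intro n hn n' hn' hlt heq
      refine fan_disjoint (e5 n hn trivial).2.1 (e5 n hn trivial).2.2
        (e5 n' hn' trivial).2.1 (e2 n hn trivial) (hz1 n hn) (hz2 n hn) ?_
        (e6 n hn trivial n' hn' hlt)
      rw [heq]
      exact hz2 n' hn'
    intro n hn n' hn' heq
    rcases lt_trichotomy n n' with h | h | h
    · exact absurd heq (key n hn n' hn' h)
    · exact h
    · exact absurd heq.symm (key n' hn' n hn h)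
  have h1 := Finset.card_le_card_of_injOn z (fun n hn => hz n hn) hinj
  rw [hS.card Q hQ] at h1
  omega

/-- Many stars win. -/
theorem force_of_stars {s r : ℕ} {M0 P0 Qs : Finset Plane} {X : Plane → Finset ℕ}
    {A B : Plane → ℕ → Plane} (hS : Stars s r M0 P0 Qs X A B) (hv : Valid M0 P0)
    (hbig : (s + 1) * r * r < Qs.card) : Force s WinCond M0 P0 := by
  refine (ph_iter hS hv r).bind hv ?_
  intro M' P' hv' hM _ hG
  exact force_final hS hv' hM hbig hG

end Pool.Agent.Lib.MP_7f1c6c_co
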