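import Pool.Agent.Lib.MP_7f1c6c_co.Basic

/-!
# Positions Maker can force
-/

namespace Pool.Agent.Lib.MP_7f1c6c_co

/-- `Force s G M P`: from the position in which Maker has the points `M` and all the placed
points are `P`, Maker (to move) can force, in finitely many rounds against bias `1 : s`, a
position satisfying `G`. -/
inductive Force (s : ℕ) (G : Finset Plane → Finset Plane → Prop) :
    Finset Plane → Finset Plane → Prop
  | done {M P : Finset Plane} (h : G M P) : Force s G M P
  | move {M P : Finset Plane} (x : Plane) (hx : x ∉ P) (hg : GP (insert x P))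
      (h : ∀ B : Finset Plane, B.card ≤ s → Disjoint B (insert x P) →
        GP (insert x P ∪ B) → Force s G (insert x M) (insert x P ∪ B)) : Force s G M P

/-- A position that can occur. -/
def Valid (M P : Finset Plane) : Prop := M ⊆ P ∧ GP P

theorem Valid.next {M P B : Finset Plane} {x : Plane} (h : Valid M P)
    (hg : GP (insert x P ∪ B)) : Valid (insert x M) (insert x P ∪ B) := by
  refine ⟨?_, hg⟩
  intro y hy
  rw [Finset.mem_insert] at hy
  rw [Finset.mem_union, Finset.mem_insert]
  rcases hy with rfl | hy
  · exact Or.inl (Or.inl rfl)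
  · exact Or.inl (Or.inr (h.1 hy))

/-- The number of points placed in one round. -/
theorem card_next {P Q B : Finset Plane} {x : Plane} {s n : ℕ} (hB : B.card ≤ s)
    (h : (P \ Q).card ≤ n) : ((insert x P ∪ B) \ Q).card ≤ n + (s + 1) := by
  have h1 : (insert x P ∪ B) \ Q ⊆ (P \ Q) ∪ ({x} ∪ B) := by
    intro y hy
    simp only [Finset.mem_sdiff, Finset.mem_union, Finset.mem_insert,
      Finset.mem_singleton] at hy ⊢
    tauto
  calc ((insert x P ∪ B) \ Q).card ≤ ((P \ Q) ∪ ({x} ∪ B)).card := Finset.card_le_card h1
    _ ≤ (P \ Q).card + ({x} ∪ B).card := Finset.card_union_le _ _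
    _ ≤ n + (1 + B.card) := by
        have := Finset.card_union_le {x} B
        rw [Finset.card_singleton] at this
        omega
    _ ≤ n + (s + 1) := by omega

theorem Force.bind {s : ℕ} {G G' : Finset Plane → Finset Plane → Prop}
    {M P : Finset Plane} (hf : Force s G M P) (hv : Valid M P)
    (h : ∀ M' P', Valid M' P' → M ⊆ M' → P ⊆ P' → G M' P' → Force s G' M' P') :
    Force s G' M P := by
  induction hf with
  | done h' => exact h _ _ hv (Finset.Subset.refl _) (Finset.Subset.refl _) h'
  | @move M P x hx hg hB ih =>
    refine Force.move x hx hg ?_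
    intro B hB1 hB2 hB3
    refine ih B hB1 hB2 hB3 (hv.next hB3) ?_
    intro M' P' hv' hM hP hG
    refine h M' P' hv' ((Finset.subset_insert _ _).trans hM) ?_ hG
    refine Finset.Subset.trans ?_ hP
    exact (Finset.subset_insert _ _).trans Finset.subset_union_left

theorem Force.mono {s : ℕ} {G G' : Finset Plane → Finset Plane → Prop}
    {M P : Finset Plane} (hf : Force s G M P) (hv : Valid M P)
    (h : ∀ M' P', Valid M' P' → M ⊆ M' → P ⊆ P' → G M' P' → G' M' P') :
    Force s G' M P :=
  hf.bind hv (fun M' P' a b c d => Force.done (h M' P' a b c d))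

/-- Maker can complete a `k`-hole with the next move. -/
def WinNext (k : ℕ) (M P : Finset Plane) : Prop :=
  ∃ x, x ∉ P ∧ GP (insert x P) ∧ ∃ H : Finset Plane, IsHole k (insert x P) H ∧
    H ⊆ insert x M

theorem force_play {k s : ℕ} {σ : Strategy} (hσ : ObeysRules s σ)
    (hwin : ∀ (x : Plane) (l : List Plane), LegalMoves σ (x :: l) → ¬ MakerHasHole k σ x l)
    {M P : Finset Plane} (hf : Force s (WinNext k) M P) :
    ∀ l : List Plane, LegalMoves σ l → M ⊆ l.toFinset → P = placed σ l → False := by
  induction hf with
  | @done M P h =>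
    intro l hl hM hP
    obtain ⟨x, hx, hg, H, hH, hHM⟩ := h
    subst hP
    have hleg : LegalMoves σ (x :: l) := ⟨hl, hx, (gp_iff _).mpr hg⟩
    refine hwin x l hleg ⟨insert x (placed σ l), H, Finset.Subset.refl _, ?_, hH, ?_⟩
    · exact Finset.subset_union_left
    · intro p hp
      have := hHM hp
      rw [Finset.mem_insert] at this
      rw [List.mem_cons]
      rcases this with h | h
      · exact Or.inl h
      · exact Or.inr (List.mem_toFinset.mp (hM h))
  | @move M P x hx hg hB ih =>
    intro l hl hM hP
    subst hP
    have hleg : LegalMoves σ (x :: l) := ⟨hl, hx, (gp_iff _).mpr hg⟩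
    obtain ⟨h1, h2, h3⟩ := hσ x l hleg
    refine ih (σ (x :: l)) h1 h2 ((gp_iff _).mp h3) (x :: l) hleg ?_ rfl
    intro y hy
    rw [Finset.mem_insert] at hy
    rw [List.mem_toFinset, List.mem_cons]
    rcases hy with h | h
    · exact Or.inl h
    · exact Or.inr (List.mem_toFinset.mp (hM h))

theorem not_breakerWins_of_force {k s : ℕ} (hf : Force s (WinNext k) ∅ ∅) :
    ¬ BreakerWins k s := by
  rintro ⟨σ, hσ, hwin⟩
  exact force_play hσ hwin hf [] trivial (by simp) rfl

/-- The transformations used to normalise coordinates preserve the orientation determinant. -/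
def shear (c : ℝ) (p : Plane) : Plane := (p.1, p.2 - c * p.1)

theorem dt_shear (c : ℝ) (p q r : Plane) : dt (shear c p) (shear c q) (shear c r) = dt p q r := by
  simp only [dt, shear]; ring

theorem shear_shear (c : ℝ) (p : Plane) : shear (-c) (shear c p) = p := by
  ext <;> simp [shear]

theorem shear_shear' (c : ℝ) (p : Plane) : shear c (shear (-c) p) = p := by
  ext <;> simp [shear]

theorem shear_injective (c : ℝ) : Function.Injective (shear c) :=
  Function.LeftInverse.injective (g := shear (-c)) (shear_shear c)

theorem gp_image_shear (c : ℝ) (P : Finset Plane) : GP (P.image (shear c)) ↔ GP P := by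
  constructor
  · intro h a ha b hb d hd hab had hbd
    have := h (shear c a) (Finset.mem_image_of_mem _ ha) (shear c b)
      (Finset.mem_image_of_mem _ hb) (shear c d) (Finset.mem_image_of_mem _ hd)
      (fun h => hab (shear_injective c h)) (fun h => had (shear_injective c h))
      (fun h => hbd (shear_injective c h))
    rwa [dt_shear] at this
  · intro h a ha b hb d hd hab had hbd
    obtain ⟨a', ha', rfl⟩ := Finset.mem_image.mp ha
    obtain ⟨b', hb', rfl⟩ := Finset.mem_image.mp hb
    obtain ⟨d', hd', rfl⟩ := Finset.mem_image.mp hd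
    rw [dt_shear]
    exact h a' ha' b' hb' d' hd' (fun h => hab (by rw [h])) (fun h => had (by rw [h]))
      (fun h => hbd (by rw [h]))

theorem image_shear_image (c : ℝ) (P : Finset Plane) :
    (P.image (shear c)).image (shear (-c)) = P := by
  rw [Finset.image_image]
  have : shear (-c) ∘ shear c = id := by
    funext p; exact shear_shear c p
  rw [this, Finset.image_id]

theorem image_shear_image' (c : ℝ) (P : Finset Plane) :
    (P.image (shear (-c))).image (shear c) = P := by
  have := image_shear_image (-c) P
  rwa [neg_neg] at this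

theorem Force.shear {s : ℕ} {G : Finset Plane → Finset Plane → Prop} (c : ℝ)
    (hG : ∀ M P, G M P → G (M.image (shear (-c))) (P.image (shear (-c))))
    {M P : Finset Plane} (hf : Force s G M P) :
    Force s G (M.image (MP_7f1c6c_co.shear (-c))) (P.image (MP_7f1c6c_co.shear (-c))) := by
  induction hf with
  | done h => exact Force.done (hG _ _ h)
  | @move M P x hx hg hB ih =>
    refine Force.move (MP_7f1c6c_co.shear (-c) x) ?_ ?_ ?_
    · intro h
      obtain ⟨y, hy, hyx⟩ := Finset.mem_image.mp h
      have := shear_injective (-c) hyx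
      subst this
      exact hx hy
    · rw [← Finset.image_insert, gp_image_shear]
      exact hg
    · intro B hB1 hB2 hB3
      have e1 : insert (MP_7f1c6c_co.shear (-c) x) (M.image (MP_7f1c6c_co.shear (-c))) =
          (insert x M).image (MP_7f1c6c_co.shear (-c)) := by
        rw [Finset.image_insert]
      have e2 : insert (MP_7f1c6c_co.shear (-c) x) (P.image (MP_7f1c6c_co.shear (-c))) ∪ B =
          (insert x P ∪ B.image (MP_7f1c6c_co.shear c)).image (MP_7f1c6c_co.shear (-c)) := by
        rw [Finset.image_union, image_shear_image, Finset.image_insert]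
      rw [e1, e2]
      refine ih (B.image (MP_7f1c6c_co.shear c)) (Finset.card_image_le.trans hB1) ?_ ?_
      · rw [Finset.disjoint_left] at hB2 ⊢
        intro y hy hy'
        obtain ⟨z, hz, rfl⟩ := Finset.mem_image.mp hy
        apply hB2 hz
        rw [← Finset.image_insert]
        refine Finset.mem_image.mpr ⟨_, hy', ?_⟩
        exact shear_shear c z
      · rw [e2, gp_image_shear] at hB3
        exact hB3

end Pool.Agent.Lib.MP_7f1c6c_co
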