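import Pool.Agent.Lib.MP_7f1c6c_co.Endgame

/-!
# The gadget: building one star
-/

namespace Pool.Agent.Lib.MP_7f1c6c_co

/-- A configuration of candidate points for one star. -/
structure Config (N R K : ℕ) (V : Finset Plane) (a q : ℕ → Plane) : Prop where
  qpos : ∀ j < N, 0 < (q j).2
  on : ∀ i < R, ∀ j < N, ∃ τ : ℝ, 0 < τ ∧ τ < 1 ∧
    a i = ((pp (K + i + j)).1 + τ * ((q j).1 - (pp (K + i + j)).1),
      (pp (K + i + j)).2 + τ * ((q j).2 - (pp (K + i + j)).2))
  a3 : ∀ i < R, ∀ i' < R, ∀ i'' < R, i ≠ i' → i ≠ i'' → i' ≠ i'' →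
    dt (a i) (a i') (a i'') ≠ 0
  qa : ∀ j < N, ∀ i < R, ∀ i' < R, i ≠ i' → dt (q j) (a i) (a i') ≠ 0
  aq : ∀ i < R, ∀ j < N, ∀ j' < N, j ≠ j' → dt (a i) (q j) (q j') ≠ 0
  old2 : ∀ i < R, ∀ v ∈ V, ∀ v' ∈ V, v ≠ v' → dt v v' (a i) ≠ 0
  oldline : ∀ i < R, ∀ j < N, ∀ v ∈ V, dt (pp (K + i + j)) (q j) v ≠ 0
  spoil : ∀ z : Plane, z ∉ V → z.2 ≠ 0 → ∀ I : Finset ℕ,
    (∀ i ∈ I, i < R ∧ ∃ v ∈ V, dt v z (a i) = 0) → I.card ≤ 6

/-- Points of the line through `p ≠ p'` can be parametrised. -/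
theorem exists_param {p p' u : Plane} (hne : p ≠ p') (hu : dt p p' u = 0) :
    ∃ β : ℝ, u = (p.1 + β * (p'.1 - p.1), p.2 + β * (p'.2 - p.2)) := by
  have hsq : (p'.1 - p.1) ^ 2 + (p'.2 - p.2) ^ 2 ≠ 0 := by
    intro h0
    apply hne
    have h3 : p'.1 - p.1 = 0 := by
      nlinarith [sq_nonneg (p'.1 - p.1), sq_nonneg (p'.2 - p.2)]
    have h4 : p'.2 - p.2 = 0 := by
      nlinarith [sq_nonneg (p'.1 - p.1), sq_nonneg (p'.2 - p.2)]
    ext <;> linarith
  refine ⟨((u.1 - p.1) * (p'.1 - p.1) + (u.2 - p.2) * (p'.2 - p.2)) /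
    ((p'.1 - p.1) ^ 2 + (p'.2 - p.2) ^ 2), ?_⟩
  simp only [dt] at hu
  ext
  · simp only
    field_simp
    linear_combination (-(p'.2 - p.2)) * hu
  · simp only
    field_simp
    linear_combination (p'.1 - p.1) * hu

theorem dt_three {p p' u w x : Plane} (hne : p ≠ p') (hu : dt p p' u = 0)
    (hw : dt p p' w = 0) (hx : dt p p' x = 0) : dt u w x = 0 := by
  obtain ⟨α, rfl⟩ := exists_param hne hu
  obtain ⟨β, rfl⟩ := exists_param hne hw
  obtain ⟨γ, rfl⟩ := exists_param hne hx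
  simp only [dt]; ring

/-- Number of indices with a property of which no two are possible. -/
theorem card_le_one_of {I : Finset ℕ} (h : ∀ i ∈ I, ∀ i' ∈ I, i ≠ i' → False) :
    I.card ≤ 1 := by
  rw [Finset.card_le_one]
  intro i hi i' hi'
  by_contra hne
  exact h i hi i' hi' hne

theorem card_le_two_of {I : Finset ℕ} (h : ∀ i ∈ I, ∀ i' ∈ I, ∀ i'' ∈ I, i ≠ i' → i ≠ i'' →
    i' ≠ i'' → False) : I.card ≤ 2 := by
  by_contra hcon
  push Not at hcon
  obtain ⟨a, ha, b, hb, c, hc, hab, hac, hbc⟩ := Finset.two_lt_card.mp hcon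
  exact h a ha b hb c hc hab hac hbc

variable {s N R K : ℕ} {V : Finset Plane} {a q : ℕ → Plane}

theorem Config.on_dt (hC : Config N R K V a q) {i j : ℕ} (hi : i < R) (hj : j < N)
    (z : Plane) (hz : dt (pp (K + i + j)) (q j) z = 0) : dt (q j) (a i) z = 0 := by
  obtain ⟨τ, h1, h2, h3⟩ := hC.on i hi j hj
  have e : dt (q j) (a i) z = - (1 - τ) * dt (pp (K + i + j)) (q j) z := by
    rw [h3]; simp only [dt]; ring
  rw [e, hz]; ring

theorem Config.on_line (hC : Config N R K V a q) {i j : ℕ} (hi : i < R) (hj : j < N) :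
    dt (pp (K + i + j)) (q j) (a i) = 0 := by
  obtain ⟨τ, h1, h2, h3⟩ := hC.on i hi j hj
  rw [h3]; simp only [dt]; ring

theorem Config.pp_ne (hC : Config N R K V a q) {i j : ℕ} (hj : j < N) :
    pp (K + i + j) ≠ q j := by
  intro h
  have := hC.qpos j hj
  rw [← h] at this
  simp [pp] at this

/-- There is a good index. -/
theorem exists_good_index (hC : Config N R K V a q) {P : Finset Plane}
    (hN : 0 < N) {n : ℕ} (hn : (P \ V).card ≤ n) (hR : 7 * n + 2 * n ^ 2 + N * n < R)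
    (haxis : ∀ z ∈ P, z ∉ V → z.2 ≠ 0)
    {S : Finset ℕ} (hS : S ⊆ Finset.range N) (hSP : ∀ j ∈ S, q j ∉ P) :
    ∃ i < R, a i ∉ P ∧ (∀ p ∈ P, ∀ p' ∈ P, p ≠ p' → dt p p' (a i) ≠ 0) ∧
      ∀ j ∈ S, ∀ z ∈ P, dt (pp (K + i + j)) (q j) z ≠ 0 := by
  classical
  set F := P \ V with hF
  set Bad1 := F.biUnion (fun z => (Finset.range R).filter (fun i => a i = z)) with hB1
  set Bad2 := F.biUnion (fun z => (Finset.range R).filter
    (fun i => ∃ v ∈ V, dt v z (a i) = 0)) with hB2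
  set Bad3 := (F ×ˢ S).biUnion (fun zj => (Finset.range R).filter
    (fun i => dt (pp (K + i + zj.2)) (q zj.2) zj.1 = 0)) with hB3
  set Bad4 := (F ×ˢ F).biUnion (fun zz => (Finset.range R).filter
    (fun i => zz.1 ≠ zz.2 ∧ dt zz.1 zz.2 (a i) = 0)) with hB4
  have hmemF : ∀ z, z ∈ F ↔ z ∈ P ∧ z ∉ V := by
    intro z; rw [hF, Finset.mem_sdiff]
  have c1 : Bad1.card ≤ n * 1 := by
    refine (Finset.card_biUnion_le_card_mul _ _ 1 ?_).trans (Nat.mul_le_mul_right _ hn)
    intro z _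
    apply card_le_one_of
    intro i hi i' hi' hne
    rw [Finset.mem_filter, Finset.mem_range] at hi hi'
    apply hC.qa 0 hN i hi.1 i' hi'.1 hne
    rw [hi.2, hi'.2, dt_self_right]
  have c2 : Bad2.card ≤ n * 6 := by
    refine (Finset.card_biUnion_le_card_mul _ _ 6 ?_).trans (Nat.mul_le_mul_right _ hn)
    intro z hz
    rw [hmemF] at hz
    apply hC.spoil z hz.2 (haxis z hz.1 hz.2)
    intro i hi
    rw [Finset.mem_filter, Finset.mem_range] at hi
    exact hi
  have c3 : Bad3.card ≤ (n * N) * 1 := by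
    have hSN : S.card ≤ N := by
      have := Finset.card_le_card hS
      rwa [Finset.card_range] at this
    refine (Finset.card_biUnion_le_card_mul _ _ 1 ?_).trans (Nat.mul_le_mul_right _ ?_)
    · rintro ⟨z, j⟩ hzj
      rw [Finset.mem_product] at hzj
      obtain ⟨hz, hj⟩ := hzj
      simp only at hz hj
      rw [hmemF] at hz
      apply card_le_one_of
      intro i hi i' hi' hne
      rw [Finset.mem_filter, Finset.mem_range] at hi hi'
      simp only at hi hi'
      have hjN : j < N := Finset.mem_range.mp (hS hj)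
      have g1 := hC.on_dt hi.1 hjN z hi.2
      have g2 := hC.on_dt hi'.1 hjN z hi'.2
      have hqz : q j ≠ z := by
        rintro rfl; exact hSP j hj hz.1
      apply hC.qa j hjN i hi.1 i' hi'.1 hne
      have g3 : dt (q j) z (a i) = 0 := by rw [dt_swap', g1, neg_zero]
      have g4 : dt (q j) z (a i') = 0 := by rw [dt_swap', g2, neg_zero]
      exact dt_three hqz (dt_self_outer _ _) g3 g4
    · rw [Finset.card_product]
      exact Nat.mul_le_mul hn hSN
  have c4 : Bad4.card ≤ (n * n) * 2 := by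
    refine (Finset.card_biUnion_le_card_mul _ _ 2 ?_).trans (Nat.mul_le_mul_right _ ?_)
    · rintro ⟨z, z'⟩ hzz
      apply card_le_two_of
      intro i hi i' hi' i'' hi'' h1 h2 h3
      rw [Finset.mem_filter, Finset.mem_range] at hi hi' hi''
      simp only at hi hi' hi''
      exact hC.a3 i hi.1 i' hi'.1 i'' hi''.1 h1 h2 h3
        (dt_three hi.2.1 hi.2.2 hi'.2.2 hi''.2.2)
    · rw [Finset.card_product]
      exact Nat.mul_le_mul hn hn
  have hcard : (Bad1 ∪ Bad2 ∪ Bad3 ∪ Bad4).card < (Finset.range R).card := by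
    rw [Finset.card_range]
    have t1 := Finset.card_union_le Bad1 Bad2
    have t2 := Finset.card_union_le (Bad1 ∪ Bad2) Bad3
    have t3 := Finset.card_union_le (Bad1 ∪ Bad2 ∪ Bad3) Bad4
    have : n ^ 2 = n * n := sq n
    have : N * n = n * N := mul_comm _ _
    omega
  obtain ⟨i, hiR, hiB⟩ := Finset.exists_mem_notMem_of_card_lt_card hcard
  rw [Finset.mem_range] at hiR
  simp only [Finset.mem_union, not_or] at hiB
  obtain ⟨⟨⟨b1, b2⟩, b3⟩, b4⟩ := hiB
  have n1 : ∀ z ∈ F, a i ≠ z := by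
    intro z hz h
    exact b1 (Finset.mem_biUnion.mpr ⟨z, hz, Finset.mem_filter.mpr ⟨Finset.mem_range.mpr hiR, h⟩⟩)
  have n2 : ∀ z ∈ F, ∀ v ∈ V, dt v z (a i) ≠ 0 := by
    intro z hz v hv h
    exact b2 (Finset.mem_biUnion.mpr ⟨z, hz, Finset.mem_filter.mpr
      ⟨Finset.mem_range.mpr hiR, v, hv, h⟩⟩)
  have n3 : ∀ z ∈ F, ∀ j ∈ S, dt (pp (K + i + j)) (q j) z ≠ 0 := by
    intro z hz j hj h
    exact b3 (Finset.mem_biUnion.mpr ⟨(z, j), Finset.mem_product.mpr ⟨hz, hj⟩,
      Finset.mem_filter.mpr ⟨Finset.mem_range.mpr hiR, h⟩⟩)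
  have n4 : ∀ z ∈ F, ∀ z' ∈ F, z ≠ z' → dt z z' (a i) ≠ 0 := by
    intro z hz z' hz' hne h
    exact b4 (Finset.mem_biUnion.mpr ⟨(z, z'), Finset.mem_product.mpr ⟨hz, hz'⟩,
      Finset.mem_filter.mpr ⟨Finset.mem_range.mpr hiR, hne, h⟩⟩)
  refine ⟨i, hiR, ?_, ?_, ?_⟩
  · intro hmem
    by_cases hv : a i ∈ V
    · exact hC.oldline i hiR 0 hN _ hv (hC.on_line hiR hN)
    · exact n1 (a i) ((hmemF _).mpr ⟨hmem, hv⟩) rfl
  · intro p hp p' hp' hne
    by_cases hv : p ∈ V
    · by_cases hv' : p' ∈ V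
      · exact hC.old2 i hiR p hv p' hv' hne
      · exact n2 p' ((hmemF _).mpr ⟨hp', hv'⟩) p hv
    · by_cases hv' : p' ∈ V
      · rw [dt_swap, neg_ne_zero]
        exact n2 p ((hmemF _).mpr ⟨hp, hv⟩) p' hv'
      · exact n4 p ((hmemF _).mpr ⟨hp, hv⟩) p' ((hmemF _).mpr ⟨hp', hv'⟩) hne
  · intro j hj z hz
    by_cases hv : z ∈ V
    · exact hC.oldline i hiR j (Finset.mem_range.mp (hS hj)) z hv
    · exact n3 z ((hmemF _).mpr ⟨hz, hv⟩) j hj

/-- A generic point on the part of a line between `a` and `q`. -/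
theorem exists_generic_on_line {P : Finset Plane} {p q x : Plane}
    (hP : GP P) (hpq : p ≠ q) {τ : ℝ} (hτ : τ < 1)
    (hx : x = (p.1 + τ * (q.1 - p.1), p.2 + τ * (q.2 - p.2)))
    (hline : ∀ z ∈ P, dt p q z = 0 → z = x) :
    ∃ tb, τ < tb ∧ tb < 1 ∧
      ((p.1 + tb * (q.1 - p.1), p.2 + tb * (q.2 - p.2)) : Plane) ∉ P ∧
      GP (insert ((p.1 + tb * (q.1 - p.1), p.2 + tb * (q.2 - p.2)) : Plane) P) := by
  set S : Set ℝ := ⋃ u ∈ P, ⋃ w ∈ P, {t : ℝ | u ≠ w ∧
    dt u w (p.1 + t * (q.1 - p.1), p.2 + t * (q.2 - p.2)) = 0} with hS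
  have hSfin : S.Finite := by
    refine Set.Finite.biUnion P.finite_toSet ?_
    intro u hu
    refine Set.Finite.biUnion P.finite_toSet ?_
    intro w hw
    by_cases huw : u = w
    · refine Set.finite_empty.subset ?_
      intro t ht
      exact absurd huw ht.1
    · have h3 : (dt u w q - dt u w p) ≠ 0 ∨ dt u w p ≠ 0 := by
        by_contra hcon
        push Not at hcon
        have hp0 : dt u w p = 0 := hcon.2
        have hq0 : dt u w q = 0 := by linarith [hcon.1]
        have g1 : dt p q u = 0 := dt_three huw hp0 hq0 (dt_self_outer _ _)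
        have g2 : dt p q w = 0 := dt_three huw hp0 hq0 (dt_self_right _ _)
        exact huw ((hline u hu g1).trans (hline w hw g2).symm)
      refine (finite_affine h3).subset ?_
      intro t ht
      have h4 := ht.2
      simp only [Set.mem_ofPred_eq]
      rw [← h4]
      simp only [dt]; ring
  obtain ⟨tb, h1, h2, h3⟩ := exists_Ioo_notMem hSfin hτ
  refine ⟨tb, h1, h2, ?_, ?_⟩
  · intro hmem
    have h4 := hline _ hmem (by simp only [dt]; ring)
    rw [hx, Prod.ext_iff] at h4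
    simp only at h4
    apply hpq
    have h5 : (tb - τ) * (q.1 - p.1) = 0 := by linarith [h4.1]
    have h6 : (tb - τ) * (q.2 - p.2) = 0 := by linarith [h4.2]
    have h7 : tb - τ ≠ 0 := by linarith [sub_pos.mpr h1]
    have h8 := (mul_eq_zero.mp h5).resolve_left h7
    have h9 := (mul_eq_zero.mp h6).resolve_left h7
    ext <;> linarith
  · apply gp_insert hP
    intro u hu w hw huw h0
    apply h3
    exact Set.mem_biUnion hu (Set.mem_biUnion hw ⟨huw, h0⟩)

/-- An established line of the gadget. -/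
def Est (K : ℕ) (a q : ℕ → Plane) (M : Finset Plane) (i j : ℕ) : Prop :=
  a i ∈ M ∧ ∃ b ∈ M, Btw (pp (K + i + j)) (a i) b (q j)

theorem Est.mono {M M' : Finset Plane} {i j : ℕ} (h : Est K a q M i j) (hM : M ⊆ M') :
    Est K a q M' i j := by
  obtain ⟨h1, b, h2, h3⟩ := h
  exact ⟨hM h1, b, hM h2, h3⟩

/-- Two rounds: one more line of the gadget gets established. -/
theorem gadget_two_rounds (hC : Config N R K V a q) {M P : Finset Plane}
    (hv : Valid M P) (hN : 0 < N) {n : ℕ} (hn : (P \ V).card ≤ n)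
    (hR : 7 * n + 2 * n ^ 2 + N * n < R)
    (haxis : ∀ z ∈ P, z ∉ V → z.2 ≠ 0)
    {S : Finset ℕ} (hS : S ⊆ Finset.range N) (hSP : ∀ j ∈ S, q j ∉ P) (hcard : s + 1 ≤ S.card) :
    Force s (fun M' P' => (P' \ P).card ≤ 2 * (s + 1) ∧
      ∃ i < R, a i ∉ P ∧ ∃ j ∈ S, Est K a q M' i j) M P := by
  classical
  obtain ⟨i, hiR, hiP, hi2, hiL⟩ := exists_good_index hC hN hn hR haxis hS hSP
  refine Force.move (a i) hiP (gp_insert hv.2 hi2) ?_
  intro B hB1 hB2 hB3
  have hv1 := hv.next hB3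
  -- choose an unblocked line
  have hex : ∃ j ∈ S, ∀ z ∈ B, dt (pp (K + i + j)) (q j) z ≠ 0 := by
    by_contra hcon
    push Not at hcon
    choose! z hz hz0 using hcon
    have hinj : Set.InjOn z (S : Set ℕ) := by
      intro j hj j' hj' heq
      by_contra hne
      have hjN : j < N := Finset.mem_range.mp (hS hj)
      have hjN' : j' < N := Finset.mem_range.mp (hS hj')
      have g1 := hC.on_dt hiR hjN _ (hz0 j hj)
      have g2 := hC.on_dt hiR hjN' _ (hz0 j' hj')
      rw [← heq] at g2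
      have hne' : a i ≠ z j := by
        intro h
        have := Finset.disjoint_left.mp hB2 (hz j hj)
        rw [← h] at this
        exact this (Finset.mem_insert_self _ _)
      have g3 : dt (a i) (z j) (q j) = 0 := by rw [← dt_rot]; exact g1
      have g4 : dt (a i) (z j) (q j') = 0 := by rw [← dt_rot]; exact g2
      exact hC.aq i hiR j hjN j' hjN' hne (dt_three hne' (dt_self_outer _ _) g3 g4)
    have := Finset.card_le_card_of_injOn z (fun j hj => hz j hj) hinj
    omega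
  obtain ⟨j, hjS, hjB⟩ := hex
  have hjN : j < N := Finset.mem_range.mp (hS hjS)
  obtain ⟨τ, hτ0, hτ1, hτ⟩ := hC.on i hiR j hjN
  obtain ⟨tb, ht1, ht2, hbP, hbG⟩ := exists_generic_on_line (P := insert (a i) P ∪ B)
    (p := pp (K + i + j)) (q := q j) (x := a i) hB3 (hC.pp_ne hjN) hτ1 hτ (by
      intro z hz h0
      rw [Finset.mem_union, Finset.mem_insert] at hz
      rcases hz with (rfl | hz) | hz
      · rfl
      · exact absurd h0 (hiL j hjS z hz)
      · exact absurd h0 (hjB z hz))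
  refine Force.move _ hbP hbG ?_
  intro B' hB1' hB2' hB3'
  refine Force.done ⟨?_, i, hiR, hiP, j, hjS, ?_, _, ?_, τ, tb, hτ0, ht1, ht2, hτ, rfl⟩
  · have c1 := card_next (x := a i) (Q := P) (P := P) (n := 0) hB1 (by simp)
    have c2 := card_next (x := (((pp (K + i + j)).1 + tb * ((q j).1 - (pp (K + i + j)).1),
      (pp (K + i + j)).2 + tb * ((q j).2 - (pp (K + i + j)).2)) : Plane)) hB1' c1
    calc _ ≤ 0 + (s + 1) + (s + 1) := c2
      _ = 2 * (s + 1) := by ring
  · exact Finset.mem_insert_of_mem (Finset.mem_insert_self _ _)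
  · exact Finset.mem_insert_self _ _

/-- At least `m` lines through `q j` are established. -/
def Lv (K R : ℕ) (a q : ℕ → Plane) (m : ℕ) (M : Finset Plane) (j : ℕ) : Prop :=
  ∃ I : Finset ℕ, I.card = m ∧ ∀ i ∈ I, i < R ∧ Est K a q M i j

theorem Lv.mono {m : ℕ} {M M' : Finset Plane} {j : ℕ} (h : Lv K R a q m M j) (hM : M ⊆ M') :
    Lv K R a q m M' j := by
  obtain ⟨I, h1, h2⟩ := h
  exact ⟨I, h1, fun i hi => ⟨(h2 i hi).1, (h2 i hi).2.mono hM⟩⟩

/-- State of the level raising process. -/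
def LS (N R K : ℕ) (V : Finset Plane) (a q : ℕ → Plane) (m k1 k2 n : ℕ)
    (M P : Finset Plane) : Prop :=
  V ⊆ P ∧ (P \ V).card ≤ n ∧ ∃ S1 S2 : Finset ℕ, S1 ⊆ Finset.range N ∧
    S2 ⊆ Finset.range N ∧ Disjoint S1 S2 ∧ k1 ≤ S1.card ∧ k2 ≤ S2.card ∧
    (∀ j ∈ S1, q j ∉ P ∧ Lv K R a q m M j) ∧ ∀ j ∈ S2, Lv K R a q (m + 1) M j

theorem Config.q_inj (hC : Config N R K V a q) (hR : 0 < R) {j j' : ℕ} (hj : j < N)
    (hj' : j' < N) (h : q j = q j') : j = j' := by
  by_contra hne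
  apply hC.aq 0 hR j hj j' hj' hne
  rw [h, dt_self_right]

theorem axis_of_gp {P : Finset Plane} (hP : GP P) {c d : Plane} (hc : c ∈ P) (hd : d ∈ P)
    (hcd : c ≠ d) (hc2 : c.2 = 0) (hd2 : d.2 = 0) {z : Plane} (hz : z ∈ P) (hzc : z ≠ c)
    (hzd : z ≠ d) : z.2 ≠ 0 := by
  intro h
  apply hP c hc d hd z hz hcd (Ne.symm hzc) (Ne.symm hzd)
  simp only [dt]
  rw [hc2, hd2, h]; ring

theorem ls_step (hC : Config N R K V a q) {c d : Plane} (hc : c ∈ V) (hd : d ∈ V)
    (hcd : c ≠ d) (hc2 : c.2 = 0) (hd2 : d.2 = 0) {m k1 k2 n : ℕ} {M P : Finset Plane}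
    (hv : Valid M P) (hk1 : s + 1 ≤ k1) (hR : 7 * n + 2 * n ^ 2 + N * n < R)
    (h : LS N R K V a q m k1 k2 n M P) :
    Force s (LS N R K V a q m (k1 - (2 * s + 3)) (k2 + 1) (n + 2 * (s + 1))) M P := by
  classical
  obtain ⟨hVP, hn, S1, S2, hS1, hS2, hdis, hc1, hc2', hl1, hl2⟩ := h
  have hN : 0 < N := by
    by_contra h0
    have : N = 0 := by omega
    subst this
    have := Finset.card_le_card hS1
    rw [Finset.card_range] at this
    omega
  have hR0 : 0 < R := by omega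
  have haxis : ∀ z ∈ P, z ∉ V → z.2 ≠ 0 := by
    intro z hz hzV
    refine axis_of_gp hv.2 (hVP hc) (hVP hd) hcd hc2 hd2 hz ?_ ?_
    · rintro rfl; exact hzV hc
    · rintro rfl; exact hzV hd
  have hF := gadget_two_rounds (s := s) hC hv hN hn hR haxis hS1 (fun j hj => (hl1 j hj).1)
    (by omega)
  refine hF.mono hv ?_
  rintro M' P' hv' hM hP ⟨hcard, i, hi, hiP, j, hj, hest⟩
  refine ⟨hVP.trans hP, ?_, (S1.erase j).filter (fun j' => q j' ∉ P'), insert j S2,
    ?_, ?_, ?_, ?_, ?_, ?_, ?_⟩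
  · have h1 : P' \ V ⊆ (P' \ P) ∪ (P \ V) := by
      intro y hy
      simp only [Finset.mem_sdiff, Finset.mem_union] at hy ⊢
      tauto
    have h2 := Finset.card_le_card h1
    have h3 := Finset.card_union_le (P' \ P) (P \ V)
    omega
  · exact (Finset.filter_subset _ _).trans ((Finset.erase_subset _ _).trans hS1)
  · intro y hy
    rw [Finset.mem_insert] at hy
    rcases hy with rfl | hy
    · exact hS1 hj
    · exact hS2 hy
  · rw [Finset.disjoint_left] at hdis ⊢
    intro y hy hy'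
    rw [Finset.mem_filter, Finset.mem_erase] at hy
    rw [Finset.mem_insert] at hy'
    rcases hy' with rfl | hy'
    · exact hy.1.1 rfl
    · exact hdis hy.1.2 hy'
  · have h1 : S1 ⊆ ((S1.erase j).filter (fun j' => q j' ∉ P')) ∪
        ({j} ∪ S1.filter (fun j' => q j' ∈ P')) := by
      intro y hy
      simp only [Finset.mem_union, Finset.mem_filter, Finset.mem_erase, Finset.mem_singleton]
      tauto
    have h2 : (S1.filter (fun j' => q j' ∈ P')).card ≤ (P' \ P).card := by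
      refine Finset.card_le_card_of_injOn q ?_ ?_
      · intro y hy
        have hy' := Finset.mem_filter.mp hy
        exact Finset.mem_coe.mpr (Finset.mem_sdiff.mpr ⟨hy'.2, (hl1 y hy'.1).1⟩)
      · intro y hy y' hy' heq
        have h3 := Finset.mem_filter.mp hy
        have h4 := Finset.mem_filter.mp hy'
        exact hC.q_inj hR0 (Finset.mem_range.mp (hS1 h3.1)) (Finset.mem_range.mp (hS1 h4.1)) heq
    have h5 := Finset.card_le_card h1
    have h6 := Finset.card_union_le ((S1.erase j).filter (fun j' => q j' ∉ P'))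
      ({j} ∪ S1.filter (fun j' => q j' ∈ P'))
    have h7 := Finset.card_union_le {j} (S1.filter (fun j' => q j' ∈ P'))
    rw [Finset.card_singleton] at h7
    omega
  · rw [Finset.card_insert_of_notMem]
    · omega
    · exact Finset.disjoint_left.mp hdis hj
  · intro y hy
    rw [Finset.mem_filter, Finset.mem_erase] at hy
    exact ⟨hy.2, (hl1 y hy.1.2).2.mono hM⟩
  · intro y hy
    rw [Finset.mem_insert] at hy
    rcases hy with rfl | hy
    · obtain ⟨I, hI1, hI2⟩ := (hl1 y hj).2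
      refine ⟨insert i I, ?_, ?_⟩
      · rw [Finset.card_insert_of_notMem, hI1]
        intro hiI
        exact hiP (hv.1 (hI2 i hiI).2.1)
      · intro i' hi'
        rw [Finset.mem_insert] at hi'
        rcases hi' with rfl | hi'
        · exact ⟨hi, hest⟩
        · exact ⟨(hI2 i' hi').1, (hI2 i' hi').2.mono hM⟩
    · exact (hl2 y hy).mono hM

theorem ls_iter (hC : Config N R K V a q) {c d : Plane} (hc : c ∈ V) (hd : d ∈ V)
    (hcd : c ≠ d) (hc2 : c.2 = 0) (hd2 : d.2 = 0) {m k n nm : ℕ} {M P : Finset Plane}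
    (hv : Valid M P) (hnm : n + 2 * (s + 1) * k ≤ nm)
    (hR : 7 * nm + 2 * nm ^ 2 + N * nm < R)
    (h : LS N R K V a q m ((2 * s + 3) * k) 0 n M P) (t : ℕ) (ht : t ≤ k) :
    Force s (LS N R K V a q m ((2 * s + 3) * (k - t)) t (n + 2 * (s + 1) * t)) M P := by
  induction t with
  | zero => exact Force.done (by simpa using h)
  | succ t ih =>
    refine (ih (by omega)).bind hv ?_
    intro M' P' hv' _ _ hG
    have hle : n + 2 * (s + 1) * t ≤ nm := by
      have : 2 * (s + 1) * t ≤ 2 * (s + 1) * k := Nat.mul_le_mul_left _ (by omega)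
      omega
    have hstep := ls_step (s := s) hC hc hd hcd hc2 hd2 hv' (k1 := (2 * s + 3) * (k - t))
      (k2 := t) (n := n + 2 * (s + 1) * t) (m := m) (by
        have : 1 ≤ k - t := by omega
        nlinarith) (by
        have h1 : (n + 2 * (s + 1) * t) ^ 2 ≤ nm ^ 2 := Nat.pow_le_pow_left hle 2
        have h2 : N * (n + 2 * (s + 1) * t) ≤ N * nm := Nat.mul_le_mul_left _ hle
        omega) hG
    refine hstep.mono hv' ?_
    intro M'' P'' _ _ _ hG'
    have e1 : (2 * s + 3) * (k - t) - (2 * s + 3) = (2 * s + 3) * (k - (t + 1)) := by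
      have : k - t = (k - (t + 1)) + 1 := by omega
      rw [this]; ring_nf; omega
    have e2 : n + 2 * (s + 1) * t + 2 * (s + 1) = n + 2 * (s + 1) * (t + 1) := by ring
    rw [e1, e2] at hG'
    exact hG'

/-- Points with an established line through them cannot be occupied. -/
theorem protected_of_est (hC : Config N R K V a q) {M P : Finset Plane} (hv : Valid M P)
    {i j : ℕ} (hj : j < N) (h : Est K a q M i j) : q j ∉ P := by
  obtain ⟨ha, b, hb, ta, tb, h1, h2, h3, h4, h5⟩ := h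
  intro hq
  have hne : pp (K + i + j) ≠ q j := hC.pp_ne hj
  have key : ∀ t t' : ℝ, t ≠ t' →
      ((pp (K + i + j)).1 + t * ((q j).1 - (pp (K + i + j)).1),
        (pp (K + i + j)).2 + t * ((q j).2 - (pp (K + i + j)).2)) ≠
      ((pp (K + i + j)).1 + t' * ((q j).1 - (pp (K + i + j)).1),
        (pp (K + i + j)).2 + t' * ((q j).2 - (pp (K + i + j)).2)) := by
    intro t t' htt heq
    rw [Prod.ext_iff] at heq
    simp only at heq
    apply hne
    have h5 : (t - t') * ((q j).1 - (pp (K + i + j)).1) = 0 := by linarith [heq.1]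
    have h6 : (t - t') * ((q j).2 - (pp (K + i + j)).2) = 0 := by linarith [heq.2]
    have h7 : t - t' ≠ 0 := sub_ne_zero.mpr htt
    have h8 := (mul_eq_zero.mp h5).resolve_left h7
    have h9 := (mul_eq_zero.mp h6).resolve_left h7
    ext <;> linarith
  have n1 : a i ≠ b := by rw [h4, h5]; exact key ta tb h2.ne
  have n2 : a i ≠ q j := by
    have := key ta 1 (by linarith)
    rw [h4]
    simpa using this
  have n3 : b ≠ q j := by
    have := key tb 1 (by linarith)
    rw [h5]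
    simpa using this
  apply hv.2 (a i) (hv.1 ha) b (hv.1 hb) (q j) hq n1 n2 n3
  rw [h4, h5]; simp only [dt]; ring

theorem ls_convert (hC : Config N R K V a q) {m k n : ℕ} {M P : Finset Plane}
    (hv : Valid M P) (h : LS N R K V a q m 0 k n M P) : LS N R K V a q (m + 1) k 0 n M P := by
  obtain ⟨hVP, hn, S1, S2, hS1, hS2, hdis, hc1, hc2', hl1, hl2⟩ := h
  refine ⟨hVP, hn, S2, ∅, hS2, by simp, by simp, hc2', by simp, ?_, by simp⟩
  intro j hj
  refine ⟨?_, hl2 j hj⟩
  obtain ⟨I, hI1, hI2⟩ := hl2 j hj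
  have hne : I.Nonempty := by rw [← Finset.card_pos]; omega
  obtain ⟨i, hi⟩ := hne
  exact protected_of_est hC hv (Finset.mem_range.mp (hS2 hj)) (hI2 i hi).2

theorem ls_levels (hC : Config N R K V a q) {c d : Plane} (hc : c ∈ V) (hd : d ∈ V)
    (hcd : c ≠ d) (hc2 : c.2 = 0) (hd2 : d.2 = 0) {M : Finset Plane}
    (hv : Valid M V) (hN : N = (2 * s + 3) ^ (s + 1)) {nm : ℕ}
    (hnm : 2 * (s + 1) * (s + 1) * N ≤ nm)
    (hR : 7 * nm + 2 * nm ^ 2 + N * nm < R) (m : ℕ) (hm : m ≤ s + 1) :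
    Force s (LS N R K V a q m ((2 * s + 3) ^ (s + 1 - m)) 0 (2 * (s + 1) * m * N)) M V := by
  have hN0 : 0 < N := by rw [hN]; positivity
  have hR0 : 0 < R := by omega
  induction m with
  | zero =>
    refine Force.done ⟨Finset.Subset.refl _, by simp, Finset.range N, ∅,
      Finset.Subset.refl _, by simp, by simp, by rw [Finset.card_range, hN]; simp, by simp, ?_,
      by simp⟩
    intro j hj
    refine ⟨?_, ∅, by simp, by simp⟩
    intro hmem
    exact hC.oldline 0 hR0 j (Finset.mem_range.mp hj) (q j) hmem (dt_self_right _ _)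
  | succ m ih =>
    refine (ih (by omega)).bind hv ?_
    intro M' P' hv' _ _ hG
    have e1 : (2 * s + 3) ^ (s + 1 - m) = (2 * s + 3) * (2 * s + 3) ^ (s + 1 - (m + 1)) := by
      have : s + 1 - m = (s + 1 - (m + 1)) + 1 := by omega
      rw [this, pow_succ]; ring
    rw [e1] at hG
    have hkN : (2 * s + 3) ^ (s + 1 - (m + 1)) ≤ N := by
      rw [hN]; exact Nat.pow_le_pow_right (by omega) (by omega)
    have hb : 2 * (s + 1) * m * N + 2 * (s + 1) * (2 * s + 3) ^ (s + 1 - (m + 1)) ≤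
        2 * (s + 1) * (m + 1) * N := by
      calc _ ≤ 2 * (s + 1) * m * N + 2 * (s + 1) * N :=
            Nat.add_le_add_left (Nat.mul_le_mul_left _ hkN) _
        _ = 2 * (s + 1) * (m + 1) * N := by ring
    have hb2 : 2 * (s + 1) * (m + 1) * N ≤ nm := by
      refine le_trans ?_ hnm
      exact Nat.mul_le_mul_right _ (Nat.mul_le_mul_left _ hm)
    have hit := ls_iter (s := s) hC hc hd hcd hc2 hd2 hv' (hb.trans hb2) hR hG _ le_rfl
    refine hit.mono hv' ?_
    intro M'' P'' hv'' _ _ hG'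
    rw [Nat.sub_self, Nat.mul_zero] at hG'
    have := ls_convert hC hv'' hG'
    obtain ⟨g1, g2, g3⟩ := this
    exact ⟨g1, g2.trans hb, g3⟩

/-- A star with centre `Q`, all of whose lines avoid the points of `V`. -/
def StarAt (s r : ℕ) (V M : Finset Plane) (Q : Plane) : Prop :=
  0 < Q.2 ∧ ∃ X : Finset ℕ, X.card = s + 1 ∧ X ⊆ Finset.range r ∧
    ∃ A B : ℕ → Plane, ∀ n ∈ X, A n ∈ M ∧ B n ∈ M ∧ Btw (pp n) (A n) (B n) Q ∧
      ∀ v ∈ V, dt (pp n) Q v ≠ 0

theorem gadget_star (hC : Config N R K V a q) {c d : Plane} (hc : c ∈ V) (hd : d ∈ V)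
    (hcd : c ≠ d) (hc2 : c.2 = 0) (hd2 : d.2 = 0) {M : Finset Plane}
    (hv : Valid M V) (hN : N = (2 * s + 3) ^ (s + 1)) {nm : ℕ}
    (hnm : 2 * (s + 1) * (s + 1) * N ≤ nm)
    (hR : 7 * nm + 2 * nm ^ 2 + N * nm < R) {h : ℝ} (hh : ∀ j < N, (q j).2 < h) :
    Force s (fun M' _ => ∃ Q, Q.2 < h ∧ StarAt s (K + R + N) V M' Q) M V := by
  classical
  refine (ls_levels (s := s) hC hc hd hcd hc2 hd2 hv hN hnm hR (s + 1) le_rfl).mono hv ?_
  rintro M' P' hv' _ _ ⟨hVP, hn, S1, S2, hS1, hS2, hdis, hc1, hc2', hl1, hl2⟩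
  have hne : S1.Nonempty := by
    rw [← Finset.card_pos]
    have : 0 < (2 * s + 3) ^ (s + 1 - (s + 1)) := by positivity
    omega
  obtain ⟨j, hj⟩ := hne
  have hjN := Finset.mem_range.mp (hS1 hj)
  obtain ⟨-, I, hI1, hI2⟩ := hl1 j hj
  have hI3 : ∀ i ∈ I, ∃ b ∈ M', Btw (pp (K + i + j)) (a i) b (q j) := fun i hi => (hI2 i hi).2.2
  choose! b hb1 hb2 using hI3
  refine ⟨q j, hh j hjN, hC.qpos j hjN, I.image (fun i => K + i + j), ?_, ?_,
    fun n => a (n - K - j), fun n => b (n - K - j), ?_⟩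
  · rw [Finset.card_image_of_injective _ (fun x y h => by simpa using h), hI1]
  · intro n hn
    obtain ⟨i, hi, rfl⟩ := Finset.mem_image.mp hn
    have := (hI2 i hi).1
    rw [Finset.mem_range]
    omega
  · intro n hn
    obtain ⟨i, hi, rfl⟩ := Finset.mem_image.mp hn
    have e : K + i + j - K - j = i := by omega
    simp only [e]
    refine ⟨(hI2 i hi).2.1, hb1 i hi, hb2 i hi, ?_⟩
    intro v hvV
    exact hC.oldline i (hI2 i hi).1 j hjN v hvV

end Pool.Agent.Lib.MP_7f1c6c_co
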