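import Pool.Agent.Lib.MP_7f1c6c_co.Force

/-!
# The last move: an empty quadrilateral of Maker's points wins
-/

namespace Pool.Agent.Lib.MP_7f1c6c_co

theorem dt_combo (u v p q : Plane) (a b : ℝ) (hab : a + b = 1) :
    dt u v (a • p + b • q) = a * dt u v p + b * dt u v q := by
  simp only [dt, Prod.fst_add, Prod.snd_add, Prod.smul_fst, Prod.smul_snd, smul_eq_mul]
  have hb' : b = 1 - a := by linarith
  rw [hb']; ring

theorem dt_nonneg_of_mem_hull {H : Set Plane} {u v : Plane}
    (hH : ∀ p ∈ H, 0 ≤ dt u v p) {z : Plane} (hz : z ∈ convexHull ℝ H) :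
    0 ≤ dt u v z := by
  have hconv : Convex ℝ {p : Plane | 0 ≤ dt u v p} := by
    intro p hp q hq a b ha hb hab
    simp only [Set.mem_ofPred_eq] at hp hq ⊢
    rw [dt_combo u v p q a b hab]; positivity
  exact convexHull_min hH hconv hz

theorem ne_of_dt_pos {a b c : Plane} (h : 0 < dt a b c) : a ≠ b ∧ b ≠ c ∧ c ≠ a := by
  refine ⟨?_, ?_, ?_⟩
  · rintro rfl; rw [dt_self_left] at h; exact lt_irrefl _ h
  · rintro rfl; rw [dt_self_right] at h; exact lt_irrefl _ h
  · rintro rfl; rw [dt_self_outer] at h; exact lt_irrefl _ h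

/-- Five points in convex position (counterclockwise) with empty interior form a `5`-hole. -/
theorem hole5 {P : Finset Plane} {w1 w2 w3 w4 w5 : Plane}
    (h123 : 0 < dt w1 w2 w3) (h124 : 0 < dt w1 w2 w4) (h125 : 0 < dt w1 w2 w5)
    (h134 : 0 < dt w1 w3 w4) (h135 : 0 < dt w1 w3 w5) (h145 : 0 < dt w1 w4 w5)
    (h234 : 0 < dt w2 w3 w4) (h235 : 0 < dt w2 w3 w5) (h245 : 0 < dt w2 w4 w5)
    (h345 : 0 < dt w3 w4 w5)
    (m1 : w1 ∈ P) (m2 : w2 ∈ P) (m3 : w3 ∈ P) (m4 : w4 ∈ P) (m5 : w5 ∈ P)
    (hempty : ∀ z ∈ P, ¬ (0 < dt w1 w2 z ∧ 0 < dt w2 w3 z ∧ 0 < dt w3 w4 z ∧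
      0 < dt w4 w5 z ∧ 0 < dt w5 w1 z)) :
    IsHole 5 P {w1, w2, w3, w4, w5} := by
  obtain ⟨n12, n23, n31⟩ := ne_of_dt_pos h123
  obtain ⟨n14, n45, n51⟩ := ne_of_dt_pos h145
  obtain ⟨n24, -, n52⟩ := ne_of_dt_pos h245
  obtain ⟨n34, -, n53⟩ := ne_of_dt_pos h345
  have key : ∀ p ∈ ({w1, w2, w3, w4, w5} : Set Plane), ∃ u v : Plane, dt u v p < 0 ∧
      ∀ q ∈ ({w1, w2, w3, w4, w5} : Set Plane) \ {p}, 0 ≤ dt u v q := by
    intro p hp
    simp only [Set.mem_insert_iff, Set.mem_singleton_iff] at hp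
    rcases hp with rfl | rfl | rfl | rfl | rfl
    · refine ⟨w5, w2, ?_, ?_⟩
      · rw [dt_rot, dt_rot, dt_swap', neg_lt_zero]; exact h125
      · rintro q ⟨hq, hqp⟩
        simp only [Set.mem_insert_iff, Set.mem_singleton_iff] at hq hqp
        rcases hq with rfl | rfl | rfl | rfl | rfl
        · exact absurd rfl hqp
        · rw [dt_self_right]
        · rw [dt_rot]; exact h235.le
        · rw [dt_rot]; exact h245.le
        · rw [dt_self_outer]
    · refine ⟨w1, w3, ?_, ?_⟩
      · rw [dt_swap', neg_lt_zero]; exact h123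
      · rintro q ⟨hq, hqp⟩
        simp only [Set.mem_insert_iff, Set.mem_singleton_iff] at hq hqp
        rcases hq with rfl | rfl | rfl | rfl | rfl
        · rw [dt_self_outer]
        · exact absurd rfl hqp
        · rw [dt_self_right]
        · exact h134.le
        · exact h135.le
    · refine ⟨w2, w4, ?_, ?_⟩
      · rw [dt_swap', neg_lt_zero]; exact h234
      · rintro q ⟨hq, hqp⟩
        simp only [Set.mem_insert_iff, Set.mem_singleton_iff] at hq hqp
        rcases hq with rfl | rfl | rfl | rfl | rfl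
        · rw [dt_rot, dt_rot]; exact h124.le
        · rw [dt_self_outer]
        · exact absurd rfl hqp
        · rw [dt_self_right]
        · exact h245.le
    · refine ⟨w3, w5, ?_, ?_⟩
      · rw [dt_swap', neg_lt_zero]; exact h345
      · rintro q ⟨hq, hqp⟩
        simp only [Set.mem_insert_iff, Set.mem_singleton_iff] at hq hqp
        rcases hq with rfl | rfl | rfl | rfl | rfl
        · rw [dt_rot, dt_rot]; exact h135.le
        · rw [dt_rot, dt_rot]; exact h235.le
        · rw [dt_self_outer]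
        · exact absurd rfl hqp
        · rw [dt_self_right]
    · refine ⟨w4, w1, ?_, ?_⟩
      · rw [dt_rot, dt_swap', neg_lt_zero]; exact h145
      · rintro q ⟨hq, hqp⟩
        simp only [Set.mem_insert_iff, Set.mem_singleton_iff] at hq hqp
        rcases hq with rfl | rfl | rfl | rfl | rfl
        · rw [dt_self_right]
        · rw [dt_rot]; exact h124.le
        · rw [dt_rot]; exact h134.le
        · rw [dt_self_outer]
        · exact absurd rfl hqp
  refine ⟨?_, ?_, ?_, ?_⟩
  · intro p hp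
    simp only [Finset.mem_insert, Finset.mem_singleton] at hp
    rcases hp with rfl | rfl | rfl | rfl | rfl <;> assumption
  · rw [Finset.card_insert_of_notMem, Finset.card_insert_of_notMem,
      Finset.card_insert_of_notMem, Finset.card_insert_of_notMem, Finset.card_singleton]
    · simpa using n45
    · simpa using ⟨n34, n53.symm⟩
    · simpa using ⟨n23, n24, n52.symm⟩
    · simpa using ⟨n12, n31.symm, n14, n51.symm⟩
  · have hcoe : (({w1, w2, w3, w4, w5} : Finset Plane) : Set Plane) =
        {w1, w2, w3, w4, w5} := by simp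
    have := (convexIndependent_set_iff_notMem_convexHull_sdiff (𝕜 := ℝ)
      (s := (({w1, w2, w3, w4, w5} : Finset Plane) : Set Plane))).mpr
    refine this ?_
    rw [hcoe]
    intro p hp hmem
    obtain ⟨u, v, h1, h2⟩ := key p hp
    exact absurd (dt_nonneg_of_mem_hull h2 hmem) (not_le.mpr h1)
  · intro z hz hzi
    have hcoe : (({w1, w2, w3, w4, w5} : Finset Plane) : Set Plane) =
        {w1, w2, w3, w4, w5} := by simp
    rw [hcoe] at hzi
    refine hempty z hz ⟨?_, ?_, ?_, ?_, ?_⟩
    · refine dt_pos_of_mem_interior n12 ?_ hzi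
      intro q hq
      simp only [Set.mem_insert_iff, Set.mem_singleton_iff] at hq
      rcases hq with rfl | rfl | rfl | rfl | rfl
      · rw [dt_self_outer]
      · rw [dt_self_right]
      · exact h123.le
      · exact h124.le
      · exact h125.le
    · refine dt_pos_of_mem_interior n23 ?_ hzi
      intro q hq
      simp only [Set.mem_insert_iff, Set.mem_singleton_iff] at hq
      rcases hq with rfl | rfl | rfl | rfl | rfl
      · rw [dt_rot, dt_rot]; exact h123.le
      · rw [dt_self_outer]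
      · rw [dt_self_right]
      · exact h234.le
      · exact h235.le
    · refine dt_pos_of_mem_interior n34 ?_ hzi
      intro q hq
      simp only [Set.mem_insert_iff, Set.mem_singleton_iff] at hq
      rcases hq with rfl | rfl | rfl | rfl | rfl
      · rw [dt_rot, dt_rot]; exact h134.le
      · rw [dt_rot, dt_rot]; exact h234.le
      · rw [dt_self_outer]
      · rw [dt_self_right]
      · exact h345.le
    · refine dt_pos_of_mem_interior n45 ?_ hzi
      intro q hq
      simp only [Set.mem_insert_iff, Set.mem_singleton_iff] at hq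
      rcases hq with rfl | rfl | rfl | rfl | rfl
      · rw [dt_rot, dt_rot]; exact h145.le
      · rw [dt_rot, dt_rot]; exact h245.le
      · rw [dt_rot, dt_rot]; exact h345.le
      · rw [dt_self_outer]
      · rw [dt_self_right]
    · refine dt_pos_of_mem_interior n51 ?_ hzi
      intro q hq
      simp only [Set.mem_insert_iff, Set.mem_singleton_iff] at hq
      rcases hq with rfl | rfl | rfl | rfl | rfl
      · rw [dt_self_right]
      · rw [dt_rot]; exact h125.le
      · rw [dt_rot]; exact h135.le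
      · rw [dt_rot]; exact h145.le
      · rw [dt_self_outer]

/-- Maker has an empty convex quadrilateral. -/
def WinCond (M P : Finset Plane) : Prop :=
  ∃ v1 ∈ M, ∃ v2 ∈ M, ∃ v3 ∈ M, ∃ v4 ∈ M,
    0 < dt v1 v2 v3 ∧ 0 < dt v2 v3 v4 ∧ 0 < dt v3 v4 v1 ∧ 0 < dt v4 v1 v2 ∧
    ∀ z ∈ P, ¬ (0 < dt v1 v2 z ∧ 0 < dt v2 v3 z ∧ 0 < dt v3 v4 z ∧ 0 < dt v4 v1 z)

theorem winCond_shear (c : ℝ) (M P : Finset Plane) (h : WinCond M P) :
    WinCond (M.image (shear c)) (P.image (shear c)) := by
  obtain ⟨v1, m1, v2, m2, v3, m3, v4, m4, h1, h2, h3, h4, h5⟩ := h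
  refine ⟨_, Finset.mem_image_of_mem _ m1, _, Finset.mem_image_of_mem _ m2,
    _, Finset.mem_image_of_mem _ m3, _, Finset.mem_image_of_mem _ m4, ?_⟩
  simp only [dt_shear]
  refine ⟨h1, h2, h3, h4, ?_⟩
  intro z hz
  obtain ⟨z, hz', rfl⟩ := Finset.mem_image.mp hz
  simp only [dt_shear]
  exact h5 z hz'

theorem eventually_pos {f : ℝ → ℝ} (hf : Continuous f) (h0 : 0 < f 0) :
    ∀ᶠ t in nhdsWithin (0 : ℝ) (Set.Ioi 0), 0 < f t :=
  (hf.continuousAt.eventually (lt_mem_nhds h0)).filter_mono nhdsWithin_le_nhds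

theorem winNext_of_winCond {M P : Finset Plane} (hv : Valid M P) (h : WinCond M P) :
    WinNext 5 M P := by
  obtain ⟨v1, m1, v2, m2, v3, m3, v4, m4, h1, h2, h3, h4, h5⟩ := h
  set U : Set Plane := {y | 0 < dt v1 y v2 ∧ 0 < dt v1 y v3 ∧ 0 < dt v1 y v4 ∧
    0 < dt y v2 v3 ∧ 0 < dt y v2 v4 ∧ 0 < dt y v3 v4 ∧
    ∀ z ∈ P, dt v1 v2 z < 0 → dt v1 v2 z < dt v1 v2 y} with hU
  have hopen : IsOpen U := by
    have c1 : ∀ a b : Plane, IsOpen {y : Plane | 0 < dt a y b} := by
      intro a b
      apply isOpen_lt continuous_const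
      unfold dt; fun_prop
    have c2 : ∀ a b : Plane, IsOpen {y : Plane | 0 < dt y a b} := by
      intro a b
      apply isOpen_lt continuous_const
      unfold dt; fun_prop
    have c3 : IsOpen {y : Plane | ∀ z ∈ P, dt v1 v2 z < 0 → dt v1 v2 z < dt v1 v2 y} := by
      have : {y : Plane | ∀ z ∈ P, dt v1 v2 z < 0 → dt v1 v2 z < dt v1 v2 y} =
          ⋂ z ∈ P, {y : Plane | dt v1 v2 z < 0 → dt v1 v2 z < dt v1 v2 y} := by
        ext y; simp
      rw [this]
      refine isOpen_biInter_finset ?_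
      intro z _
      by_cases hz : dt v1 v2 z < 0
      · simp only [hz, forall_const]
        apply isOpen_lt continuous_const
        unfold dt; fun_prop
      · simp [hz]
    exact (c1 v1 v2).inter ((c1 v1 v3).inter ((c1 v1 v4).inter ((c2 v2 v3).inter
      ((c2 v2 v4).inter ((c2 v3 v4).inter c3)))))
  have hne : U.Nonempty := by
    set y : ℝ → Plane := fun t => ((v1.1 + v2.1) / 2 + t * (v2.2 - v1.2),
      (v1.2 + v2.2) / 2 - t * (v2.1 - v1.1)) with hy
    have hyc : Continuous y := by rw [hy]; fun_prop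
    have hcc : ∀ p : Plane, Continuous (fun _ : ℝ => p) := fun p => continuous_const
    have e2 := eventually_pos (continuous_dt (hcc v1) hyc (hcc v3)) (by
      simp only [hy, dt] at h1 ⊢; nlinarith)
    have e3 := eventually_pos (continuous_dt (hcc v1) hyc (hcc v4)) (by
      simp only [hy, dt] at h4 ⊢; nlinarith)
    have e4 := eventually_pos (continuous_dt hyc (hcc v2) (hcc v3)) (by
      simp only [hy, dt] at h1 ⊢; nlinarith)
    have e5 := eventually_pos (continuous_dt hyc (hcc v2) (hcc v4)) (by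
      simp only [hy, dt] at h4 ⊢; nlinarith)
    have e6 := eventually_pos (continuous_dt hyc (hcc v3) (hcc v4)) (by
      simp only [hy, dt] at h2 h3 ⊢; nlinarith)
    have e7 : ∀ᶠ t in nhdsWithin (0 : ℝ) (Set.Ioi 0), ∀ z ∈ P, dt v1 v2 z < 0 →
        dt v1 v2 z < dt v1 v2 (y t) := by
      rw [Filter.eventually_all_finset]
      intro z _
      by_cases hz : dt v1 v2 z < 0
      · have hc : Continuous (fun t => dt v1 v2 (y t) - dt v1 v2 z) :=
          (continuous_dt (hcc v1) (hcc v2) hyc).sub continuous_const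
        have := eventually_pos hc (by
          have : dt v1 v2 (y 0) = 0 := by simp only [hy, dt]; ring
          rw [this]; linarith)
        filter_upwards [this] with t ht _
        linarith
      · exact Filter.Eventually.of_forall (fun t h => absurd h hz)
    have e8 : ∀ᶠ t in nhdsWithin (0 : ℝ) (Set.Ioi 0), 0 < t := eventually_mem_nhdsWithin
    obtain ⟨t, t2, t3, t4, t5, t6, t7, t8⟩ :=
      (e2.and (e3.and (e4.and (e5.and (e6.and (e7.and e8)))))).exists
    refine ⟨y t, ?_, t2, t3, t4, t5, t6, t7⟩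
    have hne12 : v1 ≠ v2 := (ne_of_dt_pos h1).1
    have hsq : 0 < (v2.1 - v1.1) ^ 2 + (v2.2 - v1.2) ^ 2 := by
      by_contra hcon
      apply hne12
      have h3 : v2.1 - v1.1 = 0 := by
        nlinarith [sq_nonneg (v2.1 - v1.1), sq_nonneg (v2.2 - v1.2)]
      have h4 : v2.2 - v1.2 = 0 := by
        nlinarith [sq_nonneg (v2.1 - v1.1), sq_nonneg (v2.2 - v1.2)]
      ext <;> linarith
    have : dt v1 (y t) v2 = t * ((v2.1 - v1.1) ^ 2 + (v2.2 - v1.2) ^ 2) := by
      simp only [hy, dt]; ring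
    rw [this]; positivity
  obtain ⟨y, ⟨u1, u2, u3, u4, u5, u6, u7⟩, hyP, hyG⟩ := exists_generic P hv.2 U hopen hne
  have hM := hv.1
  have h12y : dt v1 v2 y < 0 := by rw [dt_swap', neg_lt_zero]; exact u1
  refine ⟨y, hyP, hyG, {v1, y, v2, v3, v4}, ?_, ?_⟩
  · refine hole5 u1 u2 u3 h1 (by rw [← dt_rot]; exact h4) (by rw [dt_rot]; exact h3) u4 u5 u6 h2
      (Finset.mem_insert_of_mem (hM m1)) (Finset.mem_insert_self _ _)
      (Finset.mem_insert_of_mem (hM m2)) (Finset.mem_insert_of_mem (hM m3))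
      (Finset.mem_insert_of_mem (hM m4)) ?_
    rintro z hz ⟨k1, k2, k3, k4, k5⟩
    rw [Finset.mem_insert] at hz
    rcases hz with rfl | hz
    · rw [dt_self_right] at k1; exact lt_irrefl _ k1
    · rcases lt_trichotomy (dt v1 v2 z) 0 with hneg | hzero | hpos
      · have hsp := dt_split v1 v2 y z
        have e1 : dt v2 y z = - dt y v2 z := dt_swap _ _ _
        have e2 : dt y v1 z = - dt v1 y z := dt_swap _ _ _
        have := u7 z hz hneg
        linarith
      · by_cases hz1 : z = v1
        · subst hz1; rw [dt_self_outer] at k1; exact lt_irrefl _ k1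
        by_cases hz2 : z = v2
        · subst hz2; rw [dt_self_right] at k2; exact lt_irrefl _ k2
        exact hv.2 v1 (hM m1) v2 (hM m2) z hz (ne_of_dt_pos h1).1 (Ne.symm hz1)
          (Ne.symm hz2) hzero
      · exact h5 z hz ⟨hpos, k3, k4, k5⟩
  · intro p hp
    simp only [Finset.mem_insert, Finset.mem_singleton] at hp ⊢
    rcases hp with rfl | rfl | rfl | rfl | rfl <;> simp [m1, m2, m3, m4]

end Pool.Agent.Lib.MP_7f1c6c_co
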