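import Pool.Agent.Lib.MP_7f1c6c_co.Conic

/-!
# Maker wins the 5-hole game against every constant bias
-/

namespace Pool.Agent.Lib.MP_7f1c6c_co

/-- The position contains `n` stars. -/
def SG (s r n : ℕ) (M P : Finset Plane) : Prop :=
  ∃ (Qs : Finset Plane) (X : Plane → Finset ℕ) (A B : Plane → ℕ → Plane),
    Stars s r M P Qs X A B ∧ Qs.card = n

theorem exists_height (Qs : Finset Plane) (h : ∀ Q ∈ Qs, 0 < Q.2) :
    ∃ e : ℝ, 0 < e ∧ ∀ Q ∈ Qs, e ≤ Q.2 := by
  classical
  induction Qs using Finset.induction_on with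
  | empty => exact ⟨1, one_pos, by simp⟩
  | @insert Q Qs hQ ih =>
    obtain ⟨e, he, hle⟩ := ih (fun Q' hQ' => h Q' (Finset.mem_insert_of_mem hQ'))
    refine ⟨min e Q.2, lt_min he (h Q (Finset.mem_insert_self _ _)), ?_⟩
    intro Q' hQ'
    rw [Finset.mem_insert] at hQ'
    rcases hQ' with rfl | hQ'
    · exact min_le_right _ _
    · exact (min_le_left _ _).trans (hle Q' hQ')

theorem add_star {s r : ℕ} {M P M' P' Qs : Finset Plane} {X : Plane → Finset ℕ}
    {A B : Plane → ℕ → Plane} (hS : Stars s r M P Qs X A B) (hMP : M ⊆ P) (hMM : M ⊆ M')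
    {Q : Plane} (hQ : Q ∉ Qs) (hstar : StarAt s r P M' Q) :
    SG s r (Qs.card + 1) M' P' := by
  classical
  obtain ⟨hpos, X', hX1, hX2, A', B', hAB⟩ := hstar
  have hold : ∀ Q' ∈ Qs, ∀ n ∈ X Q', n ∈ X' → dt (pp n) Q Q' ≠ 0 := by
    intro Q' hQ' n hn hn' h0
    have hmem : A Q' n ∈ P := hMP (hS.memA Q' hQ' n hn)
    obtain ⟨-, -, -, h1⟩ := hAB n hn'
    have hne : pp n ≠ Q' := by
      intro h
      have := hS.pos Q' hQ'
      rw [← h] at this
      simp [pp] at this
    apply h1 _ hmem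
    have g1 : dt (pp n) Q' Q = 0 := by rw [dt_swap', h0, neg_zero]
    have g2 : dt (pp n) Q' (A Q' n) = 0 := by
      obtain ⟨ta, tb, _, _, _, h5, _⟩ := hS.btw Q' hQ' n hn
      rw [h5]; simp only [dt]; ring
    exact dt_three hne (dt_self_outer _ _) g1 g2
  refine ⟨insert Q Qs, fun q => if q = Q then X' else X q,
    fun q => if q = Q then A' else A q, fun q => if q = Q then B' else B q, ?_, ?_⟩
  · have hneQ : ∀ Q' ∈ Qs, Q' ≠ Q := by rintro Q' hQ' rfl; exact hQ hQ'
    constructor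
    · intro Q' hQ'
      rw [Finset.mem_insert] at hQ'
      rcases hQ' with rfl | hQ'
      · simpa using hX1
      · simpa [hneQ Q' hQ'] using hS.card Q' hQ'
    · intro Q' hQ'
      rw [Finset.mem_insert] at hQ'
      rcases hQ' with rfl | hQ'
      · simpa using hX2
      · simpa [hneQ Q' hQ'] using hS.sub Q' hQ'
    · intro Q' hQ'
      rw [Finset.mem_insert] at hQ'
      rcases hQ' with rfl | hQ'
      · exact hpos
      · exact hS.pos Q' hQ'
    · intro Q' hQ' n hn
      rw [Finset.mem_insert] at hQ'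
      rcases hQ' with rfl | hQ'
      · simp only [if_true] at hn ⊢
        exact (hAB n hn).1
      · simp only [hneQ Q' hQ', if_false] at hn ⊢
        exact hMM (hS.memA Q' hQ' n hn)
    · intro Q' hQ' n hn
      rw [Finset.mem_insert] at hQ'
      rcases hQ' with rfl | hQ'
      · simp only [if_true] at hn ⊢
        exact (hAB n hn).2.1
      · simp only [hneQ Q' hQ', if_false] at hn ⊢
        exact hMM (hS.memB Q' hQ' n hn)
    · intro Q' hQ' n hn
      rw [Finset.mem_insert] at hQ'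
      rcases hQ' with rfl | hQ'
      · simp only [if_true] at hn ⊢
        exact (hAB n hn).2.2.1
      · simp only [hneQ Q' hQ', if_false] at hn ⊢
        exact hS.btw Q' hQ' n hn
    · intro Q1 hQ1 Q2 hQ2 hne n hn1 hn2
      rw [Finset.mem_insert] at hQ1 hQ2
      rcases hQ1 with rfl | hQ1
      · rcases hQ2 with rfl | hQ2
        · exact absurd rfl hne
        · simp only [if_true] at hn1
          simp only [hneQ Q2 hQ2, if_false] at hn2
          exact hold Q2 hQ2 n hn2 hn1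
      · rcases hQ2 with rfl | hQ2
        · simp only [if_true] at hn2
          simp only [hneQ Q1 hQ1, if_false] at hn1
          rw [dt_swap', neg_ne_zero]
          exact hold Q1 hQ1 n hn1 hn2
        · simp only [hneQ Q1 hQ1, hneQ Q2 hQ2, if_false] at hn1 hn2
          exact hS.indep Q1 hQ1 Q2 hQ2 hne n hn1 hn2
  · rw [Finset.card_insert_of_notMem hQ]

theorem sg_iter {s N R K nm : ℕ} (hN : N = (2 * s + 3) ^ (s + 1))
    (hnm : 2 * (s + 1) * (s + 1) * N ≤ nm)
    (hR : 7 * nm + 2 * nm ^ 2 + N * nm < R) (hK : N + 2 ≤ K)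
    {M P : Finset Plane} (hv : Valid M P) {c d : Plane} (hc : c ∈ P) (hd : d ∈ P)
    (hcd : c ≠ d) (hc2 : c.2 = 0) (hd2 : d.2 = 0) (hc1 : c.1 ≤ 0) (hd1 : d.1 ≤ 0) (n : ℕ) :
    Force s (SG s (K + R + N) n) M P := by
  induction n with
  | zero =>
    refine Force.done ⟨∅, fun _ => ∅, fun _ _ => (0, 0), fun _ _ => (0, 0), ?_, by simp⟩
    constructor <;> simp
  | succ n ih =>
    refine ih.bind hv ?_
    intro M' P' hv' hM hP hG
    obtain ⟨Qs, X, A, B, hS, hcard⟩ := hG
    obtain ⟨e, he, hle⟩ := exists_height Qs hS.pos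
    obtain ⟨a, q, hC, hq⟩ := exists_config N R K hK hv'.2 (hP hc) (hP hd) hcd hc2 hd2 hc1 hd1 he
    refine (gadget_star (s := s) hC (hP hc) (hP hd) hcd hc2 hd2 hv' hN hnm hR hq).mono hv' ?_
    rintro M'' P'' hv'' hM'' hP'' ⟨Q, hQ1, hQ2⟩
    have hnotin : Q ∉ Qs := by
      intro h
      have := hle Q h
      linarith
    have := add_star (P' := P'') hS hv'.1 hM'' hnotin hQ2
    rw [hcard] at this
    exact this

theorem force_main (s : ℕ) {M P : Finset Plane} (hv : Valid M P) {c d : Plane} (hc : c ∈ P)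
    (hd : d ∈ P) (hcd : c ≠ d) (hc2 : c.2 = 0) (hd2 : d.2 = 0) (hc1 : c.1 ≤ 0)
    (hd1 : d.1 ≤ 0) : Force s WinCond M P := by
  set N := (2 * s + 3) ^ (s + 1) with hN
  set nm := 2 * (s + 1) * (s + 1) * N with hnm
  set R := 7 * nm + 2 * nm ^ 2 + N * nm + 1 with hR
  set r := (N + 2) + R + N with hr
  have hlt : 7 * nm + 2 * nm ^ 2 + N * nm < R := by rw [hR]; exact Nat.lt_succ_self _
  refine (sg_iter (s := s) (N := N) (R := R) (K := N + 2) (nm := nm) hN (le_of_eq hnm.symm)
    hlt le_rfl hv hc hd hcd hc2 hd2 hc1 hd1 ((s + 1) * r * r + 1)).bind hv ?_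
  rintro M' P' hv' _ _ ⟨Qs, X, A, B, hS, hcard⟩
  exact force_of_stars hS hv' (by rw [hcard]; exact Nat.lt_succ_self _)

theorem force_start (s : ℕ) : Force s WinCond ∅ ∅ := by
  refine Force.move (0, 0) (by simp) ?_ ?_
  · apply gp_insert
    · intro a ha; simp at ha
    · intro a ha; simp at ha
  intro B hB1 hB2 hB3
  have hv0 : Valid ∅ ∅ := ⟨by simp, by intro a ha; simp at ha⟩
  have hv1 := hv0.next hB3
  obtain ⟨d, hdU, hdP, hdG⟩ := exists_generic (insert ((0, 0) : Plane) ∅ ∪ B) hB3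
    {x : Plane | x.1 < 0} (isOpen_lt continuous_fst continuous_const) ⟨(-1, 0), by simp⟩
  have hd0 : d.1 < 0 := hdU
  refine Force.move d hdP hdG ?_
  intro B' hB1' hB2' hB3'
  have hv2 := hv1.next hB3'
  set M2 : Finset Plane := insert d (insert (0, 0) ∅) with hM2
  set P2 : Finset Plane := insert d (insert ((0, 0) : Plane) ∅ ∪ B) ∪ B' with hP2
  set θ : ℝ := d.2 / d.1 with hθ
  have hf : Force s WinCond (M2.image (shear θ)) (P2.image (shear θ)) := by
    have hvs : Valid (M2.image (shear θ)) (P2.image (shear θ)) :=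
      ⟨Finset.image_subset_image hv2.1, (gp_image_shear _ _).mpr hv2.2⟩
    refine force_main s hvs (c := shear θ (0, 0)) (d := shear θ d) ?_ ?_ ?_ ?_ ?_ ?_ ?_
    · exact Finset.mem_image_of_mem _ (hv2.1 (by simp [hM2]))
    · exact Finset.mem_image_of_mem _ (hv2.1 (by simp [hM2]))
    · intro h
      have := shear_injective θ h
      rw [← this] at hd0
      simp at hd0
    · simp [shear]
    · simp only [shear, hθ]
      rw [div_mul_cancel₀ _ hd0.ne, sub_self]
    · simp [shear]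
    · exact hd0.le
  have := Force.shear θ (fun M P h => winCond_shear (-θ) M P h) hf
  rw [image_shear_image, image_shear_image] at this
  exact this

theorem not_breakerWins_five (s : ℕ) : ¬ BreakerWins 5 s := by
  apply not_breakerWins_of_force
  have hv0 : Valid ∅ ∅ := ⟨by simp, by intro a ha; simp at ha⟩
  exact (force_start s).mono hv0 (fun M' P' hv' _ _ h => winNext_of_winCond hv' h)

theorem IsHole.sub {k k' : ℕ} {P H : Finset Plane} (h : IsHole k P H) (hk : k' ≤ k) :
    ∃ H' ⊆ H, IsHole k' P H' := by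
  obtain ⟨h1, h2, h3, h4⟩ := h
  obtain ⟨H', hH', hcard⟩ := Finset.exists_subset_card_eq (h2 ▸ hk)
  refine ⟨H', hH', hH'.trans h1, hcard, ?_, ?_⟩
  · have hsub : (H' : Set Plane) ⊆ (H : Set Plane) := Finset.coe_subset.mpr hH'
    exact h3.mono hsub
  · intro p hp hmem
    exact h4 p hp (interior_mono (convexHull_mono (Finset.coe_subset.mpr hH')) hmem)

theorem BreakerWins.mono {k k' s : ℕ} (h : BreakerWins k s) (hk : k ≤ k') :
    BreakerWins k' s := by
  obtain ⟨σ, h1, h2⟩ := h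
  refine ⟨σ, h1, ?_⟩
  rintro x l hl ⟨P, H, g1, g2, g3, g4⟩
  obtain ⟨H', hH', hole⟩ := g3.sub hk
  exact h2 x l hl ⟨P, H', g1, g2, hole, fun p hp => g4 p (hH' hp)⟩

theorem not_breakerWins_le_five {k : ℕ} (hk : k ≤ 5) (s : ℕ) : ¬ BreakerWins k s :=
  fun h => not_breakerWins_five s (h.mono hk)

end Pool.Agent.Lib.MP_7f1c6c_co
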