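import Pool.Agent.Lib.MP_7f1c6c_co.Cone

/-!
# Rings of Breaker's points
-/

namespace Pool.Agent.Lib.MP_7f1c6c_co

/-- The four base directions. -/
def dir : Fin 4 → Plane := ![(1, 0), (0, 1), (1, 1), (1, -1)]

/-- The point with ring property: the points of `Z` near `v` reach, in each of the eight
directions, every vector that is far from that direction. -/
def RingOK (v : Plane) (Z : Finset Plane) (r2 : ℝ) : Prop :=
  ∀ k : Fin 4, ∀ e : ℝ, (e = 1 ∨ e = -1) → ∃ z ∈ Z, dp (z - v) (z - v) < r2 ∧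
    ∀ x : Plane, (1 / 4) * nr x < e * cr (dir k) x → 0 < cr (z - v) x

theorem RingOK.mono {v : Plane} {Z Z' : Finset Plane} {r2 : ℝ} (h : RingOK v Z r2)
    (hZ : Z ⊆ Z') : RingOK v Z' r2 := by
  intro k e he
  obtain ⟨z, hz, h1, h2⟩ := h k e he
  exact ⟨z, hZ hz, h1, h2⟩

theorem nr_neg (x : Plane) : nr (-x) = nr x := by
  unfold nr dp
  simp

theorem nr_pos {x : Plane} (hx : x ≠ 0) : 0 < nr x := by
  unfold nr
  apply Real.sqrt_pos.mpr
  simp only [dp]
  by_contra hcon
  apply hx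
  have h1 : x.1 = 0 := by nlinarith [sq_nonneg x.1, sq_nonneg x.2]
  have h2 : x.2 = 0 := by nlinarith [sq_nonneg x.1, sq_nonneg x.2]
  ext
  · exact h1
  · exact h2

/-- A nonzero vector is close to at most one base direction. -/
theorem close_unique {x : Plane} (hx : x ≠ 0) {k k' : Fin 4}
    (h : |cr (dir k) x| ≤ (1 / 4) * nr x) (h' : |cr (dir k') x| ≤ (1 / 4) * nr x) : k = k' := by
  have hpos := nr_pos hx
  have hsq := nr_sq x
  rw [abs_le] at h h'
  simp only [dp] at hsq
  fin_cases k <;> fin_cases k' <;> first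
    | rfl
    | (exfalso
       simp only [dir, cr, Fin.zero_eta, Fin.mk_one, Fin.reduceFinMk, Matrix.cons_val_zero,
         Matrix.cons_val_one, Matrix.cons_val] at h h'
       nlinarith)

theorem exists_far_dir {x1 x2 x3 : Plane} (h1 : x1 ≠ 0) (h2 : x2 ≠ 0) (h3 : x3 ≠ 0) :
    ∃ k : Fin 4, (1 / 4) * nr x1 < |cr (dir k) x1| ∧ (1 / 4) * nr x2 < |cr (dir k) x2| ∧
      (1 / 4) * nr x3 < |cr (dir k) x3| := by
  by_contra hcon
  push Not at hcon
  have hex : ∀ k : Fin 4, ∃ i : Fin 3, |cr (dir k) (![x1, x2, x3] i)| ≤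
      (1 / 4) * nr (![x1, x2, x3] i) := by
    intro k
    by_cases g1 : (1 / 4) * nr x1 < |cr (dir k) x1|
    · by_cases g2 : (1 / 4) * nr x2 < |cr (dir k) x2|
      · exact ⟨2, hcon k g1 g2⟩
      · exact ⟨1, not_lt.mp g2⟩
    · exact ⟨0, not_lt.mp g1⟩
  choose i hi using hex
  obtain ⟨k, k', hne, heq⟩ := Fintype.exists_ne_map_eq_of_card_lt i (by simp)
  apply hne
  have hi' := hi k'
  rw [← heq] at hi'
  refine close_unique ?_ (hi k) hi'
  generalize i k = j
  fin_cases j
  · exact h1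
  · exact h2
  · exact h3

/-- What a vertex of a triangle needs. -/
def Opens (m u v : Plane) : Prop :=
  0 < cr (u - m) (v - m) ∧ ∃ k : Fin 4, ∃ e : ℝ, (e = 1 ∨ e = -1) ∧
    (1 / 4) * nr (v - m) < e * cr (dir k) (v - m) ∧
    (1 / 4) * nr (u - m) < - (e * cr (dir k) (u - m))

theorem opens_of_mid {lo m hi : Plane} {k : Fin 4} (hne : cr (lo - m) (hi - m) ≠ 0)
    (h1 : (1 / 4) * nr (lo - m) < |cr (dir k) (lo - m)|)
    (h2 : (1 / 4) * nr (hi - m) < |cr (dir k) (hi - m)|)
    (h3 : cr (dir k) (lo - m) < 0) (h4 : 0 < cr (dir k) (hi - m)) :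
    Opens m lo hi ∨ Opens m hi lo := by
  rw [abs_of_neg h3] at h1
  rw [abs_of_pos h4] at h2
  rcases lt_or_gt_of_ne hne with h | h
  · right
    refine ⟨?_, k, -1, Or.inr rfl, by linarith, by linarith⟩
    have : cr (hi - m) (lo - m) = - cr (lo - m) (hi - m) := by simp only [cr]; ring
    rw [this]; linarith
  · left
    exact ⟨h, k, 1, Or.inl rfl, by linarith, by linarith⟩

theorem cr_sub_swap (k p q : Plane) : cr k (p - q) = - cr k (q - p) := by
  simp only [cr, Prod.fst_sub, Prod.snd_sub]; ring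

theorem nr_sub_swap (p q : Plane) : nr (p - q) = nr (q - p) := by
  rw [← nr_neg]; congr 1; abel

theorem triangle_opens {p1 p2 p3 : Plane} (h : dt p1 p2 p3 ≠ 0) :
    ∃ m ∈ ({p1, p2, p3} : Finset Plane), ∃ u ∈ ({p1, p2, p3} : Finset Plane),
      ∃ v ∈ ({p1, p2, p3} : Finset Plane), Opens m u v := by
  have n12 : p2 - p1 ≠ 0 := by
    intro h0; rw [sub_eq_zero.mp h0, dt_self_left] at h; exact h rfl
  have n23 : p3 - p2 ≠ 0 := by
    intro h0; rw [sub_eq_zero.mp h0, dt_self_right] at h; exact h rfl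
  have n13 : p3 - p1 ≠ 0 := by
    intro h0; rw [sub_eq_zero.mp h0, dt_self_outer] at h; exact h rfl
  obtain ⟨k, k12, k23, k13⟩ := exists_far_dir n12 n23 n13
  have k21 : (1 / 4) * nr (p1 - p2) < |cr (dir k) (p1 - p2)| := by
    rw [nr_sub_swap, cr_sub_swap, abs_neg]; exact k12
  have k32 : (1 / 4) * nr (p2 - p3) < |cr (dir k) (p2 - p3)| := by
    rw [nr_sub_swap, cr_sub_swap, abs_neg]; exact k23
  have k31 : (1 / 4) * nr (p1 - p3) < |cr (dir k) (p1 - p3)| := by
    rw [nr_sub_swap, cr_sub_swap, abs_neg]; exact k13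
  have hz : ∀ p q : Plane, (1 / 4) * nr (p - q) < |cr (dir k) (p - q)| →
      cr (dir k) (p - q) ≠ 0 := by
    intro p q hpq h0
    rw [h0, abs_zero] at hpq
    linarith [nr_nonneg (p - q)]
  have c1 : cr (p2 - p1) (p3 - p1) = dt p1 p2 p3 := by
    simp only [cr, dt, Prod.fst_sub, Prod.snd_sub]
  have c2 : cr (p3 - p2) (p1 - p2) = dt p1 p2 p3 := by
    simp only [cr, dt, Prod.fst_sub, Prod.snd_sub]; ring
  have c3 : cr (p1 - p3) (p2 - p3) = dt p1 p2 p3 := by
    simp only [cr, dt, Prod.fst_sub, Prod.snd_sub]; ring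
  have c1' : cr (p3 - p1) (p2 - p1) = - dt p1 p2 p3 := by
    simp only [cr, dt, Prod.fst_sub, Prod.snd_sub]; ring
  have c2' : cr (p1 - p2) (p3 - p2) = - dt p1 p2 p3 := by
    simp only [cr, dt, Prod.fst_sub, Prod.snd_sub]; ring
  have c3' : cr (p2 - p3) (p1 - p3) = - dt p1 p2 p3 := by
    simp only [cr, dt, Prod.fst_sub, Prod.snd_sub]; ring
  have hneg : - dt p1 p2 p3 ≠ 0 := neg_ne_zero.mpr h
  have s12 := cr_sub_swap (dir k) p1 p2
  have s13 := cr_sub_swap (dir k) p1 p3
  have s23 := cr_sub_swap (dir k) p2 p3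
  have ssum : cr (dir k) (p2 - p1) + cr (dir k) (p3 - p2) = cr (dir k) (p3 - p1) := by
    simp only [cr, Prod.fst_sub, Prod.snd_sub]; ring
  rcases lt_or_gt_of_ne (hz p2 p1 k12) with a12 | a12 <;>
  rcases lt_or_gt_of_ne (hz p3 p2 k23) with a23 | a23 <;>
  rcases lt_or_gt_of_ne (hz p3 p1 k13) with a13 | a13
  · -- p3 < p2 < p1
    rcases opens_of_mid (lo := p3) (m := p2) (hi := p1) (k := k) (c2 ▸ h) k23 k21 a23
      (by linarith) with g | g
    · exact ⟨p2, by simp, p3, by simp, p1, by simp, g⟩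
    · exact ⟨p2, by simp, p1, by simp, p3, by simp, g⟩
  · exfalso; linarith
  · -- p2 < p3 < p1
    rcases opens_of_mid (lo := p2) (m := p3) (hi := p1) (k := k) (c3' ▸ hneg) k32 k31
      (by linarith) (by linarith) with g | g
    · exact ⟨p3, by simp, p2, by simp, p1, by simp, g⟩
    · exact ⟨p3, by simp, p1, by simp, p2, by simp, g⟩
  · -- p2 < p1 < p3
    rcases opens_of_mid (lo := p2) (m := p1) (hi := p3) (k := k) (c1 ▸ h) k12 k13
      a12 a13 with g | g
    · exact ⟨p1, by simp, p2, by simp, p3, by simp, g⟩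
    · exact ⟨p1, by simp, p3, by simp, p2, by simp, g⟩
  · -- p3 < p1 < p2
    rcases opens_of_mid (lo := p3) (m := p1) (hi := p2) (k := k) (c1' ▸ hneg) k13 k12
      a13 a12 with g | g
    · exact ⟨p1, by simp, p3, by simp, p2, by simp, g⟩
    · exact ⟨p1, by simp, p2, by simp, p3, by simp, g⟩
  · -- p1 < p3 < p2
    rcases opens_of_mid (lo := p1) (m := p3) (hi := p2) (k := k) (c3 ▸ h) k31 k32
      (by linarith) (by linarith) with g | g
    · exact ⟨p3, by simp, p1, by simp, p2, by simp, g⟩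
    · exact ⟨p3, by simp, p2, by simp, p1, by simp, g⟩
  · exfalso; linarith
  · -- p1 < p2 < p3
    rcases opens_of_mid (lo := p1) (m := p2) (hi := p3) (k := k) (c2' ▸ hneg) k21 k23
      (by linarith) a23 with g | g
    · exact ⟨p2, by simp, p1, by simp, p3, by simp, g⟩
    · exact ⟨p2, by simp, p3, by simp, p1, by simp, g⟩

theorem cr_dt (v x y : Plane) : cr (x - v) (y - v) = dt v x y := by
  simp only [cr, dt, Prod.fst_sub, Prod.snd_sub]

/-- The open triangle is contained in the interior of the hull. -/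
theorem mem_interior_of_dt {H : Set Plane} {A B C z : Plane} (hA : A ∈ H) (hB : B ∈ H)
    (hC : C ∈ H) (h1 : 0 < dt A B z) (h2 : 0 < dt B C z) (h3 : 0 < dt C A z) :
    z ∈ interior (convexHull ℝ H) := by
  set U : Set Plane := {p | 0 < dt A B p ∧ 0 < dt B C p ∧ 0 < dt C A p} with hU
  have hopen : IsOpen U := by
    have c : ∀ a b : Plane, IsOpen {y : Plane | 0 < dt a b y} := by
      intro a b
      apply isOpen_lt continuous_const
      unfold dt; fun_prop
    exact (c A B).inter ((c B C).inter (c C A))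
  have hsub : U ⊆ convexHull ℝ H := by
    rintro p ⟨g1, g2, g3⟩
    have hD := dt_split A B C p
    have hDpos : 0 < dt A B C := by linarith
    have hconv := convex_convexHull ℝ H
    have mA := subset_convexHull ℝ H hA
    have mB := subset_convexHull ℝ H hB
    have mC := subset_convexHull ℝ H hC
    have hp : p = (dt B C p / dt A B C) • A + (dt C A p / dt A B C) • B +
        (dt A B p / dt A B C) • C := by
      have hne := hDpos.ne'
      ext
      · simp only [Prod.fst_add, Prod.smul_fst, smul_eq_mul]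
        field_simp
        simp only [dt]; ring
      · simp only [Prod.snd_add, Prod.smul_snd, smul_eq_mul]
        field_simp
        simp only [dt]; ring
    rw [hp]
    have hsum : dt B C p / dt A B C + dt C A p / dt A B C + dt A B p / dt A B C = 1 := by
      field_simp
      linarith
    have := hconv.sum_mem (t := Finset.univ) (w := ![dt B C p / dt A B C,
      dt C A p / dt A B C, dt A B p / dt A B C]) (z := ![A, B, C]) ?_ ?_ ?_
    · simpa [Fin.sum_univ_three] using this
    · intro i _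
      fin_cases i
      · exact (div_pos g2 hDpos).le
      · exact (div_pos g3 hDpos).le
      · exact (div_pos g1 hDpos).le
    · simpa [Fin.sum_univ_three] using hsum
    · intro i _
      fin_cases i
      · exact mA
      · exact mB
      · exact mC
  exact interior_maximal hsub hopen ⟨h1, h2, h3⟩

theorem hull_lemma {H : Finset Plane} {v z u t a b : Plane}
    (hci : ConvexIndependent ℝ (fun p : (H : Set Plane) => (p : Plane)))
    (hv : v ∈ H) (hu : u ∈ H) (ht : t ∈ H) (ha : a ∈ H) (hb : b ∈ H)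
    (hav : a ≠ v) (hbv : b ≠ v)
    (hcone : 0 < cr (u - v) (t - v)) (h1 : 0 < cr (u - v) (z - v))
    (h2 : 0 < cr (z - v) (t - v)) {R c : ℝ} (hR : 0 < R)
    (hRH : ∀ x ∈ H, x ≠ v → R ^ 2 ≤ dp (x - v) (x - v)) (hc : c < 1)
    (hab : |dp (a - v) (b - v)| ≤ c * (nr (a - v) * nr (b - v)))
    (hz : dp (z - v) (z - v) < (1 - c) * R ^ 2 / 2)
    (hgen : ∀ x ∈ H, x ≠ v → cr (x - v) (z - v) ≠ 0) :
    z ∈ interior (convexHull ℝ (H : Set Plane)) := by
  classical
  have hnot : v ∉ convexHull ℝ ((H : Set Plane) \ {v}) :=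
    (convexIndependent_set_iff_notMem_convexHull_sdiff (𝕜 := ℝ)).mp hci v hv
  obtain ⟨f, c0, hf1, hf2⟩ := geometric_hahn_banach_point_closed
    (convex_convexHull ℝ ((H : Set Plane) \ {v}))
    ((H.finite_toSet.subset Set.sdiff_subset).isClosed_convexHull ℝ) hnot
  have hlin : ∀ x : Plane, f x = f (1, 0) * x.1 + f (0, 1) * x.2 := by
    intro x
    have : x = x.1 • ((1, 0) : Plane) + x.2 • ((0, 1) : Plane) := by
      ext <;> simp
    conv_lhs => rw [this]
    rw [map_add, map_smul, map_smul]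
    simp only [smul_eq_mul]; ring
  have huv : u ≠ v := by
    rintro rfl; simp [cr] at hcone
  have htv : t ≠ v := by
    rintro rfl; simp [cr] at hcone
  have hfpos : ∀ x ∈ H, x ≠ v → 0 < f (1, 0) * (x - v).1 + f (0, 1) * (x - v).2 := by
    intro x hx hxv
    have g := hf2 x (subset_convexHull ℝ _ ⟨hx, hxv⟩)
    rw [← hlin, map_sub]
    linarith
  set S : Finset Plane := (H.erase v).image (fun x => x - v) with hS
  have hSmem : ∀ y ∈ S, ∃ x ∈ H, x ≠ v ∧ x - v = y := by
    intro y hy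
    obtain ⟨x, hx, rfl⟩ := Finset.mem_image.mp hy
    rw [Finset.mem_erase] at hx
    exact ⟨x, hx.2, hx.1, rfl⟩
  have hmemS : ∀ x ∈ H, x ≠ v → x - v ∈ S := by
    intro x hx hxv
    exact Finset.mem_image_of_mem _ (Finset.mem_erase.mpr ⟨hxv, hx⟩)
  have hfw : 0 < f (1, 0) * (z - v).1 + f (0, 1) * (z - v).2 := by
    -- `z - v` is a positive combination
    have e1 := hfpos u hu huv
    have e2 := hfpos t ht htv
    have id1 : cr (u - v) (t - v) * (f (1, 0) * (z - v).1 + f (0, 1) * (z - v).2) =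
        cr (z - v) (t - v) * (f (1, 0) * (u - v).1 + f (0, 1) * (u - v).2) +
        cr (u - v) (z - v) * (f (1, 0) * (t - v).1 + f (0, 1) * (t - v).2) := by
      simp only [cr]; ring
    have e3 : 0 < cr (u - v) (t - v) * (f (1, 0) * (z - v).1 + f (0, 1) * (z - v).2) := by
      rw [id1]; positivity
    by_contra hcon
    push Not at hcon
    nlinarith
  obtain ⟨x, hx, y, hy, k1, k2, k3, k4⟩ := cone_lemma (S := S) (a := a - v) (b := b - v)
    (w := z - v) (hmemS a ha hav) (hmemS b hb hbv) (f1 := f (1, 0)) (f2 := f (0, 1))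
    (by
      intro y hy
      obtain ⟨x, hx, hxv, rfl⟩ := hSmem y hy
      exact hfpos x hx hxv) hfw hR
    (by
      intro y hy
      obtain ⟨x, hx, hxv, rfl⟩ := hSmem y hy
      exact hRH x hx hxv) hc hab hz ⟨u - v, hmemS u hu huv, h1⟩ ⟨t - v, hmemS t ht htv, h2⟩
    (by
      intro y hy
      obtain ⟨x, hx, hxv, rfl⟩ := hSmem y hy
      exact hgen x hx hxv)
  obtain ⟨x, hxH, hxv, rfl⟩ := hSmem x hx
  obtain ⟨y, hyH, hyv, rfl⟩ := hSmem y hy
  rw [cr_dt] at k1 k2 k3
  rw [cr_dt, cr_dt, cr_dt] at k4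
  have r1 : dt v z y = dt y v z := by rw [dt_rot, dt_rot]
  have hsp := dt_split v x y z
  refine mem_interior_of_dt (A := v) (B := x) (C := y) hv hxH hyH k2 ?_ ?_
  · rw [← r1] at hsp
    linarith
  · rw [← r1]; exact k3

end Pool.Agent.Lib.MP_7f1c6c_co
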