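import Pool.Agent.Lib.MP_7f1c6c_co.Maker
import Pool.Agent.Lib.MP_7f1c6c_co.Breaker

/-!
# Breaker's strategy against 6-holes
-/

namespace Pool.Agent.Lib.MP_7f1c6c_co

theorem inv_empty : Inv ∅ ∅ := by
  refine ⟨by simp, ?_, fun _ => 0, fun _ => 0, fun _ => 1, ?_, ?_, ?_, ?_, ?_, ?_⟩
  · intro a ha; simp at ha
  · simp
  · simp
  · simp
  · simp
  · simp
  · simp

open Classical in
/-- Breaker's answer to the move `x` if Maker's earlier points are `M` and all the earlier
points are `P`. -/
noncomputable def reply (M P : Finset Plane) (x : Plane) : Finset Plane :=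
  if h : Inv M P ∧ x ∉ P ∧ GP (insert x P) then (inv_step h.1 h.2.1 h.2.2).choose else ∅

theorem reply_spec {M P : Finset Plane} {x : Plane} (h : Inv M P) (hx : x ∉ P)
    (hg : GP (insert x P)) : (reply M P x).card ≤ 16 ∧ Disjoint (reply M P x) (insert x P) ∧
      GP (insert x P ∪ reply M P x) ∧ Inv (insert x M) (insert x P ∪ reply M P x) := by
  have hh : Inv M P ∧ x ∉ P ∧ GP (insert x P) := ⟨h, hx, hg⟩
  have := (inv_step h hx hg).choose_spec
  unfold reply
  rw [dif_pos hh]
  exact this

/-- The set of all points after the moves `l` of Maker. -/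
noncomputable def pa : List Plane → Finset Plane
  | [] => ∅
  | x :: l => insert x (pa l) ∪ reply l.toFinset (pa l) x

/-- Breaker's strategy. -/
noncomputable def strat : Strategy
  | [] => ∅
  | x :: l => reply l.toFinset (pa l) x

theorem placed_strat (l : List Plane) : placed strat l = pa l := by
  induction l with
  | nil => rfl
  | cons x l ih => simp only [placed, pa, strat, ih]

theorem inv_strat (l : List Plane) (hl : LegalMoves strat l) : Inv l.toFinset (pa l) := by
  induction l with
  | nil => simpa [pa] using inv_empty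
  | cons x l ih =>
    obtain ⟨h1, h2, h3⟩ := hl
    rw [placed_strat] at h2 h3
    rw [gp_iff] at h3
    have := (reply_spec (ih h1) h2 h3).2.2.2
    simpa only [List.toFinset_cons, pa] using this

theorem obeys_strat : ObeysRules 16 strat := by
  intro x l hl
  obtain ⟨h1, h2, h3⟩ := hl
  rw [placed_strat] at h2 h3
  rw [gp_iff] at h3
  obtain ⟨g1, g2, g3, -⟩ := reply_spec (inv_strat l h1) h2 h3
  refine ⟨g1, ?_, ?_⟩
  · rw [placed_strat]; exact g2
  · rw [placed_strat, gp_iff]; exact g3

theorem breakerWins_six : BreakerWins 6 16 := by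
  classical
  refine ⟨strat, obeys_strat, ?_⟩
  rintro x l hl ⟨P, H, hP1, hP2, ⟨hHP, hcard, hci, hempty⟩, hHl⟩
  -- remove x from H and shrink to five points
  have hc : 5 ≤ (H.erase x).card := by
    have := Finset.pred_card_le_card_erase (s := H) (a := x)
    omega
  obtain ⟨H', hH', hcard'⟩ := Finset.exists_subset_card_eq hc
  have hsub : H' ⊆ H := hH'.trans (Finset.erase_subset _ _)
  have hsubc : (H' : Set Plane) ⊆ (H : Set Plane) := Finset.coe_subset.mpr hsub
  have hci' : ConvexIndependent ℝ (fun p : (H' : Set Plane) => (p : Plane)) := hci.mono hsubc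
  have hHM : H' ⊆ l.toFinset := by
    intro p hp
    have h1 := Finset.mem_erase.mp (hH' hp)
    have h2 := hHl p h1.2
    rcases List.mem_cons.mp h2 with h3 | h3
    · exact absurd h3 h1.1
    · exact List.mem_toFinset.mpr h3
  obtain ⟨z, hz, hzi⟩ := inv_no_five (inv_strat l hl.1) hHM hcard' hci'
  refine hempty z (hP1 ?_) (interior_mono (convexHull_mono hsubc) hzi)
  rw [placed_strat]
  exact Finset.mem_insert_of_mem hz

theorem BreakerWins.mono_bias {k s s' : ℕ} (h : BreakerWins k s) (hs : s ≤ s') :
    BreakerWins k s' := by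
  obtain ⟨σ, h1, h2⟩ := h
  exact ⟨σ, fun x l hl => ⟨(h1 x l hl).1.trans hs, (h1 x l hl).2⟩, h2⟩

theorem breakerWins_of_six_le {k s : ℕ} (hk : 6 ≤ k) (hs : 16 ≤ s) : BreakerWins k s :=
  (breakerWins_six.mono hk).mono_bias hs

end Pool.Agent.Lib.MP_7f1c6c_co
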